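import Pool.Agent.TPP.Defs

/-! # MP_f155e9_co, TPP: numerics, part A -/

set_option autoImplicit false

namespace Pool.Agent.TPP

variable {n s k : ℕ}

set_option maxRecDepth 100000 in
private theorem polyA_NumA (j d t i k s : ℝ) (hj : 0 ≤ j) (hd : 0 ≤ d) (ht : 0 ≤ t)
    (hi : i = j + 1) (hk : k = 2 * j + 2 + d) (hs : s = k ^ 2 + 4 * k + 20 + t) :
    0 ≤ (s + k + 2 - (i - 1) * (k + i)) * (k + 2 * i) * (s + i + 1) *
        (s + k + 2 - i - i * (k + 1 - i)) * (s + 1) * (s + k + 2 - i) -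
      (k - 2 * i) * (s + k + 2 - i) * (s + k + 2) * (s + k + 1 + i) * (s + 1) * (s + k + 2 - i) -
      2 * (s + k + 1) * (s + k + 2) * (s + k + 1 + i) * (s + i + 1) *
        (s + k + 2 - i - i * (k + 1 - i)) := by
  subst hs
  subst hk
  subst hi
  ring_nf
  positivity

private theorem polyB_NumA (j t i k s : ℝ) (hj : 0 ≤ j) (ht : 0 ≤ t)
    (hi : i = j + 1) (hk : k = 2 * j + 1) (hs : s = k ^ 2 + 4 * k + 20 + t) :
    0 ≤ (s + k + 2 - (i - 1) * (k + i)) * (k + 2 * i) * (s + i + 1) * (s + 1) * (s + k + 2 - i) +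
      1 * (s + k + 2) * (s + k + 1 + i) * (s + 1) * (s + k + 2 - i) -
      2 * (s + k + 1) * (s + k + 2) * (s + k + 1 + i) * (s + i + 1) := by
  subst hs
  subst hk
  subst hi
  ring_nf
  positivity

private theorem polyC_NumA (j t i k s : ℝ) (hj : 0 ≤ j) (ht : 0 ≤ t)
    (hi : i = j + 2) (hk : k = 2 * j + 2) (hs : s = k ^ 2 + 4 * k + 20 + t) :
    0 ≤ (s + k + 2 - (i - 1) * (k + i)) * (k + 2 * i) * (s + i + 1) * (s + 1) * (s + k + 2 - i) +
      2 * (s + k + 2) * (s + k + 1 + i) * (s + 1) * (s + k + 2 - i) -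
      2 * (s + k + 1) * (s + k + 2) * (s + k + 1 + i) * (s + i + 1) := by
  subst hs
  subst hk
  subst hi
  ring_nf
  positivity

private theorem self_NumA (hn : n = 2 * s + 1 + k) : R n s s = 1 := by
  unfold R
  exact div_self (by exact_mod_cast (Nat.choose_pos (by omega : s ≤ n)).ne')

private theorem up_NumA (hn : n = 2 * s + 1 + k) (i : ℕ) (hi : i ≤ k) :
    R n s (s + i + 1) * ((s : ℝ) + i + 1) = R n s (s + i) * ((s : ℝ) + k + 1 - i) := by
  have h := Nat.choose_succ_right_eq n (s + i)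
  have h2 : n - (s + i) = s + k + 1 - i := by omega
  rw [h2] at h
  have h4 : ((s + k + 1 - i : ℕ) : ℝ) = (s : ℝ) + k + 1 - i := by
    rw [Nat.cast_sub (by omega)]
    push_cast
    ring
  have h3 : (n.choose (s + i + 1) : ℝ) * ((s : ℝ) + i + 1) =
      (n.choose (s + i) : ℝ) * ((s : ℝ) + k + 1 - i) := by
    rw [← h4]
    exact_mod_cast h
  unfold R
  rw [div_mul_eq_mul_div, h3, div_mul_eq_mul_div]

private theorem down_NumA (hn : n = 2 * s + 1 + k) (i : ℕ) (hi : i ≤ s) :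
    R n s (s - i) * ((s : ℝ) + k + 1 + i) = R n s (s + 1 - i) * ((s : ℝ) + 1 - i) := by
  have h := Nat.choose_succ_right_eq n (s - i)
  have h1 : s - i + 1 = s + 1 - i := by omega
  have h2 : n - (s - i) = s + k + 1 + i := by omega
  rw [h1, h2] at h
  have h3 : ((s + 1 - i : ℕ) : ℝ) = (s : ℝ) + 1 - i := by
    rw [Nat.cast_sub (by omega)]
    push_cast
    ring
  have h4 : (n.choose (s + 1 - i) : ℝ) * ((s : ℝ) + 1 - i) =
      (n.choose (s - i) : ℝ) * ((s : ℝ) + k + 1 + i) := by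
    rw [← h3]
    exact_mod_cast h
  unfold R
  rw [div_mul_eq_mul_div, ← h4, div_mul_eq_mul_div]

private theorem nonneg_NumA (n s m : ℕ) : 0 ≤ R n s m := by
  unfold R
  positivity

private theorem real_NumA (hs : k ^ 2 + 4 * k + 20 ≤ s) :
    (k : ℝ) ^ 2 + 4 * k + 20 ≤ s := by exact_mod_cast hs

private theorem xb_NumA (hn : n = 2 * s + 1 + k) (hs : k ^ 2 + 4 * k + 20 ≤ s) (i : ℕ)
    (hi : 2 * i ≤ k + 1) :
    R n s (s + i) * ((s : ℝ) + k + 2 - i - i * (k + 1 - i)) ≤ (s : ℝ) + k + 2 - i := by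
  induction i with
  | zero =>
    rw [Nat.add_zero, self_NumA hn]
    simp
  | succ i ih =>
    have ih := ih (by omega)
    have hx := up_NumA hn i (by omega)
    have hx0 := nonneg_NumA n s (s + i)
    have hs' := real_NumA hs
    have hi' : 2 * ((i : ℝ) + 1) ≤ k + 1 := by exact_mod_cast hi
    have hi0 : (0 : ℝ) ≤ i := Nat.cast_nonneg i
    have hk0 : (0 : ℝ) ≤ k := Nat.cast_nonneg k
    have hs0 : (0 : ℝ) ≤ s := Nat.cast_nonneg s
    have hB : 0 ≤ (i : ℝ) * (k + 1 - i) := mul_nonneg hi0 (by linarith)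
    have hP : 0 < (s : ℝ) + k + 2 - i := by linarith
    have hP' : 0 < (s : ℝ) + k + 1 - i := by linarith
    have hq : 0 < (s : ℝ) + i + 1 := by linarith
    have e1 : ((s : ℝ) + k + 1 - i - (i + 1) * (k - i)) * ((s : ℝ) + k + 2 - i) ≤
        ((s : ℝ) + k + 2 - i - i * (k + 1 - i)) * ((s : ℝ) + i + 1) := by
      have e : ((s : ℝ) + k + 2 - i - i * (k + 1 - i)) * ((s : ℝ) + i + 1) -
          ((s : ℝ) + k + 1 - i - (i + 1) * (k - i)) * ((s : ℝ) + k + 2 - i) =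
          (i * (k + 1 - i)) * (k + 1 - 2 * i) := by ring
      have e' : 0 ≤ ((i : ℝ) * (k + 1 - i)) * (k + 1 - 2 * i) := mul_nonneg hB (by linarith)
      linarith
    have e3 : R n s (s + i) * ((s : ℝ) + k + 1 - i - (i + 1) * (k - i)) ≤ (s : ℝ) + i + 1 := by
      refine le_of_mul_le_mul_right ?_ hP
      calc R n s (s + i) * ((s : ℝ) + k + 1 - i - (i + 1) * (k - i)) * ((s : ℝ) + k + 2 - i)
          = R n s (s + i) *
            (((s : ℝ) + k + 1 - i - (i + 1) * (k - i)) * ((s : ℝ) + k + 2 - i)) := by ring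
        _ ≤ R n s (s + i) *
            (((s : ℝ) + k + 2 - i - i * (k + 1 - i)) * ((s : ℝ) + i + 1)) :=
            mul_le_mul_of_nonneg_left e1 hx0
        _ = R n s (s + i) * ((s : ℝ) + k + 2 - i - i * (k + 1 - i)) * ((s : ℝ) + i + 1) := by
            ring
        _ ≤ ((s : ℝ) + k + 2 - i) * ((s : ℝ) + i + 1) := mul_le_mul_of_nonneg_right ih hq.le
        _ = ((s : ℝ) + i + 1) * ((s : ℝ) + k + 2 - i) := by ring
    have e4 : R n s (s + i + 1) * ((s : ℝ) + k + 1 - i - (i + 1) * (k - i)) ≤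
        (s : ℝ) + k + 1 - i := by
      refine le_of_mul_le_mul_right ?_ hq
      calc R n s (s + i + 1) * ((s : ℝ) + k + 1 - i - (i + 1) * (k - i)) * ((s : ℝ) + i + 1)
          = R n s (s + i + 1) * ((s : ℝ) + i + 1) *
            ((s : ℝ) + k + 1 - i - (i + 1) * (k - i)) := by ring
        _ = ((s : ℝ) + k + 1 - i) *
            (R n s (s + i) * ((s : ℝ) + k + 1 - i - (i + 1) * (k - i))) := by
            rw [hx]
            ring
        _ ≤ ((s : ℝ) + k + 1 - i) * ((s : ℝ) + i + 1) := mul_le_mul_of_nonneg_left e3 hP'.le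
    have e5 : (s : ℝ) + k + 2 - ((i + 1 : ℕ) : ℝ) - ((i + 1 : ℕ) : ℝ) *
        (k + 1 - ((i + 1 : ℕ) : ℝ)) = (s : ℝ) + k + 1 - i - (i + 1) * (k - i) := by
      push_cast
      ring
    have e6 : (s : ℝ) + k + 2 - ((i + 1 : ℕ) : ℝ) = (s : ℝ) + k + 1 - i := by
      push_cast
      ring
    rw [e5, e6, ← Nat.add_assoc]
    exact e4

private theorem yb_NumA (hn : n = 2 * s + 1 + k) (hs : k ^ 2 + 4 * k + 20 ≤ s) (i : ℕ)
    (hi : 1 ≤ i) (hik : i ≤ k + 1) :
    (s : ℝ) + k + 2 - (i - 1) * (k + i) ≤ R n s (s + 1 - i) * ((s : ℝ) + k + 2) := by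
  induction i, hi using Nat.le_induction with
  | base =>
    rw [Nat.add_sub_cancel, self_NumA hn]
    simp
  | succ i hi ih =>
    have ih := ih (by omega)
    have hks : k ≤ s := by nlinarith
    have hy := down_NumA hn i (by omega)
    have hy0 := nonneg_NumA n s (s + 1 - i)
    have hi1 : (1 : ℝ) ≤ i := by exact_mod_cast hi
    have his : (i : ℝ) ≤ s := by exact_mod_cast (by omega : i ≤ s)
    have hk0 : (0 : ℝ) ≤ k := Nat.cast_nonneg k
    have hs0 : (0 : ℝ) ≤ s := Nat.cast_nonneg s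
    have hT : 0 < (s : ℝ) + k + 1 + i := by linarith
    have e0 : s + 1 - (i + 1) = s - i := by omega
    rw [e0]
    refine le_of_mul_le_mul_right ?_ hT
    calc ((s : ℝ) + k + 2 - (((i + 1 : ℕ) : ℝ) - 1) * (k + ((i + 1 : ℕ) : ℝ))) *
          ((s : ℝ) + k + 1 + i)
        ≤ ((s : ℝ) + k + 2 - (i - 1) * (k + i)) * ((s : ℝ) + 1 - i) := by
          have e : ((s : ℝ) + k + 2 - (i - 1) * (k + i)) * ((s : ℝ) + 1 - i) -
              ((s : ℝ) + k + 2 - (((i + 1 : ℕ) : ℝ) - 1) * (k + ((i + 1 : ℕ) : ℝ))) *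
              ((s : ℝ) + k + 1 + i) = (k + 2 * i) * ((i - 1) * (k + i + 1)) := by
            push_cast
            ring
          have e' : 0 ≤ ((k : ℝ) + 2 * i) * ((i - 1) * (k + i + 1)) :=
            mul_nonneg (by linarith) (mul_nonneg (by linarith) (by linarith))
          linarith
      _ ≤ R n s (s + 1 - i) * ((s : ℝ) + k + 2) * ((s : ℝ) + 1 - i) :=
          mul_le_mul_of_nonneg_right ih (by linarith)
      _ = R n s (s + 1 - i) * ((s : ℝ) + 1 - i) * ((s : ℝ) + k + 2) := by ring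
      _ = R n s (s - i) * ((s : ℝ) + k + 1 + i) * ((s : ℝ) + k + 2) := by rw [hy]
      _ = R n s (s - i) * ((s : ℝ) + k + 2) * ((s : ℝ) + k + 1 + i) := by ring

private theorem r_NumA (hn : n = 2 * s + 1 + k) :
    R n s (s + 1) = ((s : ℝ) + k + 1) / ((s : ℝ) + 1) := by
  have h := up_NumA hn 0 (Nat.zero_le k)
  simp only [Nat.cast_zero, add_zero, sub_zero] at h
  rw [self_NumA hn, one_mul] at h
  rw [eq_div_iff (by positivity), h]

private theorem ge_NumA (hn : n = 2 * s + 1 + k) (i : ℕ) (hi : i ≤ k + 1) :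
    1 ≤ R n s (s + i) := by
  have key : ∀ i : ℕ, 2 * i ≤ k + 1 → n.choose s ≤ n.choose (s + i) := by
    intro i hi
    induction i with
    | zero => simp
    | succ i ih =>
      refine le_trans (ih (by omega)) ?_
      rw [← Nat.add_assoc]
      exact Nat.choose_le_succ_of_lt_half_left (by omega)
  have h : n.choose s ≤ n.choose (s + i) := by
    rcases Nat.le_total (2 * i) (k + 1) with h | h
    · exact key i h
    · have h1 := key (k + 1 - i) (by omega)
      have h2 : n.choose (s + i) = n.choose (s + (k + 1 - i)) := by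
        rw [← Nat.choose_symm (by omega : s + i ≤ n)]
        congr 1
        omega
      rw [h2]
      exact h1
  unfold R
  rw [one_le_div (by exact_mod_cast Nat.choose_pos (by omega : s ≤ n))]
  exact_mod_cast h

private theorem incA_NumA (hn : n = 2 * s + 1 + k) (hs : k ^ 2 + 4 * k + 20 ≤ s) (i : ℕ)
    (hi : 1 ≤ i) (hik : 2 * i ≤ k) :
    0 ≤ R n s (s + 1 - i) * (k + 2 * i) / ((s : ℝ) + k + 1 + i) -
      R n s (s + i) * (k - 2 * i) / ((s : ℝ) + i + 1) -
      2 * (((s : ℝ) + k + 1) / ((s : ℝ) + 1)) / ((s : ℝ) + k + 2 - i) := by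
  have hx := xb_NumA hn hs i (by omega)
  have hy := yb_NumA hn hs i hi (by omega)
  have hs' := real_NumA hs
  have hi1 : (1 : ℝ) ≤ i := by exact_mod_cast hi
  have hik' : 2 * (i : ℝ) ≤ k := by exact_mod_cast hik
  have hk0 : (0 : ℝ) ≤ k := Nat.cast_nonneg k
  have hs0 : (0 : ℝ) ≤ s := Nat.cast_nonneg s
  have hpoly := polyA_NumA ((i : ℝ) - 1) ((k : ℝ) - 2 * i) ((s : ℝ) - (k ^ 2 + 4 * k + 20))
    i k s (by linarith) (by linarith) (by linarith) (by ring) (by ring) (by ring)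
  have d1 : 0 < (s : ℝ) + k + 2 := by linarith
  have d2 : 0 < (s : ℝ) + k + 1 + i := by linarith
  have d3 : 0 < (s : ℝ) + k + 2 - i := by linarith
  have d4 : 0 < (s : ℝ) + i + 1 := by linarith
  have d5 : 0 < (s : ℝ) + 1 := by linarith
  have d6 : 0 < (s : ℝ) + k + 2 - i - i * (k + 1 - i) := by nlinarith
  have hx' : R n s (s + i) ≤
      ((s : ℝ) + k + 2 - i) / ((s : ℝ) + k + 2 - i - i * (k + 1 - i)) := by
    rw [le_div_iff₀ d6]
    exact hx
  have hy' : ((s : ℝ) + k + 2 - (i - 1) * (k + i)) / ((s : ℝ) + k + 2) ≤ R n s (s + 1 - i) := by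
    rw [div_le_iff₀ d1]
    exact hy
  have f1 : ((s : ℝ) + k + 2 - (i - 1) * (k + i)) / ((s : ℝ) + k + 2) * (k + 2 * i) /
      ((s : ℝ) + k + 1 + i) ≤ R n s (s + 1 - i) * (k + 2 * i) / ((s : ℝ) + k + 1 + i) :=
    div_le_div_of_nonneg_right (mul_le_mul_of_nonneg_right hy' (by linarith)) d2.le
  have f2 : R n s (s + i) * (k - 2 * i) / ((s : ℝ) + i + 1) ≤
      ((s : ℝ) + k + 2 - i) / ((s : ℝ) + k + 2 - i - i * (k + 1 - i)) * (k - 2 * i) /
      ((s : ℝ) + i + 1) :=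
    div_le_div_of_nonneg_right (mul_le_mul_of_nonneg_right hx' (by linarith)) d4.le
  have f3 : ((s : ℝ) + k + 2 - (i - 1) * (k + i)) / ((s : ℝ) + k + 2) * (k + 2 * i) /
      ((s : ℝ) + k + 1 + i) -
      ((s : ℝ) + k + 2 - i) / ((s : ℝ) + k + 2 - i - i * (k + 1 - i)) * (k - 2 * i) /
      ((s : ℝ) + i + 1) -
      2 * (((s : ℝ) + k + 1) / ((s : ℝ) + 1)) / ((s : ℝ) + k + 2 - i) =
      (((s : ℝ) + k + 2 - (i - 1) * (k + i)) * (k + 2 * i) * (s + i + 1) *
        (s + k + 2 - i - i * (k + 1 - i)) * (s + 1) * (s + k + 2 - i) -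
      (k - 2 * i) * (s + k + 2 - i) * (s + k + 2) * (s + k + 1 + i) * (s + 1) * (s + k + 2 - i) -
      2 * (s + k + 1) * (s + k + 2) * (s + k + 1 + i) * (s + i + 1) *
        (s + k + 2 - i - i * (k + 1 - i))) /
      (((s : ℝ) + k + 2) * (s + k + 1 + i) * (s + i + 1) *
        (s + k + 2 - i - i * (k + 1 - i)) * (s + 1) * (s + k + 2 - i)) := by
    have g1 := d1.ne'
    have g2 := d2.ne'
    have g3 := d3.ne'
    have g4 := d4.ne'
    have g5 := d5.ne'
    have g6 := d6.ne'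
    generalize (s : ℝ) + k + 2 - i - i * (k + 1 - i) = D6 at *
    field_simp
  have f4 := div_nonneg hpoly (by positivity : 0 ≤ (((s : ℝ) + k + 2) * (s + k + 1 + i) *
    (s + i + 1) * (s + k + 2 - i - i * (k + 1 - i)) * (s + 1) * (s + k + 2 - i)))
  rw [← f3] at f4
  linarith

private theorem incBC_NumA (hn : n = 2 * s + 1 + k) (hs : k ^ 2 + 4 * k + 20 ≤ s) (i : ℕ)
    (hi : 1 ≤ i) (hik : i ≤ k) (m : ℝ) (hm : 2 * (i : ℝ) = k + m) (hm0 : 0 ≤ m)
    (hpoly : 0 ≤ ((s : ℝ) + k + 2 - (i - 1) * (k + i)) * (k + 2 * i) * (s + i + 1) * (s + 1) *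
        (s + k + 2 - i) +
      m * (s + k + 2) * (s + k + 1 + i) * (s + 1) * (s + k + 2 - i) -
      2 * (s + k + 1) * (s + k + 2) * (s + k + 1 + i) * (s + i + 1)) :
    0 ≤ R n s (s + 1 - i) * (k + 2 * i) / ((s : ℝ) + k + 1 + i) -
      R n s (s + i) * (k - 2 * i) / ((s : ℝ) + i + 1) -
      2 * (((s : ℝ) + k + 1) / ((s : ℝ) + 1)) / ((s : ℝ) + k + 2 - i) := by
  have hx := ge_NumA hn i (by omega)
  have hy := yb_NumA hn hs i hi (by omega)
  have hi1 : (1 : ℝ) ≤ i := by exact_mod_cast hi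
  have hik' : (i : ℝ) ≤ k := by exact_mod_cast hik
  have hk0 : (0 : ℝ) ≤ k := Nat.cast_nonneg k
  have hs0 : (0 : ℝ) ≤ s := Nat.cast_nonneg s
  have d1 : 0 < (s : ℝ) + k + 2 := by linarith
  have d2 : 0 < (s : ℝ) + k + 1 + i := by linarith
  have d3 : 0 < (s : ℝ) + k + 2 - i := by linarith
  have d4 : 0 < (s : ℝ) + i + 1 := by linarith
  have d5 : 0 < (s : ℝ) + 1 := by linarith
  have hy' : ((s : ℝ) + k + 2 - (i - 1) * (k + i)) / ((s : ℝ) + k + 2) ≤ R n s (s + 1 - i) := by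
    rw [div_le_iff₀ d1]
    exact hy
  have f1 : ((s : ℝ) + k + 2 - (i - 1) * (k + i)) / ((s : ℝ) + k + 2) * (k + 2 * i) /
      ((s : ℝ) + k + 1 + i) ≤ R n s (s + 1 - i) * (k + 2 * i) / ((s : ℝ) + k + 1 + i) :=
    div_le_div_of_nonneg_right (mul_le_mul_of_nonneg_right hy' (by linarith)) d2.le
  have f2 : m / ((s : ℝ) + i + 1) ≤ - (R n s (s + i) * (k - 2 * i) / ((s : ℝ) + i + 1)) := by
    have e : - (R n s (s + i) * (k - 2 * i) / ((s : ℝ) + i + 1)) =
        R n s (s + i) * m / ((s : ℝ) + i + 1) := by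
      rw [show (k : ℝ) - 2 * i = - m by linarith]
      ring
    rw [e]
    refine div_le_div_of_nonneg_right ?_ d4.le
    nlinarith
  have f3 : ((s : ℝ) + k + 2 - (i - 1) * (k + i)) / ((s : ℝ) + k + 2) * (k + 2 * i) /
      ((s : ℝ) + k + 1 + i) + m / ((s : ℝ) + i + 1) -
      2 * (((s : ℝ) + k + 1) / ((s : ℝ) + 1)) / ((s : ℝ) + k + 2 - i) =
      (((s : ℝ) + k + 2 - (i - 1) * (k + i)) * (k + 2 * i) * (s + i + 1) * (s + 1) *
        (s + k + 2 - i) +
      m * (s + k + 2) * (s + k + 1 + i) * (s + 1) * (s + k + 2 - i) -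
      2 * (s + k + 1) * (s + k + 2) * (s + k + 1 + i) * (s + i + 1)) /
      (((s : ℝ) + k + 2) * (s + k + 1 + i) * (s + i + 1) * (s + 1) * (s + k + 2 - i)) := by
    have g1 := d1.ne'
    have g2 := d2.ne'
    have g3 := d3.ne'
    have g4 := d4.ne'
    have g5 := d5.ne'
    field_simp
  have f4 := div_nonneg hpoly (by positivity : 0 ≤ (((s : ℝ) + k + 2) * (s + k + 1 + i) *
    (s + i + 1) * (s + 1) * (s + k + 2 - i)))
  rw [← f3] at f4
  linarith

private theorem incD_NumA (hn : n = 2 * s + 1 + k) (hs : k ^ 2 + 4 * k + 20 ≤ s) (i : ℕ)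
    (hi : 1 ≤ i) (hik : i ≤ k) (hik2 : k + 3 ≤ 2 * i) :
    0 ≤ R n s (s + 1 - i) * (k + 2 * i) / ((s : ℝ) + k + 1 + i) -
      R n s (s + i) * (k - 2 * i) / ((s : ℝ) + i + 1) -
      2 * (((s : ℝ) + k + 1) / ((s : ℝ) + 1)) / ((s : ℝ) + k + 2 - i) := by
  have hx := ge_NumA hn i (by omega)
  have hy := nonneg_NumA n s (s + 1 - i)
  have hs' := real_NumA hs
  have hi1 : (1 : ℝ) ≤ i := by exact_mod_cast hi
  have hik' : (i : ℝ) ≤ k := by exact_mod_cast hik
  have hik2' : (k : ℝ) + 3 ≤ 2 * i := by exact_mod_cast hik2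
  have hk0 : (0 : ℝ) ≤ k := Nat.cast_nonneg k
  have hs0 : (0 : ℝ) ≤ s := Nat.cast_nonneg s
  have d2 : 0 < (s : ℝ) + k + 1 + i := by linarith
  have d3 : 0 < (s : ℝ) + k + 2 - i := by linarith
  have d4 : 0 < (s : ℝ) + i + 1 := by linarith
  have d5 : 0 < (s : ℝ) + 1 := by linarith
  have f1 : 0 ≤ R n s (s + 1 - i) * (k + 2 * i) / ((s : ℝ) + k + 1 + i) := by positivity
  have f2 : 3 / ((s : ℝ) + i + 1) ≤ - (R n s (s + i) * (k - 2 * i) / ((s : ℝ) + i + 1)) := by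
    have e : - (R n s (s + i) * (k - 2 * i) / ((s : ℝ) + i + 1)) =
        R n s (s + i) * (2 * i - k) / ((s : ℝ) + i + 1) := by
      ring
    rw [e]
    refine div_le_div_of_nonneg_right ?_ d4.le
    nlinarith
  have f3 : 2 * (((s : ℝ) + k + 1) / ((s : ℝ) + 1)) / ((s : ℝ) + k + 2 - i) ≤
      3 / ((s : ℝ) + i + 1) := by
    have e : 2 * (((s : ℝ) + k + 1) / ((s : ℝ) + 1)) / ((s : ℝ) + k + 2 - i) =
        2 * ((s : ℝ) + k + 1) / (((s : ℝ) + 1) * ((s : ℝ) + k + 2 - i)) := by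
      rw [← mul_div_assoc, div_div]
    rw [e, div_le_div_iff₀ (mul_pos d5 d3) d4]
    have h1 : 2 * ((s : ℝ) + k + 1) * (s + i + 1) ≤ 2 * ((s : ℝ) + k + 1) * (s + k + 1) :=
      mul_le_mul_of_nonneg_left (by linarith) (by linarith)
    have h2 : ((s : ℝ) + 1) * (s + 2) ≤ (s + 1) * ((s : ℝ) + k + 2 - i) :=
      mul_le_mul_of_nonneg_left (by linarith) (by linarith)
    nlinarith
  linarith

private theorem inc_NumA (hn : n = 2 * s + 1 + k) (hs : k ^ 2 + 4 * k + 20 ≤ s) (i : ℕ)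
    (hi : 1 ≤ i) (hik : i ≤ k) :
    0 ≤ R n s (s + 1 - i) * (k + 2 * i) / ((s : ℝ) + k + 1 + i) -
      R n s (s + i) * (k - 2 * i) / ((s : ℝ) + i + 1) -
      2 * (((s : ℝ) + k + 1) / ((s : ℝ) + 1)) / ((s : ℝ) + k + 2 - i) := by
  have hs' := real_NumA hs
  have hi1 : (1 : ℝ) ≤ i := by exact_mod_cast hi
  rcases Nat.lt_or_ge k (2 * i) with h | h
  · rcases Nat.lt_or_ge (k + 1) (2 * i) with h1 | h1
    · rcases Nat.lt_or_ge (k + 2) (2 * i) with h2 | h2
      · exact incD_NumA hn hs i hi hik (by omega)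
      · have h3 : 2 * i = k + 2 := by omega
        have h4 : 2 * (i : ℝ) = k + 2 := by exact_mod_cast h3
        have h5 : (2 : ℝ) ≤ i := by exact_mod_cast (by omega : 2 ≤ i)
        exact incBC_NumA hn hs i hi hik 2 h4 (by norm_num)
          (polyC_NumA ((i : ℝ) - 2) ((s : ℝ) - (k ^ 2 + 4 * k + 20)) i k s (by linarith)
            (by linarith) (by ring) (by linarith) (by ring))
    · have h3 : 2 * i = k + 1 := by omega
      have h4 : 2 * (i : ℝ) = k + 1 := by exact_mod_cast h3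
      exact incBC_NumA hn hs i hi hik 1 h4 (by norm_num)
        (polyB_NumA ((i : ℝ) - 1) ((s : ℝ) - (k ^ 2 + 4 * k + 20)) i k s (by linarith)
          (by linarith) (by ring) (by linarith) (by ring))
  · exact incA_NumA hn hs i hi h

private theorem wt_NumA (hn : n = 2 * s + 1 + k) (i : ℕ) (hi : 1 ≤ i) (hik : i ≤ k) :
    Wt n s (s + 1) (s + (i + 1)) = Wt n s (s + 1) (s + i) + 1 / ((s : ℝ) + k + 2 - i) := by
  unfold Wt
  rw [Nat.min_eq_left (by omega : s + (i + 1) ≤ n - s), Nat.min_eq_left (by omega : s + i ≤ n - s),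
    ← Nat.add_assoc, Finset.sum_Ico_succ_top (by omega : s + 1 ≤ s + i)]
  congr 2
  rw [hn]
  push_cast
  ring

private theorem delta_NumA (hn : n = 2 * s + 1 + k) (hs : k ^ 2 + 4 * k + 20 ≤ s) (i : ℕ)
    (hi : 1 ≤ i) (hik : i ≤ k + 1) :
    R n s (s + i) + R n s (s + 1 - i) + 2 * R n s (s + 1) * Wt n s (s + 1) (s + i) ≤
      1 + R n s (s + 1) := by
  induction i, hi using Nat.le_induction with
  | base =>
    have h : Wt n s (s + 1) (s + 1) = 0 := by
      unfold Wt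
      rw [Nat.min_eq_left (by omega : s + 1 ≤ n - s), Finset.Ico_self, Finset.sum_empty]
    rw [h, Nat.add_sub_cancel, self_NumA hn]
    linarith
  | succ i hi ih =>
    have ih := ih (by omega)
    have hinc := inc_NumA hn hs i hi (by omega)
    have hks : k ≤ s := by nlinarith
    have hx := up_NumA hn i (by omega)
    have hy := down_NumA hn i (by omega)
    have hi1 : (1 : ℝ) ≤ i := by exact_mod_cast hi
    have hik' : (i : ℝ) ≤ k := by exact_mod_cast (by omega : i ≤ k)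
    have hk0 : (0 : ℝ) ≤ k := Nat.cast_nonneg k
    have hs0 : (0 : ℝ) ≤ s := Nat.cast_nonneg s
    have d2 : 0 < (s : ℝ) + k + 1 + i := by linarith
    have d4 : 0 < (s : ℝ) + i + 1 := by linarith
    have e0 : s + 1 - (i + 1) = s - i := by omega
    have e1 : R n s (s + (i + 1)) = R n s (s + i) +
        R n s (s + i) * (k - 2 * i) / ((s : ℝ) + i + 1) := by
      rw [← Nat.add_assoc, eq_comm, ← mul_left_inj' d4.ne', hx, add_mul, div_mul_cancel₀ _ d4.ne']
      ring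
    have e2 : R n s (s - i) = R n s (s + 1 - i) -
        R n s (s + 1 - i) * (k + 2 * i) / ((s : ℝ) + k + 1 + i) := by
      rw [eq_comm, ← mul_left_inj' d2.ne', hy, sub_mul, div_mul_cancel₀ _ d2.ne']
      ring
    rw [e0, wt_NumA hn i hi (by omega), e1, e2]
    rw [← r_NumA hn] at hinc
    have e3 : 2 * R n s (s + 1) * (Wt n s (s + 1) (s + i) + 1 / ((s : ℝ) + k + 2 - i)) =
        2 * R n s (s + 1) * Wt n s (s + 1) (s + i) +
        2 * R n s (s + 1) / ((s : ℝ) + k + 2 - i) := by ring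
    rw [e3]
    linarith

theorem num_mid2 (hn : n = 2 * s + 1 + k) (hk : 1 ≤ k) (hs : k ^ 2 + 4 * k + 20 ≤ s) (a : ℕ)
    (ha : s + 2 ≤ a) (ha2 : a ≤ n - s) :
    R n s a - R n s (s + 1) * (1 - 2 * Wt n s (s + 1) a) ≤ 1 - R n s (2 * s + 1 - a) := by
  obtain ⟨i, rfl⟩ : ∃ i, a = s + i := ⟨a - s, by omega⟩
  have h := delta_NumA hn hs i (by omega) (by omega)
  have e : 2 * s + 1 - (s + i) = s + 1 - i := by omega
  rw [e]
  linarith

end Pool.Agent.TPP
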