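import Pool.Agent.TPP.Defs

/-! # MP_f155e9_co, TPP: numerics, part B -/

set_option autoImplicit false

namespace Pool.Agent.TPP

variable {n s k : ℕ}

private theorem choose_s_pos_B (hn : n = 2 * s + 1 + k) : (0 : ℝ) < (n.choose s : ℝ) := by
  exact_mod_cast Nat.choose_pos (by omega)

private theorem R_self_B (hn : n = 2 * s + 1 + k) : R n s s = 1 := by
  rw [R, div_self (choose_s_pos_B hn).ne']

private theorem R_nonneg_B (m : ℕ) : 0 ≤ R n s m := by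
  rw [R]; positivity

private theorem R_step_B (hn : n = 2 * s + 1 + k) {i : ℕ} (hi : i ≤ k) :
    R n s (s + (i + 1)) * ((s : ℝ) + 1 + i) = R n s (s + i) * ((s : ℝ) + 1 + k - i) := by
  have h1 : n.choose (s + i + 1) * (s + i + 1) = n.choose (s + i) * (n - (s + i)) :=
    Nat.choose_succ_right_eq n (s + i)
  have h2 : n - (s + i) = s + 1 + (k - i) := by omega
  rw [h2] at h1
  have h3 : ((n.choose (s + i + 1) : ℕ) : ℝ) * ((s : ℝ) + i + 1) =
      ((n.choose (s + i) : ℕ) : ℝ) * ((s : ℝ) + 1 + ((k : ℝ) - i)) := by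
    rw [← Nat.cast_sub hi]
    exact_mod_cast h1
  have h4 : s + (i + 1) = s + i + 1 := by omega
  rw [R, R, h4, div_mul_eq_mul_div, div_mul_eq_mul_div]
  congr 1
  linarith

/-- the product formula, for the first half -/
private theorem R_half_B (hn : n = 2 * s + 1 + k) (i : ℕ) (hi : 2 * i ≤ k + 1) :
    R n s (s + i) * ((s : ℝ) + 1 - i * (k + 1 - i)) ≤ (s : ℝ) + 1 := by
  induction i with
  | zero =>
    rw [Nat.add_zero, R_self_B hn]
    push_cast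
    linarith
  | succ i ih =>
    have ih' := ih (by omega)
    have h1 := R_step_B (s := s) hn (i := i) (by omega)
    have h2 : (0 : ℝ) < (s : ℝ) + 1 + i := by positivity
    have he : (0 : ℝ) ≤ (k : ℝ) - 2 * i := by
      have : ((2 * i : ℕ) : ℝ) ≤ (k : ℝ) := by exact_mod_cast (by omega : 2 * i ≤ k)
      push_cast at this
      linarith
    have hi0 : (0 : ℝ) ≤ (i : ℝ) := Nat.cast_nonneg i
    have h0 := R_nonneg_B (n := n) (s := s) (s + i)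
    refine le_trans ?_ ih'
    rw [← mul_le_mul_iff_of_pos_right h2]
    have h3 : R n s (s + (i + 1)) *
        ((s : ℝ) + 1 - ((i + 1 : ℕ) : ℝ) * (k + 1 - ((i + 1 : ℕ) : ℝ))) * ((s : ℝ) + 1 + i) =
        R n s (s + i) * (((s : ℝ) + 1 + k - i) *
          ((s : ℝ) + 1 - ((i : ℝ) + 1) * (k + 1 - ((i : ℝ) + 1)))) := by
      push_cast
      rw [mul_right_comm, h1]
      ring
    rw [h3, mul_assoc]
    refine mul_le_mul_of_nonneg_left ?_ h0
    have h4 : (0 : ℝ) ≤ ((k : ℝ) - 2 * i) * (i + i * (k + 1 - i) + (k - 2 * i)) := by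
      refine mul_nonneg he ?_
      have : (0 : ℝ) ≤ (i : ℝ) * (k + 1 - i) := mul_nonneg hi0 (by linarith)
      linarith
    nlinarith [h4]

private theorem k_bounds_B (hs : k ^ 2 + 4 * k + 20 ≤ s) :
    ((k : ℝ) + 1) ^ 2 ≤ (s : ℝ) + 1 ∧ 13 * (k : ℝ) ≤ (s : ℝ) + 1 ∧
      8 * ((k : ℝ) + 2) ≤ (s : ℝ) + 1 := by
  have h : ((k ^ 2 + 4 * k + 20 : ℕ) : ℝ) ≤ (s : ℝ) := by exact_mod_cast hs
  push_cast at h
  have hk0 : (0 : ℝ) ≤ (k : ℝ) := Nat.cast_nonneg k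
  refine ⟨by nlinarith, ?_, ?_⟩
  · nlinarith [sq_nonneg ((k : ℝ) - 9 / 2)]
  · nlinarith [sq_nonneg ((k : ℝ) - 2)]

private theorem R_le_half_B (hn : n = 2 * s + 1 + k) (hs : k ^ 2 + 4 * k + 20 ≤ s) (i : ℕ)
    (hi : 2 * i ≤ k + 1) : R n s (s + i) ≤ 4 / 3 := by
  have h1 := R_half_B hn i hi
  obtain ⟨h2, -, -⟩ := k_bounds_B hs
  have h0 := R_nonneg_B (n := n) (s := s) (s + i)
  have h3 : (i : ℝ) * (k + 1 - i) ≤ ((s : ℝ) + 1) / 4 := by
    nlinarith [sq_nonneg ((k : ℝ) + 1 - 2 * i)]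
  have hS : (0 : ℝ) < (s : ℝ) + 1 := by positivity
  have h4 : R n s (s + i) * (3 / 4 * ((s : ℝ) + 1)) ≤ (s : ℝ) + 1 :=
    le_trans (mul_le_mul_of_nonneg_left (by linarith) h0) h1
  have h5 : (R n s (s + i) * (3 / 4)) * ((s : ℝ) + 1) ≤ 1 * ((s : ℝ) + 1) := by linarith
  have h6 := le_of_mul_le_mul_right h5 hS
  linarith

private theorem R_le_B (hn : n = 2 * s + 1 + k) (hs : k ^ 2 + 4 * k + 20 ≤ s) {a : ℕ}
    (h1 : s ≤ a) (h2 : a ≤ n - s) : R n s a ≤ 4 / 3 := by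
  obtain ⟨i, rfl⟩ := Nat.exists_eq_add_of_le h1
  by_cases hi : 2 * i ≤ k + 1
  · exact R_le_half_B hn hs i hi
  · have h3 : R n s (s + i) = R n s (s + (k + 1 - i)) := by
      rw [R, R, Nat.choose_symm_of_eq_add (by omega : n = (s + i) + (s + (k + 1 - i)))]
    rw [h3]
    exact R_le_half_B hn hs _ (by omega)

private theorem r_eq_B (hn : n = 2 * s + 1 + k) :
    R n s (s + 1) = 1 + (k : ℝ) / ((s : ℝ) + 1) := by
  have h1 := R_step_B (s := s) hn (i := 0) (by omega)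
  rw [Nat.zero_add, show s + 0 = s from rfl, R_self_B hn] at h1
  push_cast at h1
  have hS : (0 : ℝ) < (s : ℝ) + 1 := by positivity
  field_simp
  linarith

private theorem Wt_le_B (hn : n = 2 * s + 1 + k) (a : ℕ) :
    Wt n s (s + 1) a ≤ (k : ℝ) / ((s : ℝ) + 1) := by
  have h1 : Wt n s (s + 1) a ≤ (Finset.Ico (s + 1) (min a (n - s))).card • (1 / ((s : ℝ) + 1)) := by
    rw [Wt]
    refine Finset.sum_le_card_nsmul _ _ _ fun j hj => ?_
    rw [Finset.mem_Ico] at hj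
    have h2 : j + s + 1 ≤ n := by omega
    have h3 : ((j : ℝ) + s + 1) ≤ (n : ℝ) := by exact_mod_cast h2
    exact one_div_le_one_div_of_le (by positivity) (by linarith)
  refine h1.trans ?_
  rw [Nat.card_Ico, nsmul_eq_mul, mul_one_div]
  refine div_le_div_of_nonneg_right ?_ (by positivity)
  exact_mod_cast (by omega : min a (n - s) - (s + 1) ≤ k)

private theorem Wt_nonneg_B (hn : n = 2 * s + 1 + k) (a : ℕ) : 0 ≤ Wt n s (s + 1) a := by
  rw [Wt]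
  refine Finset.sum_nonneg fun j hj => ?_
  rw [Finset.mem_Ico] at hj
  have h2 : j + s + 1 ≤ n := by omega
  have h3 : ((j : ℝ) + s + 1) ≤ (n : ℝ) := by exact_mod_cast h2
  have h4 : (0 : ℝ) ≤ (s : ℝ) := Nat.cast_nonneg s
  exact div_nonneg zero_le_one (by linarith)

private theorem u_le_B (hs : k ^ 2 + 4 * k + 20 ≤ s) : (k : ℝ) / ((s : ℝ) + 1) ≤ 1 / 13 := by
  obtain ⟨-, h, -⟩ := k_bounds_B hs
  rw [div_le_div_iff₀ (by positivity) (by norm_num)]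
  linarith

private theorem main_B (hn : n = 2 * s + 1 + k) (hs : k ^ 2 + 4 * k + 20 ≤ s) (a : ℕ)
    (ha : s + 2 ≤ a) (ha2 : a ≤ n - s) :
    R n s a - R n s (s + 1) * (1 - 2 * Wt n s (s + 1) a) ≤
      1 / 3 + (k : ℝ) / ((s : ℝ) + 1) + 2 * ((k : ℝ) / ((s : ℝ) + 1)) ^ 2 := by
  have h1 := R_le_B hn hs (by omega) ha2
  have h2 := Wt_le_B hn a
  have h3 := Wt_nonneg_B hn a
  rw [r_eq_B hn]
  have hu : (0 : ℝ) ≤ (k : ℝ) / ((s : ℝ) + 1) := by positivity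
  nlinarith [mul_le_mul_of_nonneg_left h2 hu]

private theorem bp_le_B (hs : k ^ 2 + 4 * k + 20 ≤ s) : bp s k ≤ 2 / 13 := by
  have hu := u_le_B hs
  obtain ⟨-, -, h8⟩ := k_bounds_B hs
  have hS : (0 : ℝ) < (s : ℝ) + 1 := by positivity
  have hk0 : (0 : ℝ) ≤ (k : ℝ) := Nat.cast_nonneg k
  have h1 : (k : ℝ) / ((s : ℝ) + k + 1) ≤ (k : ℝ) / ((s : ℝ) + 1) :=
    div_le_div_of_nonneg_left hk0 hS (by linarith)
  have h2 : 2 / ((s : ℝ) + 2) ≤ 2 / ((s : ℝ) + 1) :=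
    div_le_div_of_nonneg_left (by norm_num) hS (by linarith)
  have h3 : (k : ℝ) / ((s : ℝ) + 1) + 2 / ((s : ℝ) + 1) ≤ 1 / 8 := by
    rw [← add_div, div_le_div_iff₀ hS (by norm_num)]
    linarith
  rw [bp]
  refine max_le (by linarith) (by linarith)

private theorem c0_B (hn : n = 2 * s + 1 + k) (hs : k ^ 2 + 4 * k + 20 ≤ s) :
    7 / 13 ≤ 1 - 2 * Wt n s (s + 1) (n - s) - 2 * bp s k := by
  have h1 := Wt_le_B hn (n - s)
  have h2 := bp_le_B hs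
  have h3 := u_le_B hs
  linarith

theorem num_mid3 (hn : n = 2 * s + 1 + k) (hk : 1 ≤ k) (hs : k ^ 2 + 4 * k + 20 ≤ s) (a : ℕ)
    (ha : s + 2 ≤ a) (ha2 : a ≤ n - s) :
    R n s a - R n s (s + 1) * (1 - 2 * Wt n s (s + 1) a) ≤ 1 / 2 := by
  have h1 := main_B hn hs a ha ha2
  have h2 := u_le_B hs
  have hu : (0 : ℝ) ≤ (k : ℝ) / ((s : ℝ) + 1) := by positivity
  nlinarith

theorem num_mid4 (hn : n = 2 * s + 1 + k) (hk : 1 ≤ k) (hs : k ^ 2 + 4 * k + 20 ≤ s) (a : ℕ)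
    (ha : s + 2 ≤ a) (ha2 : a ≤ s + k) :
    max 0 (R n s a - R n s (s + 1) * (1 - 2 * Wt n s (s + 1) a)) ≤
      R n s (s + 1) * ((1 - 2 * ((k : ℝ) / ((s : ℝ) + k + 1))) / 2) := by
  have h1 := main_B hn hs a ha (by omega)
  have h2 := u_le_B hs
  have hu : (0 : ℝ) ≤ (k : ℝ) / ((s : ℝ) + 1) := by positivity
  have hS : (0 : ℝ) < (s : ℝ) + 1 := by positivity
  have hT : (0 : ℝ) < (s : ℝ) + k + 1 := by positivity
  have h3 : R n s (s + 1) * ((1 - 2 * ((k : ℝ) / ((s : ℝ) + k + 1))) / 2) =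
      1 / 2 - (k : ℝ) / ((s : ℝ) + 1) / 2 := by
    rw [r_eq_B hn]
    field_simp
    ring
  rw [h3]
  refine max_le (by linarith) (h1.trans ?_)
  nlinarith

theorem num_mid5 (hn : n = 2 * s + 1 + k) (hk : 1 ≤ k) (hs : k ^ 2 + 4 * k + 20 ≤ s) (a : ℕ)
    (ha : s + 2 ≤ a) (ha2 : a ≤ s + k) :
    max 0 (R n s a - R n s (s + 1) * (1 - 2 * Wt n s (s + 1) a)) ≤
      R n s (s + 1) * (1 - 2 * Wt n s (s + 1) (n - s) - 2 * bp s k) := by
  have h1 := main_B hn hs a ha (by omega)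
  have h2 := u_le_B hs
  have hu : (0 : ℝ) ≤ (k : ℝ) / ((s : ℝ) + 1) := by positivity
  have h3 := c0_B hn hs
  have h4 : 7 / 13 ≤ R n s (s + 1) * (1 - 2 * Wt n s (s + 1) (n - s) - 2 * bp s k) := by
    rw [r_eq_B hn]
    nlinarith
  refine max_le (by linarith) (h1.trans ?_)
  nlinarith

theorem num_c0 (hn : n = 2 * s + 1 + k) (hk : 1 ≤ k) (hs : k ^ 2 + 4 * k + 20 ≤ s) :
    0 ≤ 1 - 2 * Wt n s (s + 1) (n - s) - 2 * bp s k := by
  have h3 := c0_B hn hs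
  linarith

end Pool.Agent.TPP
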