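import Pool.Agent.TPP.Defs

/-! # MP_f155e9_co, TPP: numerics, part C -/

set_option autoImplicit false

namespace Pool.Agent.TPP

variable {n s k : ℕ}

private theorem wt_NumC (hn : n = 2 * s + 1 + k) (a : ℕ) (ha : n - s + 1 ≤ a) :
    Wt n s (s + 1) a = ∑ i ∈ Finset.range k, 1 / ((s : ℝ) + k + 1 - i) := by
  unfold Wt
  have h1 : min a (n - s) = s + 1 + k := by omega
  rw [h1, Finset.sum_Ico_eq_sum_range]
  have h2 : s + 1 + k - (s + 1) = k := by omega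
  rw [h2]
  refine Finset.sum_congr rfl (fun i _ => ?_)
  congr 1
  rw [hn]
  push_cast
  ring

private theorem sum_le_NumC (s k : ℕ) :
    2 * (∑ i ∈ Finset.range k, 1 / ((s : ℝ) + k + 1 - i)) ≤
      k * (1 / ((s : ℝ) + 2) + 1 / ((s : ℝ) + k + 1)) := by
  have h1 : (∑ i ∈ Finset.range k, 1 / ((s : ℝ) + k + 1 - ((k - 1 - i : ℕ) : ℝ))) =
      ∑ i ∈ Finset.range k, 1 / ((s : ℝ) + k + 1 - i) :=
    Finset.sum_range_reflect (fun i : ℕ => 1 / ((s : ℝ) + k + 1 - (i : ℝ))) k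
  have h2 : 2 * (∑ i ∈ Finset.range k, 1 / ((s : ℝ) + k + 1 - i)) =
      ∑ i ∈ Finset.range k, (1 / ((s : ℝ) + k + 1 - i) +
        1 / ((s : ℝ) + k + 1 - ((k - 1 - i : ℕ) : ℝ))) := by
    rw [Finset.sum_add_distrib, h1]
    ring
  rw [h2]
  have h3 : (k : ℝ) * (1 / ((s : ℝ) + 2) + 1 / ((s : ℝ) + k + 1)) =
      ∑ _i ∈ Finset.range k, (1 / ((s : ℝ) + 2) + 1 / ((s : ℝ) + k + 1)) := by
    rw [Finset.sum_const, Finset.card_range, nsmul_eq_mul]
  rw [h3]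
  refine Finset.sum_le_sum (fun i hi => ?_)
  have hik : i < k := Finset.mem_range.1 hi
  obtain ⟨j, hj⟩ : ∃ j, k = i + 1 + j := ⟨k - (i + 1), by omega⟩
  have h4 : k - 1 - i = j := by omega
  rw [h4]
  have hs0 : (0 : ℝ) ≤ s := Nat.cast_nonneg s
  have hi0 : (0 : ℝ) ≤ i := Nat.cast_nonneg i
  have hj0 : (0 : ℝ) ≤ j := Nat.cast_nonneg j
  have hk1 : (k : ℝ) = i + 1 + j := by rw [hj]; push_cast; ring
  have e1 : (s : ℝ) + k + 1 - i = s + 2 + j := by rw [hk1]; ring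
  have e2 : (s : ℝ) + k + 1 - j = s + 2 + i := by rw [hk1]; ring
  have e3 : (s : ℝ) + k + 1 = s + 2 + i + j := by rw [hk1]; ring
  rw [e1, e2, e3]
  have p1 : (0 : ℝ) < s + 2 := by linarith
  have p2 : (0 : ℝ) < s + 2 + j := by linarith
  have p3 : (0 : ℝ) < s + 2 + i := by linarith
  have p4 : (0 : ℝ) < s + 2 + i + j := by linarith
  rw [div_add_div _ _ p2.ne' p3.ne', div_add_div _ _ p1.ne' p4.ne',
    div_le_div_iff₀ (mul_pos p2 p3) (mul_pos p1 p4)]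
  have h5 : 0 ≤ (2 * (s : ℝ) + 4 + i + j) * (i * j) :=
    mul_nonneg (by linarith) (mul_nonneg hi0 hj0)
  nlinarith [h5]

private theorem R_succ_NumC (hn : n = 2 * s + 1 + k) :
    R n s (s + 1) = ((s : ℝ) + k + 1) / ((s : ℝ) + 1) := by
  unfold R
  have h1 : (n.choose (s + 1) : ℝ) * ((s : ℝ) + 1) = (n.choose s : ℝ) * ((s : ℝ) + k + 1) := by
    have h2 := Nat.choose_succ_right_eq n s
    have h3 : n - s = s + k + 1 := by omega
    rw [h3] at h2
    exact_mod_cast h2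
  have h4 : (0 : ℝ) < (n.choose s : ℝ) := by
    exact_mod_cast Nat.choose_pos (show s ≤ n by omega)
  have h5 : (0 : ℝ) < (s : ℝ) + 1 := by positivity
  rw [div_eq_div_iff h4.ne' h5.ne', h1]
  ring

private theorem choose_mono_NumC (n : ℕ) (m d : ℕ) (h : m + d ≤ n / 2) :
    n.choose m ≤ n.choose (m + d) := by
  induction d with
  | zero => exact le_rfl
  | succ d ih =>
    refine (ih (by omega)).trans ?_
    exact Nat.choose_le_succ_of_lt_half_left (show m + d < n / 2 by omega)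

private theorem R_hi_NumC (hn : n = 2 * s + 1 + k) (hs : 1 ≤ s) (a : ℕ)
    (ha : n - s + 1 ≤ a) (ha2 : a ≤ n) :
    R n s a ≤ (s : ℝ) / ((s : ℝ) + k + 2) := by
  unfold R
  obtain ⟨t, rfl⟩ : ∃ t, s = t + 1 := ⟨s - 1, by omega⟩
  have h1 : n.choose a ≤ n.choose t := by
    rw [← Nat.choose_symm ha2]
    have h2 : n - a + (t - (n - a)) = t := by omega
    have h3 := choose_mono_NumC n (n - a) (t - (n - a)) (by omega)
    rwa [h2] at h3
  have h4 : (n.choose (t + 1) : ℝ) * ((t : ℝ) + 1) = (n.choose t : ℝ) * ((t : ℝ) + k + 3) := by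
    have h2 := Nat.choose_succ_right_eq n t
    have h3 : n - t = t + k + 3 := by omega
    rw [h3] at h2
    exact_mod_cast h2
  have h5 : (0 : ℝ) < (n.choose (t + 1) : ℝ) := by
    exact_mod_cast Nat.choose_pos (show t + 1 ≤ n by omega)
  have h6 : (0 : ℝ) < ((t + 1 : ℕ) : ℝ) + k + 2 := by positivity
  have h7 : ((n.choose a : ℕ) : ℝ) ≤ (n.choose t : ℝ) := by exact_mod_cast h1
  rw [div_le_div_iff₀ h5 h6]
  have h8 : ((t + 1 : ℕ) : ℝ) = (t : ℝ) + 1 := by push_cast; ring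
  rw [h8]
  have h9 : (t : ℝ) + 1 + k + 2 = t + k + 3 := by ring
  rw [h9, mul_comm ((t : ℝ) + 1), h4]
  exact mul_le_mul_of_nonneg_right h7 (by positivity)

private theorem main_NumC (x y w : ℝ) (hx : 0 ≤ x) (hy : 1 ≤ y) (hs : y ^ 2 + 4 * y + 20 ≤ x)
    (hw : 2 * w ≤ y * (1 / (x + 2) + 1 / (x + y + 1))) :
    x / (x + y + 2) ≤ (x + y + 1) / (x + 1) * (1 - 2 * w) := by
  have p1 : 0 < x + 1 := by linarith
  have p2 : 0 < x + 2 := by linarith
  have p3 : 0 < x + y + 1 := by linarith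
  have p4 : 0 < x + y + 2 := by linarith
  have h1 : (x + y + 1) / (x + 1) * (1 - y * (1 / (x + 2) + 1 / (x + y + 1))) ≤
      (x + y + 1) / (x + 1) * (1 - 2 * w) :=
    mul_le_mul_of_nonneg_left (by linarith) (div_pos p3 p1).le
  refine le_trans ?_ h1
  have h2 : (x + y + 1) / (x + 1) * (1 - y * (1 / (x + 2) + 1 / (x + y + 1))) =
      ((x + 1) * (x + 2) - y * (x + y + 1)) / ((x + 1) * (x + 2)) := by
    field_simp
    ring
  rw [h2, div_le_div_iff₀ p4 (mul_pos p1 p2)]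
  have h3 : 0 ≤ x * (x - y ^ 2 - 4 * y - 20) := mul_nonneg hx (by linarith)
  have h4 : 0 ≤ (x - y ^ 2 - 4 * y - 20) * y := mul_nonneg (by linarith) (by linarith)
  have h5 : 0 ≤ (y - 1) * y := mul_nonneg (by linarith) (by linarith)
  have h6 : 0 ≤ (y - 1) * y ^ 2 := mul_nonneg (by linarith) (sq_nonneg y)
  nlinarith [h3, h4, h5, h6]

theorem num_hi (hn : n = 2 * s + 1 + k) (hk : 1 ≤ k) (hs : k ^ 2 + 4 * k + 20 ≤ s) (a : ℕ)
    (ha : n - s + 1 ≤ a) (ha2 : a ≤ n) :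
    R n s a ≤ R n s (s + 1) * (1 - 2 * Wt n s (s + 1) a) := by
  refine (R_hi_NumC hn (by omega) a ha ha2).trans ?_
  rw [R_succ_NumC hn]
  refine main_NumC (s : ℝ) (k : ℝ) _ (Nat.cast_nonneg s) (by exact_mod_cast hk)
    (by exact_mod_cast hs) ?_
  rw [wt_NumC hn a ha]
  exact sum_le_NumC s k

end Pool.Agent.TPP
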