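import Pool.Agent.TPP.Asm
import Pool.Agent.TPP.NumA
import Pool.Agent.TPP.NumB
import Pool.Agent.TPP.NumC
import Pool.Agent.OFK.Norm

/-! # MP_f155e9_co, odd half for `k ^ 2 ≤ c n` -/

set_option autoImplicit false

namespace Pool.Agent.TPP

open Finset

/-- binomial coefficients increase up to the middle -/
private theorem choose_mono_half {n s : ℕ} (hs : 2 * s ≤ n) {m : ℕ} (hm : m ≤ s) :
    n.choose m ≤ n.choose s := by
  induction s, hm using Nat.le_induction with
  | base => exact le_refl _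
  | succ t ht ih =>
    exact (ih (by omega)).trans (Nat.choose_le_succ_of_lt_half_left (by omega))

private theorem R_le_one {n s m : ℕ} (hs : 2 * s ≤ n) (hm : m ≤ s) : R n s m ≤ 1 := by
  have h1 : (n.choose m : ℝ) ≤ (n.choose s : ℝ) := by exact_mod_cast choose_mono_half hs hm
  have h2 : (0 : ℝ) < (n.choose s : ℝ) := by
    exact_mod_cast Nat.choose_pos (by omega)
  rw [R, div_le_one h2]
  exact h1

theorem num_exists {n s k : ℕ} (hn : n = 2 * s + 1 + k) (hk : 1 ≤ k)
    (hs : k ^ 2 + 4 * k + 20 ≤ s) : ∃ g : ℕ → ℝ, Num n s k g := by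
  refine ⟨fun a => if a ≤ n - s then
    max 0 (R n s a - R n s (s + 1) * (1 - 2 * Wt n s (s + 1) a)) else 0, ?_⟩
  constructor
  · intro a
    split_ifs
    · exact le_max_left _ _
    · exact le_refl _
  · intro a _ h2
    rw [if_pos h2]
    have h3 := le_max_right (0 : ℝ) (R n s a - R n s (s + 1) * (1 - 2 * Wt n s (s + 1) a))
    linarith
  · intro a h1 h2
    rw [if_pos h2]
    refine max_le ?_ (num_mid2 hn hk hs a h1 h2)
    have h3 := R_le_one (n := n) (s := s) (m := 2 * s + 1 - a) (by omega) (by omega)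
    linarith
  · intro a h1 h2
    rw [if_pos h2]
    exact max_le (by norm_num) (num_mid3 hn hk hs a h1 h2)
  · intro a h1 h2
    rw [if_pos (by omega)]
    exact num_mid4 hn hk hs a h1 h2
  · intro a h1 h2
    rw [if_pos (by omega)]
    exact num_mid5 hn hk hs a h1 h2
  · exact num_hi hn hk hs
  · exact num_c0 hn hk hs

theorem odd_main {n k : ℕ} (hk : 1 ≤ k) (hodd : Odd (n + k)) (hn : 2 * k ^ 2 + 9 * k + 41 ≤ n)
    (F : Finset (Finset (Fin n))) (hF : IsAntichain (· ⊆ ·) (F : Set (Finset (Fin n))))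
    (hd : ∀ A ∈ F, ∀ B ∈ F, (symmDiff A B).card ≤ n - k) :
    F.card ≤ n.choose ((n + k + 1) / 2) := by
  obtain ⟨s, hs⟩ : ∃ s, n = 2 * s + 1 + k := by
    obtain ⟨t, ht⟩ := hodd
    exact ⟨t - k, by omega⟩
  have hs2 : k ^ 2 + 4 * k + 20 ≤ s := by omega
  obtain ⟨G, hG, hac, hnc, hdj⟩ := OFK.norm_exists hs hk F hF
    (fun A hA B hB => (hd A hA B hB).trans (by omega))
  obtain ⟨g, hg⟩ := num_exists hs hk hs2
  have h1 : G.card ≤ n.choose s := assembly ⟨hs, hk, hac, hnc, hdj⟩ g hg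
  have h2 : n.choose ((n + k + 1) / 2) = n.choose s :=
    Nat.choose_symm_of_eq_add (by omega)
  rw [h2, ← hG]
  exact h1

end Pool.Agent.TPP
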