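import Pool.Agent.TPP.Hit
import Pool.Agent.DiamEven.Weight

/-! # MP_f155e9_co, TPP: LYM in the link of an (s+1)-set -/

set_option autoImplicit false

namespace Pool.Agent.TPP

open Finset

variable {n : ℕ} {F : Finset (Finset (Fin n))} {s k : ℕ}

theorem link_lym (hF : Nrm F s k) {D : Finset (Fin n)} (hD : D.card = s + 1) :
    hit F s (fun _ => 1) D + bg F s k (fun _ => 1) D ≤ 1 := by
  classical
  let X₁ : Finset (Finset (Fin n)) := (Qf F s).filter (fun A => D ⊆ A)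
  let X₂ : Finset (Finset (Fin n)) :=
    F.filter (fun B => s + 2 ≤ B.card ∧ B.card ≤ s + k ∧ Disjoint B D)
  have m1 : ∀ A ∈ X₁, A ∈ F ∧ s + 1 ≤ A.card ∧ D ⊆ A := by
    intro A hA
    obtain ⟨h1, h2⟩ := mem_filter.1 hA
    obtain ⟨h3, h4⟩ := mem_filter.1 h1
    exact ⟨h3, h4, h2⟩
  have m2 : ∀ B ∈ X₂, B ∈ F ∧ s + 2 ≤ B.card ∧ Disjoint B D := by
    intro B hB
    obtain ⟨h1, h2, -, h4⟩ := mem_filter.1 hB
    exact ⟨h1, h2, h4⟩
  have i1 : Set.InjOn (fun A : Finset (Fin n) => A \ D) (X₁ : Set (Finset (Fin n))) := by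
    intro A hA A' hA' h
    have h1 : A \ D = A' \ D := h
    rw [← sdiff_union_of_subset (m1 A hA).2.2, h1, sdiff_union_of_subset (m1 A' hA').2.2]
  have i2 : Set.InjOn (fun B : Finset (Fin n) => Dᶜ \ B) (X₂ : Set (Finset (Fin n))) := by
    intro B hB B' hB' h
    have h1 : Dᶜ \ B = Dᶜ \ B' := h
    have h2 : ∀ C ∈ X₂, Dᶜ \ (Dᶜ \ C) = C := by
      intro C hC
      rw [Finset.sdiff_sdiff_eq_self]
      exact subset_compl_iff_disjoint_right.2 (m2 C hC).2.2
    rw [← h2 B hB, h1, h2 B' hB']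
  have c1 : ∀ A ∈ X₁, ∀ B ∈ X₂, ¬ A \ D ⊆ Dᶜ \ B := by
    intro A hA B hB h
    obtain ⟨a1, a2, a3⟩ := m1 A hA
    obtain ⟨b1, b2, b3⟩ := m2 B hB
    have h1 : Disjoint A B := by
      rw [Finset.disjoint_left]
      intro x hxA hxB
      have h2 : x ∉ D := fun hxD => (Finset.disjoint_left.1 b3) hxB hxD
      exact (mem_sdiff.1 (h (mem_sdiff.2 ⟨hxA, h2⟩))).2 hxB
    have h3 := hF.dj A a1 B b1 h1
    omega
  have c2 : ∀ A ∈ X₁, ∀ B ∈ X₂, ¬ Dᶜ \ B ⊆ A \ D := by
    intro A hA B hB h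
    obtain ⟨a1, a2, a3⟩ := m1 A hA
    obtain ⟨b1, b2, b3⟩ := m2 B hB
    apply hF.nc A a1 B b1
    ext x
    simp only [mem_union, mem_univ, iff_true]
    by_contra hx
    push Not at hx
    have h2 : x ∉ D := fun hxD => hx.1 (a3 hxD)
    exact hx.1 (mem_sdiff.1 (h (mem_sdiff.2 ⟨mem_compl.2 h2, hx.2⟩))).1
  have anti : IsAntichain (· ⊆ ·)
      ((X₁.image (fun A => A \ D) ∪ X₂.image (fun B => Dᶜ \ B) : Finset (Finset (Fin n))) :
        Set (Finset (Fin n))) := by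
    intro P hP Q hQ hne hPQ
    rw [mem_coe, mem_union, mem_image, mem_image] at hP hQ
    rcases hP with ⟨A, hA, rfl⟩ | ⟨B, hB, rfl⟩
    · rcases hQ with ⟨A', hA', rfl⟩ | ⟨B', hB', rfl⟩
      · have h1 : A ⊆ A' := by
          intro x hx
          by_cases hxD : x ∈ D
          · exact (m1 A' hA').2.2 hxD
          · exact (mem_sdiff.1 (hPQ (mem_sdiff.2 ⟨hx, hxD⟩))).1
        have h2 : A = A' := by
          by_contra h3
          exact hF.ac (m1 A hA).1 (m1 A' hA').1 h3 h1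
        exact hne (by rw [h2])
      · exact c1 A hA B' hB' hPQ
    · rcases hQ with ⟨A', hA', rfl⟩ | ⟨B', hB', rfl⟩
      · exact c2 A' hA' B hB hPQ
      · have h1 : B' ⊆ B := by
          intro x hx
          by_contra hxB
          have hxD : x ∉ D := fun hxD => (Finset.disjoint_left.1 (m2 B' hB').2.2) hx hxD
          exact (mem_sdiff.1 (hPQ (mem_sdiff.2 ⟨mem_compl.2 hxD, hxB⟩))).2 hx
        have h2 : B' = B := by
          by_contra h3
          exact hF.ac (m2 B' hB').1 (m2 B hB).1 h3 h1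
        exact hne (by rw [h2])
  have hdis : Disjoint (X₁.image (fun A => A \ D)) (X₂.image (fun B => Dᶜ \ B)) := by
    rw [Finset.disjoint_left]
    intro P hP hP'
    obtain ⟨A, hA, rfl⟩ := mem_image.1 hP
    obtain ⟨B, hB, h⟩ := mem_image.1 hP'
    exact c1 A hA B hB (by rw [← h])
  have key := DiamEven.lym_on Dᶜ _ anti (by
    intro P hP
    rcases mem_union.1 hP with h | h
    · obtain ⟨A, hA, rfl⟩ := mem_image.1 h
      intro x hx
      exact mem_compl.2 (mem_sdiff.1 hx).2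
    · obtain ⟨B, hB, rfl⟩ := mem_image.1 h
      exact sdiff_subset)
  rw [sum_union hdis, sum_image i1, sum_image i2] at key
  have hDc : (Dᶜ).card = n - D.card := by rw [card_compl, Fintype.card_fin]
  have e1 : hit F s (fun _ => 1) D =
      ∑ A ∈ X₁, (1 : ℝ) / ((Dᶜ).card.choose (A \ D).card : ℝ) := by
    unfold hit
    refine sum_congr rfl fun A hA => ?_
    rw [hDc, card_sdiff_of_subset (m1 A hA).2.2]
  have e2 : bg F s k (fun _ => 1) D =
      ∑ B ∈ X₂, (1 : ℝ) / ((Dᶜ).card.choose (Dᶜ \ B).card : ℝ) := by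
    unfold bg
    refine sum_congr rfl fun B hB => ?_
    have h1 : B ⊆ Dᶜ := subset_compl_iff_disjoint_right.2 (m2 B hB).2.2
    have h2 := card_le_card h1
    rw [card_sdiff_of_subset h1, Nat.choose_symm h2, hDc, hD]
  rw [e1, e2]
  exact key

theorem bg_mem (hF : Nrm F s k) (g : ℕ → ℝ) {D : Finset (Fin n)} (hD : D.card = s + 1)
    (hDF : D ∈ F) : bg F s k g D = 0 := by
  unfold bg
  apply sum_eq_zero
  intro B hB
  exfalso
  obtain ⟨h1, h2, -, h4⟩ := mem_filter.1 hB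
  have h3 := hF.dj B h1 D hDF h4
  omega

end Pool.Agent.TPP
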