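import Pool.Agent.TPP.ED
import Pool.Agent.TPP.Link

/-! # MP_f155e9_co, TPP: the far (s+1)-sets -/

set_option autoImplicit false

namespace Pool.Agent.TPP

open Finset

variable {n : ℕ} {F : Finset (Finset (Fin n))} {s k : ℕ}

theorem far_sum (hF : Nrm F s k) (g : ℕ → ℝ) (hg0 : ∀ a, 0 ≤ g a)
    (hg4 : ∀ a, s + 2 ≤ a → a ≤ s + k →
      g a ≤ R n s (s + 1) * ((1 - 2 * ((k : ℝ) / ((s : ℝ) + k + 1))) / 2)) :
    (∑ D ∈ Ff F s k, bg F s k g D * tf F s D) / R n s (s + 1) ≤
      ∑ D ∈ Ff F s k, tf F s D / 2 * (1 - 2 * eD F s D) := by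
  classical
  have hn := hF.hn
  have hR : 0 < R n s (s + 1) := by
    unfold R
    have h1 : 0 < n.choose (s + 1) := Nat.choose_pos (by omega)
    have h2 : 0 < n.choose s := Nat.choose_pos (by omega)
    have h1' : (0 : ℝ) < n.choose (s + 1) := by exact_mod_cast h1
    have h2' : (0 : ℝ) < n.choose s := by exact_mod_cast h2
    positivity
  rw [Finset.sum_div]
  refine Finset.sum_le_sum fun D hD => ?_
  unfold Ff at hD
  rw [Finset.mem_filter, Finset.mem_powersetCard] at hD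
  obtain ⟨⟨-, hDc⟩, -, B, hB, hB1, hB2, -⟩ := hD
  set e0 : ℝ := (k : ℝ) / ((s : ℝ) + k + 1) with he0
  have hc : 0 ≤ R n s (s + 1) * ((1 - 2 * e0) / 2) := (hg0 _).trans (hg4 _ hB1 hB2)
  have htf : 0 ≤ tf F s D := by
    unfold tf
    positivity
  have he : eD F s D ≤ e0 := eD_le hn hDc.ge
  have hhit : 0 ≤ hit F s (fun _ => 1) D := by
    unfold hit
    exact Finset.sum_nonneg fun A _ => by positivity
  have hb1 : bg F s k (fun _ => 1) D ≤ 1 := by
    have h1 := link_lym hF hDc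
    linarith
  have hb : bg F s k g D ≤ R n s (s + 1) * ((1 - 2 * e0) / 2) * bg F s k (fun _ => 1) D := by
    unfold bg
    rw [Finset.mul_sum]
    refine Finset.sum_le_sum fun C hC => ?_
    rw [Finset.mem_filter] at hC
    have h1 := hg4 _ hC.2.1 hC.2.2.1
    rw [mul_one_div]
    exact div_le_div_of_nonneg_right h1 (Nat.cast_nonneg _)
  have hb2 : bg F s k g D ≤ R n s (s + 1) * ((1 - 2 * e0) / 2) :=
    hb.trans (mul_le_of_le_one_right hc hb1)
  rw [div_le_iff₀ hR]
  calc bg F s k g D * tf F s D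
      ≤ R n s (s + 1) * ((1 - 2 * e0) / 2) * tf F s D := mul_le_mul_of_nonneg_right hb2 htf
    _ ≤ R n s (s + 1) * ((1 - 2 * eD F s D) / 2) * tf F s D := by
        refine mul_le_mul_of_nonneg_right (mul_le_mul_of_nonneg_left ?_ hR.le) htf
        linarith
    _ = tf F s D / 2 * (1 - 2 * eD F s D) * R n s (s + 1) := by ring

end Pool.Agent.TPP
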