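import Pool.Agent.TPP.Gain
import Pool.Agent.TPP.Link

/-! # MP_f155e9_co, TPP: sum of the gains -/

set_option autoImplicit false

namespace Pool.Agent.TPP

open Finset

variable {n : ℕ} {F : Finset (Finset (Fin n))} {s k : ℕ}

/-- exchange of the order of summation: pairs of a set and a smaller one -/
private theorem exch (P M : Finset (Finset (Fin n))) (f : Finset (Fin n) → ℝ) :
    ∑ D ∈ P, ∑ _y ∈ D.filter (fun y => D.erase y ∈ M), f D =
      ∑ T ∈ M, ∑ y ∈ (Tᶜ).filter (fun y => insert y T ∈ P), f (insert y T) := by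
  rw [Finset.sum_sigma', Finset.sum_sigma']
  refine Finset.sum_bij' (fun p _ => ⟨p.1.erase p.2, p.2⟩) (fun q _ => ⟨insert q.2 q.1, q.2⟩)
    ?_ ?_ ?_ ?_ ?_
  · rintro ⟨D, y⟩ h
    rw [mem_sigma, mem_filter] at h
    rw [mem_sigma, mem_filter, mem_compl]
    refine ⟨h.2.2, notMem_erase y D, ?_⟩
    rw [insert_erase h.2.1]
    exact h.1
  · rintro ⟨T, y⟩ h
    rw [mem_sigma, mem_filter, mem_compl] at h
    rw [mem_sigma, mem_filter]
    refine ⟨h.2.2, mem_insert_self y T, ?_⟩
    rw [erase_insert h.2.1]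
    exact h.1
  · rintro ⟨D, y⟩ h
    rw [mem_sigma, mem_filter] at h
    simp only [insert_erase h.2.1]
  · rintro ⟨T, y⟩ h
    rw [mem_sigma, mem_filter, mem_compl] at h
    simp only [erase_insert h.2.1]
  · rintro ⟨D, y⟩ h
    rw [mem_sigma, mem_filter] at h
    simp only [insert_erase h.2.1]

/-- the complement of `tf` as a number of elements -/
private theorem one_sub_tf {D : Finset (Fin n)} (hD : D.card = s + 1) :
    1 - tf F s D =
      ((D.filter (fun y => D.erase y ∈ Mf F s)).card : ℝ) / ((s : ℝ) + 1) := by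
  have h1 := Finset.card_filter_add_card_filter_not (s := D) (fun y => D.erase y ∈ Mf F s)
  have h2 : ((D.filter (fun y => D.erase y ∈ Mf F s)).card : ℝ) +
      ((D.filter (fun y => D.erase y ∉ Mf F s)).card : ℝ) = (s : ℝ) + 1 := by
    rw [hD] at h1
    exact_mod_cast h1
  have h3 : (s : ℝ) + 1 ≠ 0 := by positivity
  unfold tf
  rw [eq_div_iff h3, sub_mul, div_mul_cancel₀ _ h3]
  linarith

private theorem hit_one_nonneg (D : Finset (Fin n)) : 0 ≤ hit F s (fun _ => 1) D := by
  unfold hit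
  exact Finset.sum_nonneg fun A _ => by positivity

/-- the gain of one set dominates `bg` -/
private theorem bg_le (hF : Nrm F s k) {g : ℕ → ℝ}
    (hg2 : ∀ a, s + 2 ≤ a → a ≤ n - s → g a ≤ 1 - R n s (2 * s + 1 - a))
    (hg3 : ∀ a, s + 2 ≤ a → a ≤ n - s → g a ≤ 1 / 2) {T : Finset (Fin n)} (hT : T ∈ Mf F s)
    {y : Fin n} (hy : y ∉ T) : bg F s k g (insert y T) ≤ sl F s T - th F s T / 2 := by
  have hγ : 0 ≤ sl F s T - th F s T / 2 := sub_nonneg.2 (gain_nonneg hF hT)
  have hTc : T.card = s := (mem_powersetCard.1 (mem_filter.1 hT).1).2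
  have hc : (insert y T).card = s + 1 := by rw [card_insert_of_notMem hy, hTc]
  have h1 : bg F s k g (insert y T) ≤
      (sl F s T - th F s T / 2) * bg F s k (fun _ => 1) (insert y T) := by
    unfold bg
    rw [Finset.mul_sum]
    refine Finset.sum_le_sum fun B hB => ?_
    rw [mem_filter] at hB
    obtain ⟨hBF, hB1, hB2, hBD⟩ := hB
    have hn := hF.hn
    have hB3 : B.card ≤ n - s := by omega
    have hBT : Disjoint B T := hBD.mono_right (subset_insert y T)
    have h2 : g B.card ≤ sl F s T - th F s T / 2 :=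
      gain_ge hF hT hBF hB1 hB3 hBT (hg3 _ hB1 hB3) (hg2 _ hB1 hB3)
    rw [mul_one_div]
    exact div_le_div_of_nonneg_right h2 (by positivity)
  have h3 := link_lym hF hc
  have h4 := hit_one_nonneg (F := F) (s := s) (insert y T)
  calc bg F s k g (insert y T) ≤ _ := h1
    _ ≤ (sl F s T - th F s T / 2) * 1 := by
        refine mul_le_mul_of_nonneg_left ?_ hγ
        linarith
    _ = _ := mul_one _

theorem gain_sum (hF : Nrm F s k) (g : ℕ → ℝ) (hg0 : ∀ a, 0 ≤ g a)
    (hg2 : ∀ a, s + 2 ≤ a → a ≤ n - s → g a ≤ 1 - R n s (2 * s + 1 - a))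
    (hg3 : ∀ a, s + 2 ≤ a → a ≤ n - s → g a ≤ 1 / 2) :
    g (n - s) * ((F.filter (fun A => A.card = n - s)).card : ℝ) +
      (∑ D ∈ Ff F s k, bg F s k g D * (1 - tf F s D)) / R n s (s + 1) ≤
      ((Yf F s).card : ℝ) / 2 + ∑ T ∈ Mf F s, (sl F s T - th F s T / 2) := by
  have hn := hF.hn
  have hk := hF.hk
  have hns1 : s + 2 ≤ n - s := by omega
  have hpos : (0 : ℝ) < ((n - s : ℕ) : ℝ) := by
    exact_mod_cast (by omega : 0 < n - s)
  have hs1 : (0 : ℝ) < (s : ℝ) + 1 := by positivity
  -- the ratio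
  have hR : R n s (s + 1) = ((n - s : ℕ) : ℝ) / ((s : ℝ) + 1) := by
    unfold R
    have h1 : n.choose (s + 1) * (s + 1) = n.choose s * (n - s) := Nat.choose_succ_right_eq n s
    have h2 : (0 : ℝ) < (n.choose s : ℝ) := by
      exact_mod_cast Nat.choose_pos (by omega)
    rw [div_eq_div_iff h2.ne' hs1.ne']
    have h3 : ((n.choose (s + 1) * (s + 1) : ℕ) : ℝ) = ((n.choose s * (n - s) : ℕ) : ℝ) := by
      rw [h1]
    push_cast at h3
    rw [h3]
    ring
  -- the sum over `Ff`
  have hsum : (∑ D ∈ Ff F s k, bg F s k g D * (1 - tf F s D)) / R n s (s + 1) =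
      ∑ T ∈ Mf F s, (∑ y ∈ (Tᶜ).filter (fun y => insert y T ∈ Ff F s k),
        bg F s k g (insert y T)) / ((n - s : ℕ) : ℝ) := by
    rw [← Finset.sum_div, ← exch, hR]
    have h1 : ∑ D ∈ Ff F s k, bg F s k g D * (1 - tf F s D) =
        (∑ D ∈ Ff F s k, ∑ _y ∈ D.filter (fun y => D.erase y ∈ Mf F s), bg F s k g D) /
          ((s : ℝ) + 1) := by
      rw [Finset.sum_div]
      refine Finset.sum_congr rfl fun D hD => ?_
      have hDc : D.card = s + 1 := (mem_powersetCard.1 (mem_filter.1 hD).1).2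
      rw [one_sub_tf hDc, Finset.sum_const, nsmul_eq_mul]
      ring
    rw [h1, div_div_div_cancel_right₀ hs1.ne']
  -- the members of size `n - s`
  have hcard : ((F.filter (fun A => A.card = n - s)).card : ℝ) ≤
      ((((Mf F s).filter (fun T => Tᶜ ∈ F)).card : ℝ) +
        (((Yf F s).filter (fun T => Tᶜ ∈ F)).card : ℝ)) := by
    have h1 : (F.filter (fun A => A.card = n - s)).card ≤
        ((Mf F s).filter (fun T => Tᶜ ∈ F) ∪ (Yf F s).filter (fun T => Tᶜ ∈ F)).card := by
      refine Finset.card_le_card_of_injOn (fun A => Aᶜ) ?_ ?_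
      · intro A hA
        have hA' := mem_filter.1 (mem_coe.1 hA)
        obtain ⟨hAF, hAc⟩ := hA'
        have hc : (Aᶜ).card = s := by
          rw [card_compl, Fintype.card_fin, hAc]
          omega
        have h2 : Aᶜ ∈ powersetCard s (univ : Finset (Fin n)) :=
          mem_powersetCard.2 ⟨subset_univ _, hc⟩
        have h3 : Aᶜᶜ ∈ F := by rw [compl_compl]; exact hAF
        rw [mem_coe, mem_union, mem_filter, mem_filter]
        by_cases hM : Aᶜ ∈ Mf F s
        · exact Or.inl ⟨hM, h3⟩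
        · refine Or.inr ⟨mem_filter.2 ⟨h2, ?_, hM, ?_⟩, h3⟩
          · intro h4
            exact hF.nc A hAF _ h4 (union_compl A)
          · intro h4
            rw [mem_shadow_iff] at h4
            obtain ⟨D, hD, y, hy, hDy⟩ := h4
            obtain ⟨A', hA', hDA'⟩ := (mem_filter.1 hD).2
            have hA'F : A' ∈ F := (mem_filter.1 hA').1
            apply hF.nc A hAF A' hA'F
            apply Finset.eq_univ_of_forall
            intro z
            rw [mem_union]
            by_cases hz : z ∈ A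
            · exact Or.inl hz
            · right
              apply hDA'
              have h5 : z ∈ Aᶜ := mem_compl.2 hz
              have h6 : D.erase y = Aᶜ := hDy
              rw [← h6] at h5
              exact mem_of_mem_erase h5
      · intro A _ A' _ h
        exact compl_injective h
    have h2 := h1.trans (card_union_le _ _)
    exact_mod_cast h2
  -- each term
  have hterm : ∀ T ∈ Mf F s, g (n - s) * (if Tᶜ ∈ F then (1 : ℝ) else 0) +
      (∑ y ∈ (Tᶜ).filter (fun y => insert y T ∈ Ff F s k),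
        bg F s k g (insert y T)) / ((n - s : ℕ) : ℝ) ≤ sl F s T - th F s T / 2 := by
    intro T hT
    have hTc : T.card = s := (mem_powersetCard.1 (mem_filter.1 hT).1).2
    have hcc : (Tᶜ).card = n - s := by rw [card_compl, Fintype.card_fin, hTc]
    have hγ : 0 ≤ sl F s T - th F s T / 2 := sub_nonneg.2 (gain_nonneg hF hT)
    by_cases hTF : Tᶜ ∈ F
    · have h1 : (Tᶜ).filter (fun y => insert y T ∈ Ff F s k) = ∅ := by
        rw [Finset.filter_eq_empty_iff]
        intro y hy h2
        obtain ⟨-, B, hBF, hB1, hB2, hBD⟩ := (mem_filter.1 h2).2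
        have h3 : B ⊆ Tᶜ := by
          intro z hz
          rw [mem_compl]
          intro h4
          exact (Finset.disjoint_left.1 hBD hz) (mem_insert_of_mem h4)
        have h4 : B = Tᶜ := by
          by_contra h5
          exact hF.ac (mem_coe.2 hBF) (mem_coe.2 hTF) h5 h3
        rw [h4, hcc] at hB2
        omega
      rw [if_pos hTF, h1, Finset.sum_empty, zero_div, add_zero, mul_one]
      exact gain_ge hF hT hTF (by rw [hcc]; exact hns1) hcc.le
        (disjoint_compl_left) (hg3 _ hns1 le_rfl) (by rw [hcc]; exact hg2 _ hns1 le_rfl)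
    · rw [if_neg hTF, mul_zero, zero_add, div_le_iff₀ hpos]
      calc (∑ y ∈ (Tᶜ).filter (fun y => insert y T ∈ Ff F s k), bg F s k g (insert y T))
          ≤ ∑ _y ∈ (Tᶜ).filter (fun y => insert y T ∈ Ff F s k),
              (sl F s T - th F s T / 2) := by
            refine Finset.sum_le_sum fun y hy => ?_
            exact bg_le hF hg2 hg3 hT (mem_compl.1 (mem_filter.1 hy).1)
        _ ≤ ∑ _y ∈ Tᶜ, (sl F s T - th F s T / 2) :=
            Finset.sum_le_sum_of_subset_of_nonneg (filter_subset _ _) fun _ _ _ => hγ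
        _ = (sl F s T - th F s T / 2) * ((n - s : ℕ) : ℝ) := by
            rw [Finset.sum_const, hcc, nsmul_eq_mul, mul_comm]
  have hM : ((((Mf F s).filter (fun T => Tᶜ ∈ F)).card : ℝ)) =
      ∑ T ∈ Mf F s, (if Tᶜ ∈ F then (1 : ℝ) else 0) := by
    rw [Finset.sum_boole]
  have hY : (((Yf F s).filter (fun T => Tᶜ ∈ F)).card : ℝ) ≤ ((Yf F s).card : ℝ) := by
    exact_mod_cast card_filter_le _ _
  have hg3' := hg3 _ hns1 le_rfl
  have h0 := hg0 (n - s)
  calc g (n - s) * ((F.filter (fun A => A.card = n - s)).card : ℝ) +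
      (∑ D ∈ Ff F s k, bg F s k g D * (1 - tf F s D)) / R n s (s + 1)
      ≤ g (n - s) * ((((Mf F s).filter (fun T => Tᶜ ∈ F)).card : ℝ) +
        (((Yf F s).filter (fun T => Tᶜ ∈ F)).card : ℝ)) +
        ∑ T ∈ Mf F s, (∑ y ∈ (Tᶜ).filter (fun y => insert y T ∈ Ff F s k),
        bg F s k g (insert y T)) / ((n - s : ℕ) : ℝ) := by
        rw [hsum]
        exact add_le_add_left (mul_le_mul_of_nonneg_left hcard h0) _
    _ = g (n - s) * (((Yf F s).filter (fun T => Tᶜ ∈ F)).card : ℝ) +
        ∑ T ∈ Mf F s, (g (n - s) * (if Tᶜ ∈ F then (1 : ℝ) else 0) +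
        (∑ y ∈ (Tᶜ).filter (fun y => insert y T ∈ Ff F s k),
        bg F s k g (insert y T)) / ((n - s : ℕ) : ℝ)) := by
        rw [Finset.sum_add_distrib, ← Finset.mul_sum, ← hM]
        ring
    _ ≤ (1 / 2) * ((Yf F s).card : ℝ) + ∑ T ∈ Mf F s, (sl F s T - th F s T / 2) := by
        refine add_le_add ?_ (Finset.sum_le_sum hterm)
        exact mul_le_mul hg3' hY (by positivity) (by norm_num)
    _ = _ := by ring

end Pool.Agent.TPP
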