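import Pool.Agent.TPP.Defs
import Pool.Agent.DiamEven.Weight

/-! # MP_f155e9_co, TPP: down-chains -/

set_option autoImplicit false

namespace Pool.Agent.TPP

open Finset

variable {n : ℕ} {F : Finset (Finset (Fin n))} {s k : ℕ}

private theorem antichain_Lf (hF : Nrm F s k) :
    IsAntichain (· ⊆ ·) (Lf F s : Set (Finset (Fin n))) := by
  refine hF.ac.subset ?_
  intro A hA
  exact mem_coe.2 (mem_filter.1 (mem_coe.1 hA)).1

private theorem lym_below (hF : Nrm F s k) (T : Finset (Fin n)) :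
    ∑ A ∈ (Lf F s).filter (fun A => A ⊆ T), (1 : ℝ) / (T.card.choose A.card : ℝ) ≤ 1 := by
  refine DiamEven.lym_on T _ ?_ (fun A hA => (mem_filter.1 hA).2)
  refine (antichain_Lf hF).subset ?_
  intro A hA
  exact mem_coe.2 (mem_filter.1 (mem_coe.1 hA)).1

theorem th_nonneg (hF : Nrm F s k) (T : Finset (Fin n)) (hT : T.card = s) :
    0 ≤ th F s T := by
  have h := lym_below hF T
  rw [hT] at h
  unfold th
  linarith

theorem th_le_one (T : Finset (Fin n)) : th F s T ≤ 1 := by
  unfold th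
  have : 0 ≤ ∑ A ∈ (Lf F s).filter (fun A => A ⊆ T), (1 : ℝ) / (s.choose A.card : ℝ) :=
    sum_nonneg fun A _ => by positivity
  linarith

/-- `1 / C(s, a) = (1 / s) ((s - a) / C(s - 1, a))` for `a < s` -/
private theorem inv_choose_step {s a : ℕ} (h : a < s) :
    (1 : ℝ) / (s.choose a : ℝ) =
      (1 / (s : ℝ)) * (((s - a : ℕ) : ℝ) * (1 / ((s - 1).choose a : ℝ))) := by
  obtain ⟨m, rfl⟩ : ∃ m, s = m + 1 := ⟨s - 1, by omega⟩
  have h1 : (m + 1).choose a * (m + 1 - a) = m.choose a * (m + 1) :=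
    (Nat.choose_mul_succ_eq m a).symm
  have h2 : 0 < (m + 1).choose a := Nat.choose_pos (by omega)
  have h3 : 0 < m.choose a := Nat.choose_pos (by omega)
  have h4 : ((m + 1).choose a : ℝ) * ((m + 1 - a : ℕ) : ℝ) =
      (m.choose a : ℝ) * ((m + 1 : ℕ) : ℝ) := by exact_mod_cast h1
  have h2' : (0 : ℝ) < ((m + 1).choose a : ℝ) := by exact_mod_cast h2
  have h3' : (0 : ℝ) < (m.choose a : ℝ) := by exact_mod_cast h3
  have h5 : (0 : ℝ) < ((m + 1 : ℕ) : ℝ) := by positivity
  have h6 : m + 1 - 1 = m := by omega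
  rw [h6]
  field_simp
  linarith

/-- the members below `T` which avoid some point -/
private theorem sum_le_count (hF : Nrm F s k) (T : Finset (Fin n)) (hT : T.card = s)
    (hs : 0 < s) :
    ∑ A ∈ (Lf F s).filter (fun A => A ⊆ T), (1 : ℝ) / (s.choose A.card : ℝ) ≤
      (1 / (s : ℝ)) * ((T.filter (fun z => ∃ A ∈ Lf F s, A ⊆ T.erase z)).card : ℝ) := by
  have h1 : ∑ A ∈ (Lf F s).filter (fun A => A ⊆ T), (1 : ℝ) / (s.choose A.card : ℝ) =
      (1 / (s : ℝ)) * ∑ z ∈ T, ∑ A ∈ (Lf F s).filter (fun A => A ⊆ T.erase z),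
        (1 : ℝ) / ((s - 1).choose A.card : ℝ) := by
    have h2 : ∀ z ∈ T, ∑ A ∈ (Lf F s).filter (fun A => A ⊆ T.erase z),
        (1 : ℝ) / ((s - 1).choose A.card : ℝ) =
        ∑ A ∈ (Lf F s).filter (fun A => A ⊆ T),
          if z ∉ A then (1 : ℝ) / ((s - 1).choose A.card : ℝ) else 0 := by
      intro z hz
      rw [← sum_filter, filter_filter]
      refine sum_congr ?_ fun _ _ => rfl
      ext A
      simp only [mem_filter, subset_erase]
    rw [sum_congr rfl h2, sum_comm, mul_sum]
    refine sum_congr rfl fun A hA => ?_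
    have hA' := mem_filter.1 hA
    have hlt : A.card < s := (mem_filter.1 hA'.1).2
    have hc : (T.filter (fun z => z ∉ A)).card = s - A.card := by
      have : T.filter (fun z => z ∉ A) = T \ A := by
        ext z
        simp [mem_sdiff]
      rw [this, card_sdiff_of_subset hA'.2, hT]
    rw [inv_choose_step hlt, ← sum_filter, sum_const, hc, nsmul_eq_mul]
  rw [h1]
  refine mul_le_mul_of_nonneg_left ?_ (by positivity)
  have h3 : ∀ z ∈ T, ∑ A ∈ (Lf F s).filter (fun A => A ⊆ T.erase z),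
      (1 : ℝ) / ((s - 1).choose A.card : ℝ) ≤
      if ∃ A ∈ Lf F s, A ⊆ T.erase z then (1 : ℝ) else 0 := by
    intro z hz
    split_ifs with h
    · have h4 := lym_below hF (T.erase z)
      rw [card_erase_of_mem hz, hT] at h4
      exact h4
    · have h5 : (Lf F s).filter (fun A => A ⊆ T.erase z) = ∅ := by
        rw [filter_eq_empty_iff]
        intro A hA hA'
        exact h ⟨A, hA, hA'⟩
      rw [h5, sum_empty]
  refine (sum_le_sum h3).trans (le_of_eq ?_)
  rw [← sum_filter, sum_const, nsmul_eq_mul, mul_one]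

theorem tf_le_th (hF : Nrm F s k) {T : Finset (Fin n)} (hT : T ∈ Mf F s) {y : Fin n} (hy : y ∉ T) :
    tf F s (insert y T) ≤ th F s T := by
  obtain ⟨hTc, A₀, hA₀, hA₀T⟩ := mem_filter.1 hT
  have hTs : T.card = s := (mem_powersetCard.1 hTc).2
  have hs : 0 < s := by
    have := (mem_filter.1 hA₀).2
    omega
  have hsR : (0 : ℝ) < (s : ℝ) := by exact_mod_cast hs
  have hle := sum_le_count hF T hTs hs
  set B := T.filter (fun z => ∃ A ∈ Lf F s, A ⊆ T.erase z) with hB
  set C := T.filter (fun z => ¬ ∃ A ∈ Lf F s, A ⊆ T.erase z) with hC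
  have hBC : B.card + C.card = s := by
    rw [hB, hC, card_filter_add_card_filter_not, hTs]
  have hsub : (insert y T).filter (fun z => (insert y T).erase z ∉ Mf F s) ⊆ C := by
    intro z hz
    obtain ⟨hz1, hz2⟩ := mem_filter.1 hz
    rcases mem_insert.1 hz1 with rfl | hzT
    · rw [erase_insert hy] at hz2
      exact absurd hT hz2
    · refine mem_filter.2 ⟨hzT, ?_⟩
      rintro ⟨A, hA, hAT⟩
      apply hz2
      refine mem_filter.2 ⟨mem_powersetCard.2 ⟨subset_univ _, ?_⟩, A, hA, ?_⟩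
      · rw [card_erase_of_mem hz1, card_insert_of_notMem hy, hTs]
        omega
      · exact hAT.trans (erase_subset_erase _ (subset_insert _ _))
  have hcard : (((insert y T).filter (fun z => (insert y T).erase z ∉ Mf F s)).card : ℝ) ≤
      (C.card : ℝ) := by exact_mod_cast card_le_card hsub
  have hBC' : (B.card : ℝ) + (C.card : ℝ) = (s : ℝ) := by exact_mod_cast hBC
  have h1 : tf F s (insert y T) ≤ (C.card : ℝ) / (s : ℝ) := by
    unfold tf
    refine (div_le_div_of_nonneg_right hcard (by positivity)).trans ?_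
    exact div_le_div_of_nonneg_left (by positivity) hsR (by linarith)
  have h2 : (C.card : ℝ) / (s : ℝ) = 1 - (1 / (s : ℝ)) * (B.card : ℝ) := by
    field_simp
    linarith
  unfold th
  linarith

end Pool.Agent.TPP
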