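import Pool.Agent.TPP.Iso
import Pool.Agent.TPP.Theta

/-! # MP_f155e9_co, TPP: isoperimetry applied -/

set_option autoImplicit false

namespace Pool.Agent.TPP

open Finset

variable {n : ℕ} {F : Finset (Finset (Fin n))} {s k : ℕ}

private theorem uf_sub_isoApp : Uf F s ⊆ powersetCard (s + 1) (univ : Finset (Fin n)) :=
  filter_subset _ _

private theorem ff_sub_isoApp : Ff F s k ⊆ powersetCard (s + 1) (univ : Finset (Fin n)) :=
  filter_subset _ _

private theorem mf_sub_isoApp : Mf F s ⊆ powersetCard s (univ : Finset (Fin n)) :=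
  filter_subset _ _

private theorem yf_sub_isoApp : Yf F s ⊆ powersetCard s (univ : Finset (Fin n)) :=
  filter_subset _ _

private theorem sh_sub_isoApp : (Uf F s).shadow ⊆ powersetCard s (univ : Finset (Fin n)) := by
  intro T hT
  rw [mem_shadow_iff] at hT
  obtain ⟨D, hD, a, ha, rfl⟩ := hT
  have h1 := (mem_powersetCard.1 (uf_sub_isoApp hD)).2
  rw [mem_powersetCard]
  exact ⟨subset_univ _, by rw [card_erase_of_mem ha, h1]; rfl⟩

private theorem tf_nonneg_isoApp (D : Finset (Fin n)) : 0 ≤ tf F s D := by
  unfold tf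
  positivity

private theorem tf_le_isoApp {D : Finset (Fin n)} (hD : D.card = s + 1) : tf F s D ≤ 1 := by
  unfold tf
  rw [div_le_one (by positivity)]
  have h1 : (D.filter (fun y => D.erase y ∉ Mf F s)).card ≤ s + 1 := by
    rw [← hD]
    exact card_filter_le _ _
  exact_mod_cast h1

private theorem sum_mem_isoApp {S t : Finset (Finset (Fin n))} (h : t ⊆ S)
    (f : Finset (Fin n) → ℝ) : ∑ T ∈ S, (if T ∈ t then f T else 0) = ∑ T ∈ t, f T := by
  rw [sum_ite_mem, inter_eq_right.2 h]

theorem iso_applied (hF : Nrm F s k) :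
    ∑ D ∈ Uf F s, (1 - 2 * eD F s D) + ∑ D ∈ Ff F s k, tf F s D / 2 * (1 - 2 * eD F s D) ≤
      ((Uf F s).shadow.card : ℝ) + (∑ T ∈ Mf F s, th F s T) / 2 + ((Yf F s).card : ℝ) / 2 := by
  classical
  have key := iso hF
    (fun D => if D ∈ Uf F s then 1 else if D ∈ Ff F s k then tf F s D / 2 else 0)
    (fun T => if T ∈ (Uf F s).shadow then 1 else if T ∈ Mf F s then th F s T / 2 else
      if T ∈ Yf F s then 1 / 2 else 0) ?_ ?_ ?_
  · have e1 : ∑ D ∈ powersetCard (s + 1) (univ : Finset (Fin n)),
        (if D ∈ Uf F s then 1 else if D ∈ Ff F s k then tf F s D / 2 else 0) *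
          (1 - 2 * eD F s D) =
        ∑ D ∈ Uf F s, (1 - 2 * eD F s D) +
          ∑ D ∈ Ff F s k, tf F s D / 2 * (1 - 2 * eD F s D) := by
      rw [← sum_mem_isoApp uf_sub_isoApp (fun D => 1 - 2 * eD F s D),
        ← sum_mem_isoApp ff_sub_isoApp (fun D => tf F s D / 2 * (1 - 2 * eD F s D)),
        ← sum_add_distrib]
      refine sum_congr rfl fun D _ => ?_
      by_cases h1 : D ∈ Uf F s
      · have h2 : D ∉ Ff F s k := fun h => (mem_filter.1 h).2.1 h1
        simp only [if_pos h1, if_neg h2]
        ring
      · by_cases h2 : D ∈ Ff F s k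
        · simp only [if_neg h1, if_pos h2]
          ring
        · simp only [if_neg h1, if_neg h2]
          ring
    have e2 : ∑ T ∈ powersetCard s (univ : Finset (Fin n)),
        (if T ∈ (Uf F s).shadow then (1 : ℝ) else if T ∈ Mf F s then th F s T / 2 else
          if T ∈ Yf F s then 1 / 2 else 0) ≤
        ((Uf F s).shadow.card : ℝ) + (∑ T ∈ Mf F s, th F s T) / 2 +
          ((Yf F s).card : ℝ) / 2 := by
      have h3 : ((Uf F s).shadow.card : ℝ) + (∑ T ∈ Mf F s, th F s T) / 2 +
          ((Yf F s).card : ℝ) / 2 = ∑ T ∈ powersetCard s (univ : Finset (Fin n)),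
            ((if T ∈ (Uf F s).shadow then (1 : ℝ) else 0) +
              (if T ∈ Mf F s then th F s T / 2 else 0) + if T ∈ Yf F s then 1 / 2 else 0) := by
        rw [sum_add_distrib, sum_add_distrib, sum_mem_isoApp sh_sub_isoApp (fun _ => (1 : ℝ)),
          sum_mem_isoApp mf_sub_isoApp (fun T => th F s T / 2),
          sum_mem_isoApp yf_sub_isoApp (fun _ => (1 / 2 : ℝ)), sum_const, sum_const, sum_div]
        simp only [nsmul_eq_mul]
        ring
      rw [h3]
      refine sum_le_sum fun T hT => ?_
      have hc := (mem_powersetCard.1 hT).2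
      have h4 := th_nonneg hF T hc
      split_ifs <;> linarith
    rw [e1] at key
    exact key.trans e2
  · intro D _
    have h1 := tf_nonneg_isoApp (F := F) (s := s) D
    show (0 : ℝ) ≤ if D ∈ Uf F s then 1 else if D ∈ Ff F s k then tf F s D / 2 else 0
    split_ifs <;> linarith
  · intro T hT
    have hc := (mem_powersetCard.1 hT).2
    have h4 := th_nonneg hF T hc
    show (0 : ℝ) ≤ if T ∈ (Uf F s).shadow then 1 else if T ∈ Mf F s then th F s T / 2 else
      if T ∈ Yf F s then 1 / 2 else 0
    split_ifs <;> linarith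
  · intro T hT y hy
    have hc := (mem_powersetCard.1 hT).2
    have h4 := th_nonneg hF T hc
    have hcy : (insert y T).card = s + 1 := by rw [card_insert_of_notMem hy, hc]
    show (if insert y T ∈ Uf F s then (1 : ℝ) else
        if insert y T ∈ Ff F s k then tf F s (insert y T) / 2 else 0) ≤
      if T ∈ (Uf F s).shadow then 1 else if T ∈ Mf F s then th F s T / 2 else
        if T ∈ Yf F s then 1 / 2 else 0
    by_cases h1 : insert y T ∈ Uf F s
    · have h2 : T ∈ (Uf F s).shadow := by
        rw [mem_shadow_iff]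
        exact ⟨_, h1, y, mem_insert_self _ _, erase_insert hy⟩
      rw [if_pos h1, if_pos h2]
    · rw [if_neg h1]
      by_cases h2 : insert y T ∈ Ff F s k
      · rw [if_pos h2]
        have h5 := tf_le_isoApp (F := F) hcy
        by_cases h3 : T ∈ (Uf F s).shadow
        · rw [if_pos h3]
          linarith
        · rw [if_neg h3]
          by_cases h6 : T ∈ Mf F s
          · rw [if_pos h6]
            have h7 := tf_le_th hF h6 hy
            linarith
          · rw [if_neg h6]
            have h7 : T ∉ F := by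
              intro hTF
              obtain ⟨B, hB, hB1, _, hB3⟩ := (mem_filter.1 h2).2.2
              have h8 : Disjoint B T := hB3.mono_right (subset_insert _ _)
              have h9 := hF.dj B hB T hTF h8
              omega
            have h8 : T ∈ Yf F s := mem_filter.2 ⟨hT, h7, h6, h3⟩
            rw [if_pos h8]
            linarith
      · rw [if_neg h2]
        split_ifs <;> linarith

end Pool.Agent.TPP
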