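import Pool.Agent.TPP.EBound
import Pool.Agent.TPP.Link

/-! # MP_f155e9_co, TPP: the near (s+1)-sets -/

set_option autoImplicit false

namespace Pool.Agent.TPP

open Finset

variable {n : ℕ} {F : Finset (Finset (Fin n))} {s k : ℕ}

private theorem hit_lin_NS (w : ℕ → ℝ) (D : Finset (Fin n)) :
    hit F s (fun a => 1 - 2 * w a) D = hit F s (fun _ => 1) D - 2 * hit F s w D := by
  unfold hit
  rw [mul_sum, ← sum_sub_distrib]
  refine sum_congr rfl fun A _ => ?_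
  ring

private theorem bg_le_NS (g : ℕ → ℝ) (c : ℝ) (h : ∀ a, s + 2 ≤ a → a ≤ s + k → g a ≤ c)
    (D : Finset (Fin n)) : bg F s k g D ≤ c * bg F s k (fun _ => 1) D := by
  unfold bg
  rw [mul_sum]
  refine sum_le_sum fun B hB => ?_
  obtain ⟨-, h2, h3, -⟩ := mem_filter.1 hB
  have h4 := h B.card h2 h3
  rw [mul_one_div]
  exact div_le_div_of_nonneg_right h4 (Nat.cast_nonneg _)

private theorem R_pos_NS (hF : Nrm F s k) : 0 < R n s (s + 1) := by
  have hn := hF.hn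
  unfold R
  have h1 : 0 < n.choose (s + 1) := Nat.choose_pos (by omega)
  have h2 : 0 < n.choose s := Nat.choose_pos (by omega)
  positivity

private theorem pt_NS (hF : Nrm F s k) (g : ℕ → ℝ)
    (hg5 : ∀ a, s + 2 ≤ a → a ≤ s + k →
      g a ≤ R n s (s + 1) * (1 - 2 * Wt n s (s + 1) (n - s) - 2 * bp s k))
    (hc : 0 ≤ 1 - 2 * Wt n s (s + 1) (n - s) - 2 * bp s k)
    {D : Finset (Fin n)} (hD : D.card = s + 1) (hDK : ∃ A ∈ Qf F s, D ⊆ A) :
    hit F s (fun a => 1 - 2 * Wt n s (s + 1) a) D + bg F s k g D / R n s (s + 1) ≤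
      1 - 2 * eD F s D := by
  have hR := R_pos_NS hF
  have h1 := eD_bound hF (le_of_eq hD.symm) hDK
  rw [hD] at h1
  have h2 := link_lym hF hD
  have h3 := bg_le_NS (F := F) g _ hg5 D
  rw [hit_lin_NS]
  have h4 : bg F s k g D / R n s (s + 1) ≤
      (1 - 2 * Wt n s (s + 1) (n - s) - 2 * bp s k) * bg F s k (fun _ => 1) D := by
    rw [div_le_iff₀ hR]
    linarith [h3]
  have h5 : (1 - 2 * Wt n s (s + 1) (n - s) - 2 * bp s k) * bg F s k (fun _ => 1) D ≤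
      (1 - 2 * Wt n s (s + 1) (n - s) - 2 * bp s k) * (1 - hit F s (fun _ => 1) D) :=
    mul_le_mul_of_nonneg_left (by linarith) hc
  have h6 : hit F s (Wt n s (s + 1)) D = hit F s (fun a => Wt n s (s + 1) a) D := rfl
  rw [← h6]
  nlinarith [h1, h4, h5]

theorem near_sum (hF : Nrm F s k) (g : ℕ → ℝ) (hg0 : ∀ a, 0 ≤ g a)
    (hg5 : ∀ a, s + 2 ≤ a → a ≤ s + k →
      g a ≤ R n s (s + 1) * (1 - 2 * Wt n s (s + 1) (n - s) - 2 * bp s k))
    (hc : 0 ≤ 1 - 2 * Wt n s (s + 1) (n - s) - 2 * bp s k) :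
    ((F.filter (fun A => A.card = s + 1)).card : ℝ) +
      ∑ D ∈ Nf F s, hit F s (fun a => 1 - 2 * Wt n s (s + 1) a) D +
      (∑ D ∈ Nf F s, bg F s k g D) / R n s (s + 1) ≤ ∑ D ∈ Uf F s, (1 - 2 * eD F s D) := by
  classical
  have hP : (Uf F s).filter (fun D => D ∈ F) = F.filter (fun A => A.card = s + 1) := by
    ext D
    simp only [Uf, Qf, mem_filter, mem_powersetCard, subset_univ, true_and]
    constructor
    · rintro ⟨⟨h1, -⟩, h3⟩
      exact ⟨h3, h1⟩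
    · rintro ⟨h1, h2⟩
      exact ⟨⟨h2, D, ⟨h1, le_of_eq h2.symm⟩, Subset.refl D⟩, h1⟩
  have hS : ∑ D ∈ Uf F s, (1 - 2 * eD F s D) =
      ∑ D ∈ F.filter (fun A => A.card = s + 1), (1 - 2 * eD F s D) +
        ∑ D ∈ Nf F s, (1 - 2 * eD F s D) := by
    rw [← hP, Nf, sum_filter_add_sum_filter_not]
  have hA : ∑ D ∈ F.filter (fun A => A.card = s + 1), (1 - 2 * eD F s D) =
      ((F.filter (fun A => A.card = s + 1)).card : ℝ) := by
    rw [card_eq_sum_ones, Nat.cast_sum]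
    refine sum_congr rfl fun D hD => ?_
    obtain ⟨h1, h2⟩ := mem_filter.1 hD
    rw [eD_zero (Or.inl ⟨D, mem_filter.2 ⟨h1, le_of_eq h2.symm⟩, Subset.refl D⟩)]
    simp
  have hB : ∑ D ∈ Nf F s, hit F s (fun a => 1 - 2 * Wt n s (s + 1) a) D +
      (∑ D ∈ Nf F s, bg F s k g D) / R n s (s + 1) ≤ ∑ D ∈ Nf F s, (1 - 2 * eD F s D) := by
    rw [sum_div, ← sum_add_distrib]
    refine sum_le_sum fun D hD => ?_
    obtain ⟨h1, -⟩ := mem_filter.1 hD
    obtain ⟨h2, h3⟩ := mem_filter.1 h1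
    exact pt_NS hF g hg5 hc (mem_powersetCard.1 h2).2 h3
  rw [hS, hA]
  linarith [hB]

end Pool.Agent.TPP
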