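import Pool.Agent.TPP.Defs

/-! # MP_f155e9_co, TPP: partition of the s-sets -/

set_option autoImplicit false

namespace Pool.Agent.TPP

open Finset

variable {n : ℕ} {F : Finset (Finset (Fin n))} {s k : ℕ}

/-- a member of the shadow of `Uf` has size `s` and is a subset of a member of size `> s` -/
private theorem mem_shadow_Uf {T : Finset (Fin n)} (hT : T ∈ (Uf F s).shadow) :
    T.card = s ∧ ∃ A ∈ F, s + 1 ≤ A.card ∧ T ⊆ A := by
  rw [mem_shadow_iff] at hT
  obtain ⟨D, hD, y, hy, rfl⟩ := hT
  unfold Uf at hD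
  rw [mem_filter, mem_powersetCard] at hD
  obtain ⟨⟨-, hDc⟩, A, hA, hDA⟩ := hD
  unfold Qf at hA
  rw [mem_filter] at hA
  refine ⟨?_, A, hA.1, hA.2, (erase_subset _ _).trans hDA⟩
  rw [card_erase_of_mem hy, hDc]
  rfl

private theorem mem_Mf {T : Finset (Fin n)} (hT : T ∈ Mf F s) :
    T.card = s ∧ ∃ A ∈ F, A.card < s ∧ A ⊆ T := by
  unfold Mf at hT
  rw [mem_filter, mem_powersetCard] at hT
  obtain ⟨⟨-, hTc⟩, A, hA, hAT⟩ := hT
  unfold Lf at hA
  rw [mem_filter] at hA
  exact ⟨hTc, A, hA.1, hA.2, hAT⟩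

private theorem ac_card (hF : Nrm F s k) {A B : Finset (Fin n)} (hA : A ∈ F) (hB : B ∈ F)
    (h : A ⊆ B) (hc : A.card < B.card) : False := by
  have hne : A ≠ B := fun h0 => by rw [h0] at hc; exact lt_irrefl _ hc
  exact hF.ac (mem_coe.2 hA) (mem_coe.2 hB) hne h

theorem partition_s (hF : Nrm F s k) :
    n.choose s = (F.filter (fun A => A.card = s)).card + (Mf F s).card + (Uf F s).shadow.card +
      (Yf F s).card := by
  have h1 : Disjoint (F.filter (fun A => A.card = s)) (Mf F s) := by
    rw [Finset.disjoint_left]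
    intro T hT hM
    rw [mem_filter] at hT
    obtain ⟨hTc, A, hA, hAc, hAT⟩ := mem_Mf hM
    exact ac_card hF hA hT.1 hAT (by omega)
  have h2 : Disjoint (F.filter (fun A => A.card = s) ∪ Mf F s) (Uf F s).shadow := by
    rw [Finset.disjoint_left]
    intro T hT hS
    obtain ⟨hTc, B, hB, hBc, hTB⟩ := mem_shadow_Uf hS
    rw [mem_union] at hT
    rcases hT with hT | hT
    · rw [mem_filter] at hT
      exact ac_card hF hT.1 hB hTB (by omega)
    · obtain ⟨-, A, hA, hAc, hAT⟩ := mem_Mf hT
      exact ac_card hF hA hB (hAT.trans hTB) (by omega)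
  have h3 : Disjoint (F.filter (fun A => A.card = s) ∪ Mf F s ∪ (Uf F s).shadow) (Yf F s) := by
    rw [Finset.disjoint_left]
    intro T hT hY
    unfold Yf at hY
    rw [mem_filter] at hY
    obtain ⟨-, hY1, hY2, hY3⟩ := hY
    rw [mem_union, mem_union, mem_filter] at hT
    rcases hT with (hT | hT) | hT
    · exact hY1 hT.1
    · exact hY2 hT
    · exact hY3 hT
  have h4 : powersetCard s (univ : Finset (Fin n)) =
      F.filter (fun A => A.card = s) ∪ Mf F s ∪ (Uf F s).shadow ∪ Yf F s := by
    ext T
    rw [mem_union, mem_union, mem_union, mem_filter]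
    constructor
    · intro hT
      have hTc := (mem_powersetCard.1 hT).2
      by_cases hR : T ∈ F
      · exact Or.inl (Or.inl (Or.inl ⟨hR, hTc⟩))
      · by_cases hM : T ∈ Mf F s
        · exact Or.inl (Or.inl (Or.inr hM))
        · by_cases hS : T ∈ (Uf F s).shadow
          · exact Or.inl (Or.inr hS)
          · right
            unfold Yf
            rw [mem_filter]
            exact ⟨hT, hR, hM, hS⟩
    · intro hT
      rw [mem_powersetCard]
      refine ⟨subset_univ _, ?_⟩
      rcases hT with ((hT | hT) | hT) | hT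
      · exact hT.2
      · exact (mem_Mf hT).1
      · exact (mem_shadow_Uf hT).1
      · unfold Yf at hT
        rw [mem_filter, mem_powersetCard] at hT
        exact hT.1.2
  have h5 := congrArg card h4
  rw [card_union_of_disjoint h3, card_union_of_disjoint h2, card_union_of_disjoint h1,
    card_powersetCard, card_univ, Fintype.card_fin] at h5
  exact h5

end Pool.Agent.TPP
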