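import Pool.Agent.TPP.Link

/-! # MP_f155e9_co, TPP: double counting of bg -/

set_option autoImplicit false

namespace Pool.Agent.TPP

open Finset

variable {n : ℕ} {F : Finset (Finset (Fin n))} {s k : ℕ}

private theorem choose_swap {n a b : ℕ} :
    n.choose a * (n - a).choose b = n.choose b * (n - b).choose a := by
  have h1 := Nat.choose_mul (n := n) (k := a + b) (s := a) (by omega)
  have h2 := Nat.choose_mul (n := n) (k := a + b) (s := b) (by omega)
  have e1 : a + b - a = b := by omega
  have e2 : a + b - b = a := by omega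
  rw [e1] at h1
  rw [e2] at h2
  rw [← h1, ← h2, Nat.choose_symm_add]

theorem sum_bg (hF : Nrm F s k) (g : ℕ → ℝ) :
    ∑ D ∈ powersetCard (s + 1) (univ : Finset (Fin n)), bg F s k g D =
      ∑ B ∈ F.filter (fun B => s + 2 ≤ B.card ∧ B.card ≤ s + k),
        g B.card * ((n.choose (s + 1) : ℝ) / (n.choose B.card : ℝ)) := by
  have hn := hF.hn
  have h1 : ∀ D ∈ powersetCard (s + 1) (univ : Finset (Fin n)), bg F s k g D =
      ∑ B ∈ F.filter (fun B => s + 2 ≤ B.card ∧ B.card ≤ s + k),
        if Disjoint B D then g B.card / ((n - (s + 1)).choose B.card : ℝ) else 0 := by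
    intro D _
    unfold bg
    rw [← Finset.sum_filter, Finset.filter_filter]
    refine Finset.sum_congr ?_ (fun _ _ => rfl)
    refine Finset.filter_congr (fun B _ => ?_)
    tauto
  rw [Finset.sum_congr rfl h1, Finset.sum_comm]
  refine Finset.sum_congr rfl (fun B hB => ?_)
  obtain ⟨hBF, hB1, hB2⟩ := Finset.mem_filter.mp hB
  rw [← Finset.sum_filter, Finset.sum_const, nsmul_eq_mul]
  have hc : ((powersetCard (s + 1) (univ : Finset (Fin n))).filter (fun D => Disjoint B D)) =
      powersetCard (s + 1) Bᶜ := by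
    ext D
    simp only [mem_filter, mem_powersetCard, subset_univ, true_and]
    constructor
    · rintro ⟨h1, h2⟩
      exact ⟨fun x hx => by
        rw [mem_compl]
        exact fun hxB => (Finset.disjoint_left.mp h2) hxB hx, h1⟩
    · rintro ⟨h1, h2⟩
      refine ⟨h2, Finset.disjoint_left.mpr (fun x hx hxD => ?_)⟩
      exact (mem_compl.mp (h1 hxD)) hx
  rw [hc, card_powersetCard, card_compl, Fintype.card_fin]
  have hsw := choose_swap (n := n) (a := s + 1) (b := B.card)
  have hsw' : (n.choose (s + 1) : ℝ) * ((n - (s + 1)).choose B.card : ℝ) =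
      (n.choose B.card : ℝ) * ((n - B.card).choose (s + 1) : ℝ) := by exact_mod_cast hsw
  have p1 : (0 : ℝ) < ((n - (s + 1)).choose B.card : ℝ) := by
    exact_mod_cast Nat.choose_pos (by omega)
  have p2 : (0 : ℝ) < (n.choose B.card : ℝ) := by
    exact_mod_cast Nat.choose_pos (by omega)
  rw [mul_div_assoc', mul_div_assoc', div_eq_div_iff p1.ne' p2.ne']
  linear_combination (-(g B.card)) * hsw'

theorem sum_bg_split (hF : Nrm F s k) (g : ℕ → ℝ) :
    ∑ D ∈ powersetCard (s + 1) (univ : Finset (Fin n)), bg F s k g D =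
      ∑ D ∈ Nf F s, bg F s k g D + ∑ D ∈ Ff F s k, bg F s k g D := by
  have hd : Disjoint (Nf F s) (Ff F s k) := by
    refine Finset.disjoint_left.mpr (fun D h1 h2 => ?_)
    exact (mem_filter.mp h2).2.1 (mem_filter.mp h1).1
  rw [← Finset.sum_union hd]
  symm
  refine Finset.sum_subset ?_ ?_
  · intro D hD
    rcases Finset.mem_union.mp hD with h | h
    · exact (mem_filter.mp (mem_filter.mp h).1).1
    · exact (mem_filter.mp h).1
  · intro D hD hN
    have hDc : D.card = s + 1 := (mem_powersetCard.mp hD).2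
    by_cases hU : D ∈ Uf F s
    · have hDF : D ∈ F := by
        by_contra hc
        exact hN (Finset.mem_union_left _ (mem_filter.mpr ⟨hU, hc⟩))
      exact bg_mem hF g hDc hDF
    · unfold bg
      refine Finset.sum_eq_zero (fun B hB => ?_)
      exfalso
      obtain ⟨hBF, hB1, hB2, hB3⟩ := mem_filter.mp hB
      exact hN (Finset.mem_union_right _ (mem_filter.mpr ⟨hD, hU, B, hBF, hB1, hB2, hB3⟩))

end Pool.Agent.TPP
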