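import Pool.Agent.TPP.Defs

/-! # MP_f155e9_co, TPP: double counting of hit -/

set_option autoImplicit false

namespace Pool.Agent.TPP

open Finset

variable {n : ℕ} {F : Finset (Finset (Fin n))} {s k : ℕ}

private lemma filt_SumHit (hF : Nrm F s k) {A : Finset (Fin n)} (hA : A ∈ F)
    (hc : s + 2 ≤ A.card) :
    (Nf F s).filter (fun D => D ⊆ A) = powersetCard (s + 1) A := by
  ext D
  simp only [Nf, Uf, Qf, mem_filter, mem_powersetCard]
  constructor
  · rintro ⟨⟨⟨⟨_, h2⟩, _⟩, _⟩, h5⟩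
    exact ⟨h5, h2⟩
  · rintro ⟨h1, h2⟩
    refine ⟨⟨⟨⟨subset_univ _, h2⟩, A, ⟨hA, by omega⟩, h1⟩, ?_⟩, h1⟩
    intro hD
    by_cases hne : D = A
    · rw [hne] at h2
      omega
    · exact hF.ac (mem_coe.2 hD) (mem_coe.2 hA) hne h1

theorem sum_hit (hF : Nrm F s k) (g : ℕ → ℝ) :
    ∑ D ∈ Nf F s, hit F s g D =
      ∑ A ∈ F.filter (fun A => s + 2 ≤ A.card),
        g A.card * ((n.choose (s + 1) : ℝ) / (n.choose A.card : ℝ)) := by
  have h1 : ∀ D ∈ Nf F s, hit F s g D =
      ∑ A ∈ F.filter (fun A => s + 2 ≤ A.card),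
        if D ⊆ A then g A.card / ((n - (s + 1)).choose (A.card - (s + 1)) : ℝ) else 0 := by
    intro D hD
    have hDF : D ∉ F := (mem_filter.1 hD).2
    have hc : D.card = s + 1 := by
      have h := (mem_filter.1 (mem_filter.1 hD).1).1
      exact (mem_powersetCard.1 h).2
    unfold hit
    rw [← Finset.sum_filter, hc]
    refine Finset.sum_congr ?_ (fun _ _ => rfl)
    ext A
    simp only [Qf, mem_filter]
    constructor
    · rintro ⟨⟨hA, h1⟩, h2⟩
      refine ⟨⟨hA, ?_⟩, h2⟩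
      by_contra hcon
      have h3 : D = A := eq_of_subset_of_card_le h2 (by omega)
      exact hDF (h3 ▸ hA)
    · rintro ⟨⟨hA, h1⟩, h2⟩
      exact ⟨⟨hA, by omega⟩, h2⟩
  rw [sum_congr rfl h1, sum_comm]
  refine sum_congr rfl ?_
  intro A hA
  have hAF := (mem_filter.1 hA).1
  have hAc := (mem_filter.1 hA).2
  rw [← sum_filter, sum_const, nsmul_eq_mul, filt_SumHit hF hAF hAc, card_powersetCard]
  have hAn : A.card ≤ n := by
    have h := card_le_univ A
    rwa [Fintype.card_fin] at h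
  have h3 : n.choose A.card * A.card.choose (s + 1) =
      n.choose (s + 1) * (n - (s + 1)).choose (A.card - (s + 1)) :=
    Nat.choose_mul (by omega)
  have h3' : (n.choose A.card : ℝ) * (A.card.choose (s + 1) : ℝ) =
      (n.choose (s + 1) : ℝ) * ((n - (s + 1)).choose (A.card - (s + 1)) : ℝ) := by
    exact_mod_cast h3
  have h4 : (0 : ℝ) < (n.choose A.card : ℝ) := by
    exact_mod_cast Nat.choose_pos hAn
  have h5 : (0 : ℝ) < ((n - (s + 1)).choose (A.card - (s + 1)) : ℝ) := by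
    exact_mod_cast Nat.choose_pos (by omega)
  rw [mul_div_assoc', mul_div_assoc', div_eq_div_iff h5.ne' h4.ne']
  linear_combination g A.card * h3'

end Pool.Agent.TPP
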