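import Pool.Agent.TPP.Low
import Pool.Agent.TPP.SumBg
import Pool.Agent.TPP.SumHit
import Pool.Agent.TPP.Part
import Pool.Agent.TPP.IsoApp
import Pool.Agent.TPP.GainSum
import Pool.Agent.TPP.FarSum
import Pool.Agent.TPP.NearSum

/-! # MP_f155e9_co, TPP: assembly -/

set_option autoImplicit false

namespace Pool.Agent.TPP

open Finset

variable {n : ℕ} {F : Finset (Finset (Fin n))} {s k : ℕ}

theorem assembly (hF : Nrm F s k) (g : ℕ → ℝ) (hg : Num n s k g) : F.card ≤ n.choose s := by
  have hn := hF.hn
  have hk := hF.hk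
  have hCpos : (0 : ℝ) < (n.choose s : ℝ) := by
    exact_mod_cast Nat.choose_pos (by omega)
  have hC1pos : (0 : ℝ) < (n.choose (s + 1) : ℝ) := by
    exact_mod_cast Nat.choose_pos (by omega)
  have hr : 0 < R n s (s + 1) := div_pos hC1pos hCpos
  have h1 : (n.choose s : ℝ) = ((F.filter (fun A => A.card = s)).card : ℝ) +
      ((Mf F s).card : ℝ) + ((Uf F s).shadow.card : ℝ) + ((Yf F s).card : ℝ) := by
    exact_mod_cast partition_s hF
  have h2 : ((Lf F s).card : ℝ) = (Mf F s).card - ∑ T ∈ Mf F s, sl F s T := by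
    rw [card_L hF, sum_sub_distrib, sum_const, nsmul_eq_mul, mul_one]
  have h3 := iso_applied hF
  have h4 := gain_sum hF g hg.g0 hg.mid2 hg.mid3
  have h5 := far_sum hF g hg.g0 hg.mid4
  have h6 := near_sum hF g hg.g0 hg.mid5 hg.c0
  have h7 : ∑ T ∈ Mf F s, (sl F s T - th F s T / 2) =
      ∑ T ∈ Mf F s, sl F s T - (∑ T ∈ Mf F s, th F s T) / 2 := by
    rw [sum_sub_distrib, sum_div]
  have h8 : (∑ D ∈ Ff F s k, bg F s k g D * (1 - tf F s D)) / R n s (s + 1) +
      (∑ D ∈ Ff F s k, bg F s k g D * tf F s D) / R n s (s + 1) =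
      (∑ D ∈ Ff F s k, bg F s k g D) / R n s (s + 1) := by
    rw [← add_div, ← sum_add_distrib]
    congr 1
    exact sum_congr rfl fun D _ => by ring
  have h9 : (∑ D ∈ Nf F s, bg F s k g D) / R n s (s + 1) +
      (∑ D ∈ Ff F s k, bg F s k g D) / R n s (s + 1) =
      ∑ B ∈ F.filter (fun B => s + 2 ≤ B.card ∧ B.card ≤ s + k),
        g B.card * ((n.choose s : ℝ) / (n.choose B.card : ℝ)) := by
    rw [← add_div, ← sum_bg_split hF g, sum_bg hF g, sum_div]
    refine sum_congr rfl fun B _ => ?_
    unfold R
    field_simp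
  have h10 := sum_hit hF (fun a => 1 - 2 * Wt n s (s + 1) a)
  -- the members of size at least `s + 2`
  have h11 : ((F.filter (fun A => s + 2 ≤ A.card)).card : ℝ) ≤
      ∑ A ∈ F.filter (fun A => s + 2 ≤ A.card),
        (1 - 2 * Wt n s (s + 1) A.card) * ((n.choose (s + 1) : ℝ) / (n.choose A.card : ℝ)) +
      ∑ B ∈ F.filter (fun B => s + 2 ≤ B.card ∧ B.card ≤ s + k),
        g B.card * ((n.choose s : ℝ) / (n.choose B.card : ℝ)) +
      g (n - s) * ((F.filter (fun A => A.card = n - s)).card : ℝ) := by
    have e1 : ∑ B ∈ F.filter (fun B => s + 2 ≤ B.card ∧ B.card ≤ s + k),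
        g B.card * ((n.choose s : ℝ) / (n.choose B.card : ℝ)) =
        ∑ A ∈ F.filter (fun A => s + 2 ≤ A.card), if A.card ≤ s + k then
          g A.card * ((n.choose s : ℝ) / (n.choose A.card : ℝ)) else 0 := by
      rw [← sum_filter, filter_filter]
    have e2 : g (n - s) * ((F.filter (fun A => A.card = n - s)).card : ℝ) =
        ∑ A ∈ F.filter (fun A => s + 2 ≤ A.card), if A.card = n - s then g (n - s) else 0 := by
      rw [← sum_filter, filter_filter, sum_const, nsmul_eq_mul, mul_comm]
      congr 3
      ext A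
      simp only [mem_filter]
      constructor
      · rintro ⟨ha, hb⟩
        exact ⟨ha, by omega, hb⟩
      · rintro ⟨ha, _, hb⟩
        exact ⟨ha, hb⟩
    rw [e1, e2, ← sum_add_distrib, ← sum_add_distrib, card_eq_sum_ones, Nat.cast_sum]
    refine sum_le_sum fun A hA => ?_
    rw [mem_filter] at hA
    have hAn : A.card ≤ n := by simpa using card_le_univ A
    have hApos : (0 : ℝ) < (n.choose A.card : ℝ) := by
      exact_mod_cast Nat.choose_pos hAn
    have key : ∀ x y : ℝ, R n s A.card ≤ R n s (s + 1) * x + y →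
        1 ≤ x * ((n.choose (s + 1) : ℝ) / (n.choose A.card : ℝ)) +
          y * ((n.choose s : ℝ) / (n.choose A.card : ℝ)) := by
      intro x y h
      unfold R at h
      have h' : (n.choose A.card : ℝ) ≤ n.choose (s + 1) * x + y * n.choose s := by
        rw [div_le_iff₀ hCpos] at h
        have e : ((n.choose (s + 1) : ℝ) / (n.choose s : ℝ) * x + y) * (n.choose s : ℝ) =
            n.choose (s + 1) * x + y * n.choose s := by
          field_simp
        linarith
      have e : x * ((n.choose (s + 1) : ℝ) / (n.choose A.card : ℝ)) +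
          y * ((n.choose s : ℝ) / (n.choose A.card : ℝ)) =
          (n.choose (s + 1) * x + y * n.choose s) / n.choose A.card := by
        field_simp
      rw [e, le_div_iff₀ hApos, one_mul]
      exact h'
    rw [Nat.cast_one]
    by_cases hc1 : A.card ≤ n - s
    · have hm := key _ _ (hg.mid1 A.card hA.2 hc1)
      by_cases hc2 : A.card = n - s
      · have hne : ¬ A.card ≤ s + k := by omega
        have hone : (n.choose s : ℝ) / (n.choose A.card : ℝ) = 1 := by
          rw [hc2, Nat.choose_symm (by omega)]
          exact div_self hCpos.ne'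
        rw [if_neg hne, if_pos hc2]
        rw [hone] at hm
        rw [← hc2]
        linarith
      · have hle : A.card ≤ s + k := by omega
        rw [if_pos hle, if_neg hc2]
        linarith
    · have hm := key (1 - 2 * Wt n s (s + 1) A.card) 0 (by
        have := hg.hi A.card (by omega) hAn
        linarith)
      have hne : ¬ A.card ≤ s + k := by omega
      have hne2 : ¬ A.card = n - s := by omega
      rw [if_neg hne, if_neg hne2]
      linarith
  have h12 : (F.card : ℝ) = ((Lf F s).card : ℝ) + ((F.filter (fun A => A.card = s)).card : ℝ) +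
      ((F.filter (fun A => A.card = s + 1)).card : ℝ) +
      ((F.filter (fun A => s + 2 ≤ A.card)).card : ℝ) := by
    have : F.card = (Lf F s).card + (F.filter (fun A => A.card = s)).card +
        (F.filter (fun A => A.card = s + 1)).card +
        (F.filter (fun A => s + 2 ≤ A.card)).card := by
      unfold Lf
      simp only [card_filter]
      rw [card_eq_sum_ones, ← sum_add_distrib, ← sum_add_distrib, ← sum_add_distrib]
      refine sum_congr rfl fun A _ => ?_
      split_ifs <;> omega
    exact_mod_cast this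
  have h13 : (F.card : ℝ) ≤ (n.choose s : ℝ) := by
    linarith
  exact_mod_cast h13

end Pool.Agent.TPP
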