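import Mathlib

/-! # MP_f155e9_co, odd half, `n = 2 s + 1 + k`, all antichains, `k ^ 2 ≤ c n`: definitions

`F` is a family of subsets of `Fin n`, normalised (structure `Nrm`). Page: `/team-store/h44_tpp.md`.
`K` = the sets below a member of `F` of size `> s`. -/

set_option autoImplicit false

namespace Pool.Agent.TPP

open Finset

section measure

variable {α : Type*} [DecidableEq α]

/-- weight of a set of size `a` in an `m`-set: `1 / ((m + 1) C(m, a))` -/
noncomputable def mw (m a : ℕ) : ℝ := 1 / (((m : ℝ) + 1) * (m.choose a : ℝ))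

/-- expectation of `f` over the subsets of `S` with the weights `mw` -/
noncomputable def mE (S : Finset α) (f : Finset α → ℝ) : ℝ :=
  ∑ X ∈ S.powerset, mw S.card X.card * f X

end measure

variable {n : ℕ}

/-- the normalised families -/
structure Nrm (F : Finset (Finset (Fin n))) (s k : ℕ) : Prop where
  hn : n = 2 * s + 1 + k
  hk : 1 ≤ k
  ac : IsAntichain (· ⊆ ·) (F : Set (Finset (Fin n)))
  nc : ∀ A ∈ F, ∀ B ∈ F, A ∪ B ≠ univ
  dj : ∀ A ∈ F, ∀ B ∈ F, Disjoint A B → A.card + B.card ≤ 2 * s + 1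

/-- the members of size `> s` -/
def Qf (F : Finset (Finset (Fin n))) (s : ℕ) : Finset (Finset (Fin n)) :=
  F.filter (fun A => s + 1 ≤ A.card)

/-- the members of size `< s` -/
def Lf (F : Finset (Finset (Fin n))) (s : ℕ) : Finset (Finset (Fin n)) :=
  F.filter (fun A => A.card < s)

/-- the `s`-sets above a member of size `< s` -/
def Mf (F : Finset (Finset (Fin n))) (s : ℕ) : Finset (Finset (Fin n)) :=
  (powersetCard s (univ : Finset (Fin n))).filter (fun T => ∃ A ∈ Lf F s, A ⊆ T)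

/-- the `(s+1)`-sets below a member of size `> s` -/
def Uf (F : Finset (Finset (Fin n))) (s : ℕ) : Finset (Finset (Fin n)) :=
  (powersetCard (s + 1) (univ : Finset (Fin n))).filter (fun D => ∃ A ∈ Qf F s, D ⊆ A)

/-- the `(s+1)`-sets below a member of size `> s` which are no members -/
def Nf (F : Finset (Finset (Fin n))) (s : ℕ) : Finset (Finset (Fin n)) :=
  (Uf F s).filter (fun D => D ∉ F)

/-- the other `(s+1)`-sets which are disjoint from a member of size `s+2, ..., s+k` -/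
def Ff (F : Finset (Finset (Fin n))) (s k : ℕ) : Finset (Finset (Fin n)) :=
  (powersetCard (s + 1) (univ : Finset (Fin n))).filter
    (fun D => D ∉ Uf F s ∧ ∃ B ∈ F, s + 2 ≤ B.card ∧ B.card ≤ s + k ∧ Disjoint B D)

/-- the remaining `s`-sets -/
def Yf (F : Finset (Finset (Fin n))) (s : ℕ) : Finset (Finset (Fin n)) :=
  (powersetCard s (univ : Finset (Fin n))).filter
    (fun T => T ∉ F ∧ T ∉ Mf F s ∧ T ∉ (Uf F s).shadow)

open Classical in
/-- indicator of the up-set generated by the members of size `> s` and the sets of size `≥ n - s` -/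
noncomputable def vi (F : Finset (Finset (Fin n))) (s : ℕ) (X : Finset (Fin n)) : ℝ :=
  if (∃ A ∈ Qf F s, A ⊆ X) ∨ n ≤ X.card + s then 1 else 0

/-- the probability that `D ∪ Z` is outside this up-set, `Z` a random subset of the complement -/
noncomputable def eD (F : Finset (Finset (Fin n))) (s : ℕ) (D : Finset (Fin n)) : ℝ :=
  1 - mE Dᶜ (fun Z => vi F s (D ∪ Z))

/-- `∑ g(|A|) · P(random up-chain from D hits A)` over the members `A` of size `> s` above `D` -/
noncomputable def hit (F : Finset (Finset (Fin n))) (s : ℕ) (g : ℕ → ℝ) (D : Finset (Fin n)) : ℝ :=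
  ∑ A ∈ (Qf F s).filter (fun A => D ⊆ A), g A.card / ((n - D.card).choose (A.card - D.card) : ℝ)

/-- `∑ 1/(n-j+1)`, `m ≤ j < min a (n-s)` -/
noncomputable def Wt (n s m a : ℕ) : ℝ := ∑ j ∈ Ico m (min a (n - s)), 1 / ((n : ℝ) - j + 1)

/-- the loss for chains which miss the family -/
noncomputable def bp (s k : ℕ) : ℝ :=
  max (2 * ((k : ℝ) / ((s : ℝ) + k + 1))) ((k : ℝ) / ((s : ℝ) + k + 1) + 2 / ((s : ℝ) + 2))

/-- the part of the `y ∈ D` with `D - y` not above a small member -/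
noncomputable def tf (F : Finset (Finset (Fin n))) (s : ℕ) (D : Finset (Fin n)) : ℝ :=
  ((D.filter (fun y => D.erase y ∉ Mf F s)).card : ℝ) / ((s : ℝ) + 1)

/-- the probability that a random down-chain from `T` misses the small members -/
noncomputable def th (F : Finset (Finset (Fin n))) (s : ℕ) (T : Finset (Fin n)) : ℝ :=
  1 - ∑ A ∈ (Lf F s).filter (fun A => A ⊆ T), 1 / (s.choose A.card : ℝ)

/-- the same with the weights `C(n,|A|)/C(n,s)` -/
noncomputable def sl (F : Finset (Finset (Fin n))) (s : ℕ) (T : Finset (Fin n)) : ℝ :=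
  1 - ∑ A ∈ (Lf F s).filter (fun A => A ⊆ T),
    ((n.choose A.card : ℝ) / (n.choose s : ℝ)) / (s.choose A.card : ℝ)

/-- `∑ g(|B|) · P(the complementary chain hits B)` over the members `B` of size `s+2, ..., s+k`
which are disjoint from `D`, `|D| = s + 1` -/
noncomputable def bg (F : Finset (Finset (Fin n))) (s k : ℕ) (g : ℕ → ℝ) (D : Finset (Fin n)) : ℝ :=
  ∑ B ∈ F.filter (fun B => s + 2 ≤ B.card ∧ B.card ≤ s + k ∧ Disjoint B D),
    g B.card / ((n - (s + 1)).choose B.card : ℝ)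

/-- `C(n,m)/C(n,s)` -/
noncomputable def R (n s m : ℕ) : ℝ := (n.choose m : ℝ) / (n.choose s : ℝ)

/-- the numerical conditions for the gains `g` (a function of the size of a member) -/
structure Num (n s k : ℕ) (g : ℕ → ℝ) : Prop where
  g0 : ∀ a, 0 ≤ g a
  mid1 : ∀ a, s + 2 ≤ a → a ≤ n - s → R n s a ≤ R n s (s + 1) * (1 - 2 * Wt n s (s + 1) a) + g a
  mid2 : ∀ a, s + 2 ≤ a → a ≤ n - s → g a ≤ 1 - R n s (2 * s + 1 - a)
  mid3 : ∀ a, s + 2 ≤ a → a ≤ n - s → g a ≤ 1 / 2
  mid4 : ∀ a, s + 2 ≤ a → a ≤ s + k →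
    g a ≤ R n s (s + 1) * ((1 - 2 * ((k : ℝ) / ((s : ℝ) + k + 1))) / 2)
  mid5 : ∀ a, s + 2 ≤ a → a ≤ s + k →
    g a ≤ R n s (s + 1) * (1 - 2 * Wt n s (s + 1) (n - s) - 2 * bp s k)
  hi : ∀ a, n - s + 1 ≤ a → a ≤ n → R n s a ≤ R n s (s + 1) * (1 - 2 * Wt n s (s + 1) a)
  c0 : 0 ≤ 1 - 2 * Wt n s (s + 1) (n - s) - 2 * bp s k

end Pool.Agent.TPP
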