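import Pool.Agent.TPP.Mes

/-! # MP_f155e9_co, TPP: recursion for eD -/

set_option autoImplicit false

namespace Pool.Agent.TPP

open Finset

variable {n : ℕ} {F : Finset (Finset (Fin n))} {s k : ℕ}

private theorem vi_nonneg_ERec (X : Finset (Fin n)) : 0 ≤ vi F s X := by
  unfold vi
  split_ifs <;> norm_num

private theorem vi_mono_ERec {X Y : Finset (Fin n)} (h : X ⊆ Y) : vi F s X ≤ vi F s Y := by
  unfold vi
  by_cases hX : (∃ A ∈ Qf F s, A ⊆ X) ∨ n ≤ X.card + s
  · have hY : (∃ A ∈ Qf F s, A ⊆ Y) ∨ n ≤ Y.card + s := by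
      rcases hX with ⟨A, hA, hAX⟩ | hX
      · exact Or.inl ⟨A, hA, hAX.trans h⟩
      · have := card_le_card h
        exact Or.inr (by omega)
    rw [if_pos hX, if_pos hY]
  · rw [if_neg hX]
    split_ifs <;> norm_num

theorem eD_rec (D C : Finset (Fin n)) (hC : C ⊆ Dᶜ) :
    (1 + (C.card : ℝ)) * eD F s D ≤ 1 + ∑ y ∈ C, eD F s (insert y D) := by
  classical
  have h := tpp Dᶜ 0 (fun Z => vi F s (D ∪ Z)) (fun X => vi_nonneg_ERec _)
    (fun X Y hXY => vi_mono_ERec (union_subset_union_right hXY))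
    (fun E => if E ⊆ C then 1 else 0) (fun _ => 1)
    (fun E _ => by split_ifs <;> norm_num) (fun T _ => zero_le_one)
    (fun T _ y _ => by split_ifs <;> norm_num)
  rw [zero_add, powersetCard_one, sum_map, sum_map, powersetCard_zero, sum_singleton] at h
  simp only [Function.Embedding.coeFn_mk, singleton_subset_iff] at h
  have h1 : ∑ y ∈ Dᶜ, (if y ∈ C then (1 : ℝ) else 0) = C.card := by
    rw [← sum_filter, filter_mem_eq_inter, inter_eq_right.2 hC, sum_const, nsmul_eq_mul,
      mul_one]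
  have h2 : ∑ y ∈ Dᶜ, (if y ∈ C then (1 : ℝ) else 0) *
      mE (Dᶜ \ {y}) (fun Z => vi F s (D ∪ ({y} ∪ Z))) =
      ∑ y ∈ C, (1 - eD F s (insert y D)) := by
    rw [← sum_subset hC]
    · refine sum_congr rfl fun y hy => ?_
      rw [if_pos hy, one_mul, eD, sub_sub_cancel]
      have e1 : (insert y D)ᶜ = Dᶜ \ {y} := by
        ext z
        simp only [mem_compl, mem_insert, mem_sdiff, mem_singleton]
        tauto
      rw [e1]
      congr 1
      ext Z
      congr 1
      ext z
      simp only [mem_union, mem_insert, mem_singleton]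
      tauto
    · intro y _ hy
      rw [if_neg hy, zero_mul]
  rw [h1, h2, sum_sub_distrib, sum_const, nsmul_eq_mul, mul_one] at h
  have h3 : mE Dᶜ (fun Z => vi F s (D ∪ Z)) = 1 - eD F s D := by
    rw [eD]
    ring
  rw [h3] at h
  linarith

end Pool.Agent.TPP
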