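import Pool.Agent.TPP.Defs
import Pool.Agent.DiamEven.Weight

/-! # MP_f155e9_co, TPP: random up-chains -/

set_option autoImplicit false

namespace Pool.Agent.TPP

open Finset

variable {n : ℕ} {F : Finset (Finset (Fin n))} {s k : ℕ}

theorem hit_step (hF : Nrm F s k) (g : ℕ → ℝ) {D : Finset (Fin n)} (hD : D ∉ F)
    (hDc : D.card < n) :
    ((n : ℝ) - D.card) * hit F s g D = ∑ y ∈ Dᶜ, hit F s g (insert y D) := by
  have hQF : ∀ A ∈ Qf F s, A ∈ F := fun A hA => (Finset.mem_filter.1 hA).1
  -- the right side as a sum over the members above `D`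
  have h1 : ∀ y ∈ Dᶜ, hit F s g (insert y D) = ∑ A ∈ (Qf F s).filter (fun A => D ⊆ A),
      if y ∈ A then g A.card / ((n - (D.card + 1)).choose (A.card - (D.card + 1)) : ℝ) else 0 := by
    intro y hy
    rw [Finset.mem_compl] at hy
    unfold hit
    rw [← Finset.sum_filter, Finset.filter_filter, Finset.card_insert_of_notMem hy]
    refine Finset.sum_congr ?_ fun _ _ => rfl
    ext A
    rw [Finset.mem_filter, Finset.mem_filter, Finset.insert_subset_iff]
    tauto
  rw [Finset.sum_congr rfl h1, Finset.sum_comm]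
  unfold hit
  rw [Finset.mul_sum]
  refine Finset.sum_congr rfl fun A hA => ?_
  obtain ⟨hAQ, hDA⟩ := Finset.mem_filter.1 hA
  have hne : D ≠ A := by
    rintro rfl
    exact hD (hQF _ hAQ)
  have hlt : D.card < A.card := Finset.card_lt_card (lt_of_le_of_ne hDA hne)
  have hAn : A.card ≤ n := by
    have h2 := Finset.card_le_univ A
    rwa [Fintype.card_fin] at h2
  rw [← Finset.sum_filter, Finset.sum_const, nsmul_eq_mul]
  have h3 : Dᶜ.filter (fun y => y ∈ A) = A \ D := by
    ext y
    rw [Finset.mem_filter, Finset.mem_compl, Finset.mem_sdiff]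
    tauto
  rw [h3, Finset.card_sdiff_of_subset hDA]
  obtain ⟨p, hp⟩ : ∃ p, A.card = D.card + 1 + p := ⟨A.card - (D.card + 1), by omega⟩
  obtain ⟨q, hq⟩ : ∃ q, n = D.card + 1 + q := ⟨n - (D.card + 1), by omega⟩
  have e1 : A.card - D.card = p + 1 := by omega
  have e2 : n - D.card = q + 1 := by omega
  have e3 : A.card - (D.card + 1) = p := by omega
  have e4 : n - (D.card + 1) = q := by omega
  have e5 : (n : ℝ) - D.card = (q : ℝ) + 1 := by
    have h4 : (n : ℝ) = (D.card : ℝ) + 1 + q := by exact_mod_cast hq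
    rw [h4]
    ring
  rw [e1, e2, e3, e4, e5]
  have h5 : ((q : ℝ) + 1) * (q.choose p : ℝ) = ((q + 1).choose (p + 1) : ℝ) * ((p : ℝ) + 1) := by
    have h6 := Nat.add_one_mul_choose_eq q p
    exact_mod_cast h6
  have hpq : p ≤ q := by omega
  have h7 : ((q.choose p : ℕ) : ℝ) ≠ 0 := by
    exact_mod_cast (Nat.choose_pos hpq).ne'
  have h8 : (((q + 1).choose (p + 1) : ℕ) : ℝ) ≠ 0 := by
    exact_mod_cast (Nat.choose_pos (Nat.succ_le_succ hpq)).ne'
  push_cast
  field_simp
  linear_combination (g A.card) * h5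

theorem hit_mem (hF : Nrm F s k) (g : ℕ → ℝ) {D : Finset (Fin n)} (hD : D ∈ Qf F s) :
    hit F s g D = g D.card := by
  have hQF : ∀ A ∈ Qf F s, A ∈ F := fun A hA => (Finset.mem_filter.1 hA).1
  have h1 : (Qf F s).filter (fun A => D ⊆ A) = {D} := by
    ext A
    rw [Finset.mem_filter, Finset.mem_singleton]
    constructor
    · rintro ⟨hA, hDA⟩
      by_contra hne
      exact hF.ac (hQF D hD) (hQF A hA) (fun h => hne h.symm) hDA
    · rintro rfl
      exact ⟨hD, subset_rfl⟩
  unfold hit
  rw [h1, Finset.sum_singleton, Nat.sub_self, Nat.choose_zero_right, Nat.cast_one, div_one]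

theorem hit_one_le (hF : Nrm F s k) (D : Finset (Fin n)) : hit F s (fun _ => 1) D ≤ 1 := by
  have hQF : ∀ A ∈ Qf F s, A ∈ F := fun A hA => (Finset.mem_filter.1 hA).1
  set G := (Qf F s).filter (fun A => D ⊆ A) with hG
  have hinj : Set.InjOn (fun A : Finset (Fin n) => A \ D) (G : Set (Finset (Fin n))) := by
    intro A hA B hB h
    rw [Finset.mem_coe, hG, Finset.mem_filter] at hA hB
    have h' : A \ D = B \ D := h
    rw [← Finset.sdiff_union_of_subset hA.2, ← Finset.sdiff_union_of_subset hB.2, h']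
  have h1 := DiamEven.lym_on Dᶜ (G.image (fun A => A \ D)) (by
    intro X hX Y hY hne hsub
    rw [Finset.mem_coe, Finset.mem_image] at hX hY
    obtain ⟨A, hA, rfl⟩ := hX
    obtain ⟨B, hB, rfl⟩ := hY
    rw [hG, Finset.mem_filter] at hA hB
    refine hF.ac (hQF A hA.1) (hQF B hB.1) (fun h => hne (by rw [h])) ?_
    rw [← Finset.sdiff_union_of_subset hA.2, ← Finset.sdiff_union_of_subset hB.2]
    exact Finset.union_subset_union hsub subset_rfl) (by
    intro X hX
    rw [Finset.mem_image] at hX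
    obtain ⟨A, _, rfl⟩ := hX
    intro x hx
    rw [Finset.mem_sdiff] at hx
    exact Finset.mem_compl.2 hx.2)
  rw [Finset.sum_image hinj] at h1
  refine le_trans (le_of_eq ?_) h1
  unfold hit
  refine Finset.sum_congr rfl fun A hA => ?_
  rw [hG, Finset.mem_filter] at hA
  rw [Finset.card_sdiff_of_subset hA.2, Finset.card_compl, Fintype.card_fin]

end Pool.Agent.TPP
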