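import Pool.Agent.TPP.ED
import Pool.Agent.TPP.ERec
import Pool.Agent.TPP.Hit

/-! # MP_f155e9_co, TPP: upper bound for eD -/

set_option autoImplicit false

namespace Pool.Agent.TPP

open Finset

variable {n : ℕ} {F : Finset (Finset (Fin n))} {s k : ℕ}

private theorem Wt_nonneg (n s m a : ℕ) : 0 ≤ Wt n s m a := by
  unfold Wt
  apply Finset.sum_nonneg
  intro j hj
  have h1 : j < min a (n - s) := (Finset.mem_Ico.1 hj).2
  have h2 : j ≤ n := by
    have := min_le_right a (n - s)
    omega
  have h3 : (j : ℝ) ≤ n := by exact_mod_cast h2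
  apply one_div_nonneg.2
  linarith

private theorem Wt_step {n s m a : ℕ} (h1 : m < a) (h2 : m < n - s) :
    Wt n s m a = Wt n s (m + 1) a + 1 / ((n : ℝ) - m + 1) := by
  unfold Wt
  rw [Finset.sum_eq_sum_Ico_succ_bot (lt_min h1 h2)]
  ring

private theorem hit_nonneg {g : ℕ → ℝ} (hg : ∀ a, 0 ≤ g a) (D : Finset (Fin n)) :
    0 ≤ hit F s g D := by
  unfold hit
  apply Finset.sum_nonneg
  intro A _
  exact div_nonneg (hg _) (Nat.cast_nonneg _)

private theorem hit_zero {g : ℕ → ℝ} {D : Finset (Fin n)} (h : ¬ ∃ A ∈ Qf F s, D ⊆ A) :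
    hit F s g D = 0 := by
  unfold hit
  apply Finset.sum_eq_zero
  intro A hA
  exact absurd ⟨A, (Finset.mem_filter.1 hA).1, (Finset.mem_filter.1 hA).2⟩ h

private theorem bp_pos (s k : ℕ) : 0 ≤ bp s k ∧ 2 * ((k : ℝ) / ((s : ℝ) + k + 1)) ≤ bp s k ∧
    (k : ℝ) / ((s : ℝ) + k + 1) + 2 / ((s : ℝ) + 2) ≤ bp s k := by
  have h1 : (0 : ℝ) ≤ (k : ℝ) / ((s : ℝ) + k + 1) := by positivity
  unfold bp
  refine ⟨le_trans ?_ (le_max_left _ _), le_max_left _ _, le_max_right _ _⟩
  linarith

/-- the step of the induction, real numbers only -/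
private theorem step_real {H c e S h w W b e0 q : ℝ} (hH : 0 < H) (hcH : c ≤ H)
    (hcI : c = H ∨ c + 1 ≤ H) (hc2 : H < 2 * c) (he0 : 0 ≤ e0)
    (h1 : (1 + c) * e ≤ 1 + S) (hS0 : 0 ≤ S) (hS1 : S ≤ c * e0)
    (hS2 : S ≤ H * w + (c - H * h) * (W + b)) (hW : 0 ≤ W) (hq : 2 / (H + 1) ≤ q)
    (hb : e0 + q ≤ b) :
    e ≤ w + 1 / (H + 1) + (1 - h) * (W + b) := by
  have hc1 : 0 < 1 + c := by linarith
  have hH1 : 0 < H + 1 := by linarith
  -- first: e ≤ 1/(1+c) + S/H + (1-c/H) e0
  have e1 : e ≤ 1 / (1 + c) + S / (1 + c) := by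
    rw [← add_div, le_div_iff₀ hc1]
    linarith
  have e2 : S / (1 + c) ≤ S / H + (1 - c / H) * e0 := by
    have hx : S / H + (1 - c / H) * e0 = (S + (H - c) * e0) / H := by
      field_simp
    rw [hx, div_le_div_iff₀ hc1 hH]
    rcases hcI with hc | hc
    · subst hc
      nlinarith
    · have h2 : S * (H - 1 - c) ≤ c * e0 * (H - 1 - c) :=
        mul_le_mul_of_nonneg_right hS1 (by linarith)
      nlinarith [mul_nonneg he0 (by linarith : (0 : ℝ) ≤ H - 1 - c)]
  have e3 : S / H ≤ w + (c / H - h) * (W + b) := by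
    rw [div_le_iff₀ hH]
    have hx : (w + (c / H - h) * (W + b)) * H = H * w + (c - H * h) * (W + b) := by
      field_simp
    rw [hx]
    exact hS2
  have e4 : 1 / (1 + c) ≤ 1 / (H + 1) + (1 - c / H) * (2 / (H + 1)) := by
    have hx : 1 / (H + 1) + (1 - c / H) * (2 / (H + 1)) = (H + 2 * (H - c)) / (H * (H + 1)) := by
      field_simp
    rw [hx, div_le_div_iff₀ hc1 (by positivity)]
    nlinarith [mul_nonneg (by linarith : (0 : ℝ) ≤ H - c) (by linarith : (0 : ℝ) ≤ 2 * c - H)]
  have hcq : c / H ≤ 1 := (div_le_one hH).2 hcH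
  have e5 : (1 - c / H) * (2 / (H + 1)) ≤ (1 - c / H) * q :=
    mul_le_mul_of_nonneg_left hq (by linarith)
  have e6 : 0 ≤ (1 - c / H) * (b + W - q - e0) :=
    mul_nonneg (by linarith) (by linarith)
  have e7 : w + 1 / (H + 1) + (1 - h) * (W + b) -
      (1 / (H + 1) + (1 - c / H) * q + (w + (c / H - h) * (W + b)) + (1 - c / H) * e0) =
      (1 - c / H) * (b + W - q - e0) := by ring
  linarith

private theorem bound_aux (hF : Nrm F s k) (N : ℕ) :
    ∀ D : Finset (Fin n), n - D.card = N → s + 1 ≤ D.card → (∃ A ∈ Qf F s, D ⊆ A) →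
    eD F s D ≤ hit F s (Wt n s D.card) D +
      (1 - hit F s (fun _ => 1) D) * (Wt n s D.card (n - s) + bp s k) := by
  induction N using Nat.strong_induction_on with
  | _ N IH =>
    intro D hN hD hDK
    obtain ⟨hb0, hb1, hb2⟩ := bp_pos s k
    have hh1 := hit_one_le hF D
    have hrhs : 0 ≤ hit F s (Wt n s D.card) D +
        (1 - hit F s (fun _ => 1) D) * (Wt n s D.card (n - s) + bp s k) := by
      have h1 := hit_nonneg (F := F) (s := s) (fun a => Wt_nonneg n s D.card a) D
      have h2 := Wt_nonneg n s D.card (n - s)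
      have h3 : 0 ≤ (1 - hit F s (fun _ => 1) D) * (Wt n s D.card (n - s) + bp s k) :=
        mul_nonneg (by linarith) (by linarith)
      linarith
    by_cases hcase : D ∈ Qf F s ∨ n ≤ D.card + s
    · have h0 : eD F s D = 0 := by
        apply eD_zero
        rcases hcase with h | h
        · exact Or.inl ⟨D, h, Finset.Subset.refl D⟩
        · exact Or.inr h
      rw [h0]
      exact hrhs
    push Not at hcase
    obtain ⟨hDQ, hDn⟩ := hcase
    have hDF : D ∉ F := fun h => hDQ (Finset.mem_filter.2 ⟨h, hD⟩)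
    have hDlt : D.card < n := by omega
    classical
    set C : Finset (Fin n) := Dᶜ.filter (fun y => ∃ A ∈ Qf F s, insert y D ⊆ A) with hC
    have hCs : C ⊆ Dᶜ := Finset.filter_subset _ _
    have hDc : (Dᶜ).card = n - D.card := by
      rw [Finset.card_compl, Fintype.card_fin]
    have hCc : C.card ≤ n - D.card := by
      rw [← hDc]
      exact Finset.card_le_card hCs
    set H : ℝ := (n : ℝ) - D.card with hHdef
    have hHn : H = ((n - D.card : ℕ) : ℝ) := by
      rw [Nat.cast_sub hDlt.le]
    have hHpos : 0 < H := by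
      have : (D.card : ℝ) < n := by exact_mod_cast hDlt
      linarith
    have hHs : (s : ℝ) + 2 ≤ H + 1 := by
      have : s + D.card + 1 ≤ n := by omega
      have h2 : (s : ℝ) + D.card + 1 ≤ n := by exact_mod_cast this
      linarith
    -- hit as a sum over C
    have hsum : ∀ g : ℕ → ℝ, H * hit F s g D = ∑ y ∈ C, hit F s g (insert y D) := by
      intro g
      rw [hHdef, hit_step hF g hDF hDlt, hC, Finset.sum_filter]
      apply Finset.sum_congr rfl
      intro y _
      split_ifs with h
      · rfl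
      · exact hit_zero h
    have hcard : ∀ y ∈ C, (insert y D).card = D.card + 1 := by
      intro y hy
      apply Finset.card_insert_of_notMem
      exact Finset.mem_compl.1 (hCs hy)
    have hCH : (C.card : ℝ) ≤ H := by
      rw [hHn]
      exact_mod_cast hCc
    have hone : H * hit F s (fun _ => 1) D ≤ C.card := by
      rw [hsum]
      calc ∑ y ∈ C, hit F s (fun _ => 1) (insert y D) ≤ ∑ y ∈ C, (1 : ℝ) :=
            Finset.sum_le_sum (fun y _ => hit_one_le hF (insert y D))
        _ = C.card := by simp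
    have he0 : (0 : ℝ) ≤ (k : ℝ) / ((s : ℝ) + k + 1) := by positivity
    have heD := eD_le hF.hn (F := F) hD
    by_cases hc2 : 2 * (C.card : ℝ) ≤ H
    · have hhalf : hit F s (fun _ => 1) D ≤ 1 / 2 := by
        have : H * hit F s (fun _ => 1) D ≤ H * (1 / 2) := by linarith
        exact le_of_mul_le_mul_left this hHpos
      have h1 := hit_nonneg (F := F) (s := s) (fun a => Wt_nonneg n s D.card a) D
      have h2 := Wt_nonneg n s D.card (n - s)
      have h3 : (1 / 2 : ℝ) * (Wt n s D.card (n - s) + bp s k) ≤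
          (1 - hit F s (fun _ => 1) D) * (Wt n s D.card (n - s) + bp s k) :=
        mul_le_mul_of_nonneg_right (by linarith) (by linarith)
      linarith
    push Not at hc2
    have hrec := eD_rec (F := F) (s := s) D C hCs
    have hS0 : 0 ≤ ∑ y ∈ C, eD F s (insert y D) :=
      Finset.sum_nonneg (fun y _ => eD_nonneg _)
    have hS1 : ∑ y ∈ C, eD F s (insert y D) ≤ C.card * ((k : ℝ) / ((s : ℝ) + k + 1)) := by
      calc ∑ y ∈ C, eD F s (insert y D) ≤ ∑ y ∈ C, (k : ℝ) / ((s : ℝ) + k + 1) := by
            apply Finset.sum_le_sum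
            intro y hy
            apply eD_le hF.hn
            rw [hcard y hy]
            omega
        _ = C.card * ((k : ℝ) / ((s : ℝ) + k + 1)) := by
            rw [Finset.sum_const, nsmul_eq_mul]
    have hS2 : ∑ y ∈ C, eD F s (insert y D) ≤ H * hit F s (Wt n s (D.card + 1)) D +
        ((C.card : ℝ) - H * hit F s (fun _ => 1) D) *
          (Wt n s (D.card + 1) (n - s) + bp s k) := by
      have h1 : ∀ y ∈ C, eD F s (insert y D) ≤ hit F s (Wt n s (D.card + 1)) (insert y D) +
          (1 - hit F s (fun _ => 1) (insert y D)) *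
            (Wt n s (D.card + 1) (n - s) + bp s k) := by
        intro y hy
        have h2 := IH (n - (insert y D).card) (by rw [hcard y hy]; omega) (insert y D) rfl
          (by rw [hcard y hy]; omega) (Finset.mem_filter.1 hy).2
        rw [hcard y hy] at h2
        exact h2
      calc ∑ y ∈ C, eD F s (insert y D) ≤ ∑ y ∈ C, (hit F s (Wt n s (D.card + 1)) (insert y D) +
          (1 - hit F s (fun _ => 1) (insert y D)) *
            (Wt n s (D.card + 1) (n - s) + bp s k)) := Finset.sum_le_sum h1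
        _ = _ := by
          rw [Finset.sum_add_distrib, ← Finset.sum_mul, Finset.sum_sub_distrib, hsum, hsum]
          simp
    -- weights at D
    have hms : D.card < n - s := by omega
    have hWn : Wt n s D.card (n - s) = Wt n s (D.card + 1) (n - s) + 1 / (H + 1) :=
      Wt_step hms hms
    have hWD : hit F s (Wt n s D.card) D =
        hit F s (Wt n s (D.card + 1)) D + hit F s (fun _ => 1) D * (1 / (H + 1)) := by
      unfold hit
      rw [Finset.sum_mul, ← Finset.sum_add_distrib]
      apply Finset.sum_congr rfl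
      intro A hA
      obtain ⟨hA1, hA2⟩ := Finset.mem_filter.1 hA
      have hlt : D.card < A.card := by
        apply Finset.card_lt_card
        refine hA2.ssubset_of_ne ?_
        rintro rfl
        exact hDQ hA1
      rw [Wt_step hlt hms, ← hHdef]
      ring
    have hcI : (C.card : ℝ) = H ∨ (C.card : ℝ) + 1 ≤ H := by
      rcases Nat.lt_or_ge C.card (n - D.card) with h | h
      · right
        rw [hHn]
        exact_mod_cast h
      · left
        rw [hHn]
        exact_mod_cast le_antisymm hCc h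
    have hq : 2 / (H + 1) ≤ 2 / ((s : ℝ) + 2) :=
      div_le_div_of_nonneg_left (by norm_num) (by positivity) hHs
    have hfin := step_real (e := eD F s D) (S := ∑ y ∈ C, eD F s (insert y D))
      (h := hit F s (fun _ => 1) D) (w := hit F s (Wt n s (D.card + 1)) D)
      (W := Wt n s (D.card + 1) (n - s)) (b := bp s k) (e0 := (k : ℝ) / ((s : ℝ) + k + 1))
      (q := 2 / ((s : ℝ) + 2)) hHpos hCH hcI hc2 he0 hrec hS0 hS1 hS2
      (Wt_nonneg _ _ _ _) hq hb2
    rw [hWD, hWn]
    have hlast : hit F s (Wt n s (D.card + 1)) D + hit F s (fun _ => 1) D * (1 / (H + 1)) +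
        (1 - hit F s (fun _ => 1) D) *
          (Wt n s (D.card + 1) (n - s) + 1 / (H + 1) + bp s k) =
        hit F s (Wt n s (D.card + 1)) D + 1 / (H + 1) +
        (1 - hit F s (fun _ => 1) D) * (Wt n s (D.card + 1) (n - s) + bp s k) := by ring
    rw [hlast]
    exact hfin

theorem eD_bound (hF : Nrm F s k) {D : Finset (Fin n)} (hD : s + 1 ≤ D.card)
    (hDK : ∃ A ∈ Qf F s, D ⊆ A) :
    eD F s D ≤ hit F s (Wt n s D.card) D +
      (1 - hit F s (fun _ => 1) D) * (Wt n s D.card (n - s) + bp s k) :=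
  bound_aux hF _ D rfl hD hDK

end Pool.Agent.TPP
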