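import Pool.Agent.TPP.Mes

/-! # MP_f155e9_co, TPP: first facts on eD -/

set_option autoImplicit false

namespace Pool.Agent.TPP

open Finset

variable {n : ℕ} {F : Finset (Finset (Fin n))} {s k : ℕ}

private theorem vi_le_one_ED (X : Finset (Fin n)) : vi F s X ≤ 1 := by
  unfold vi
  split_ifs <;> norm_num

private theorem eD_eq_ED (D : Finset (Fin n)) :
    eD F s D = mE Dᶜ (fun Z => 1 - vi F s (D ∪ Z)) := by
  have h1 : eD F s D = mE Dᶜ (fun _ => (1 : ℝ)) - mE Dᶜ (fun Z => vi F s (D ∪ Z)) := by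
    rw [mE_one, eD]
  rw [h1, mE, mE, mE, ← Finset.sum_sub_distrib]
  refine Finset.sum_congr rfl fun X _ => ?_
  ring

private theorem mE_lt_ED (S : Finset (Fin n)) (t : ℕ) (ht : t ≤ S.card + 1) :
    mE S (fun Z => if Z.card < t then (1 : ℝ) else 0) = (t : ℝ) / ((S.card : ℝ) + 1) := by
  have h1 : mE S (fun Z => if Z.card < t then (1 : ℝ) else 0) =
      ∑ j ∈ range (S.card + 1), (S.card.choose j) • (mw S.card j * (if j < t then (1 : ℝ) else 0)) :=
    Finset.sum_powerset_apply_card fun j => mw S.card j * (if j < t then (1 : ℝ) else 0)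
  have h2 : ∀ j ∈ range (S.card + 1),
      (S.card.choose j) • (mw S.card j * (if j < t then (1 : ℝ) else 0)) =
        if j < t then 1 / ((S.card : ℝ) + 1) else 0 := by
    intro j hj
    have hj' : j ≤ S.card := Nat.lt_succ_iff.1 (Finset.mem_range.1 hj)
    have hc : ((S.card.choose j : ℕ) : ℝ) ≠ 0 :=
      Nat.cast_ne_zero.2 (Nat.choose_pos hj').ne'
    have hm : ((S.card : ℝ) + 1) ≠ 0 := by positivity
    rw [nsmul_eq_mul]
    split_ifs with h
    · rw [mw]
      field_simp
    · ring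
  rw [h1, Finset.sum_congr rfl h2, ← Finset.sum_filter, Finset.sum_const]
  have h3 : (range (S.card + 1)).filter (fun j => j < t) = range t := by
    ext j
    simp only [Finset.mem_filter, Finset.mem_range]
    omega
  rw [h3, Finset.card_range, nsmul_eq_mul]
  ring

theorem eD_nonneg (D : Finset (Fin n)) : 0 ≤ eD F s D := by
  have h := mE_mono (S := Dᶜ) (f := fun Z => vi F s (D ∪ Z)) (g := fun _ => (1 : ℝ))
    fun X _ => vi_le_one_ED _
  rw [mE_one] at h
  rw [eD]
  linarith

theorem eD_zero {D : Finset (Fin n)} (h : (∃ A ∈ Qf F s, A ⊆ D) ∨ n ≤ D.card + s) :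
    eD F s D = 0 := by
  have h1 : ∀ Z : Finset (Fin n), vi F s (D ∪ Z) = 1 := by
    intro Z
    rw [vi, if_pos]
    rcases h with ⟨A, hA, hAD⟩ | h
    · exact Or.inl ⟨A, hA, hAD.trans Finset.subset_union_left⟩
    · right
      have := Finset.card_le_card (Finset.subset_union_left : D ⊆ D ∪ Z)
      omega
  rw [eD]
  simp only [h1]
  rw [mE_one, sub_self]

theorem eD_apriori {D : Finset (Fin n)} (h : D.card + s ≤ n) :
    eD F s D ≤ ((n : ℝ) - s - D.card) / ((n : ℝ) - D.card + 1) := by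
  have hc : (Dᶜ : Finset (Fin n)).card = n - D.card := by
    rw [Finset.card_compl, Fintype.card_fin]
  have h1 : eD F s D ≤ mE Dᶜ (fun Z => if Z.card < n - s - D.card then (1 : ℝ) else 0) := by
    rw [eD_eq_ED]
    refine mE_mono fun Z hZ => ?_
    have hd : Disjoint D Z := Finset.disjoint_left.2 fun x hx hx' =>
      (Finset.mem_compl.1 (hZ hx')) hx
    by_cases hlt : Z.card < n - s - D.card
    · rw [if_pos hlt, vi]
      split_ifs <;> norm_num
    · rw [if_neg hlt, vi, if_pos, sub_self]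
      right
      rw [Finset.card_union_of_disjoint hd]
      omega
  rw [mE_lt_ED _ _ (by omega)] at h1
  refine h1.trans (le_of_eq ?_)
  have e1 : ((n - s - D.card : ℕ) : ℝ) = (n : ℝ) - s - D.card := by
    rw [Nat.cast_sub (by omega), Nat.cast_sub (by omega)]
  have e2 : ((n - D.card : ℕ) : ℝ) = (n : ℝ) - D.card := by
    rw [Nat.cast_sub (by omega)]
  rw [hc, e1, e2]

theorem eD_le (hn : n = 2 * s + 1 + k) {D : Finset (Fin n)} (hD : s + 1 ≤ D.card) :
    eD F s D ≤ (k : ℝ) / ((s : ℝ) + k + 1) := by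
  have hs : (0 : ℝ) ≤ s := Nat.cast_nonneg s
  have hk : (0 : ℝ) ≤ k := Nat.cast_nonneg k
  by_cases hDn : D.card + s ≤ n
  · refine (eD_apriori hDn).trans ?_
    have hD' : (s : ℝ) + 1 ≤ D.card := by exact_mod_cast hD
    have hn' : (n : ℝ) = 2 * s + 1 + k := by rw [hn]; push_cast; ring
    have hDn' : (D.card : ℝ) + s ≤ n := by exact_mod_cast hDn
    rw [div_le_div_iff₀ (by linarith) (by linarith), hn']
    nlinarith
  · rw [eD_zero (Or.inr (by omega))]
    positivity

end Pool.Agent.TPP
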