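import Pool.Agent.TPP.Theta

/-! # MP_f155e9_co, TPP: the gain at the s-sets above small members -/

set_option autoImplicit false

namespace Pool.Agent.TPP

open Finset

variable {n : ℕ} {F : Finset (Finset (Fin n))} {s k : ℕ}

private theorem choose_mono_Gain {n s : ℕ} (hn : 2 * s ≤ n) {a b : ℕ} (hab : a ≤ b)
    (hb : b ≤ s) : n.choose a ≤ n.choose b := by
  induction b, hab using Nat.le_induction with
  | base => exact le_refl _
  | succ b _ ih => exact (ih (by omega)).trans (Nat.choose_le_succ_of_lt_half_left (by omega))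

private theorem mem_L_Gain {T A : Finset (Fin n)} (hA : A ∈ (Lf F s).filter (fun A => A ⊆ T)) :
    A ∈ F ∧ A.card < s ∧ A ⊆ T := by
  have h1 := mem_filter.1 hA
  have h2 := mem_filter.1 h1.1
  exact ⟨h2.1, h2.2, h1.2⟩

/-- `sl` is large if all ratios are at most `r` -/
private theorem sl_ge_Gain (T : Finset (Fin n)) {r : ℝ}
    (h : ∀ A ∈ (Lf F s).filter (fun A => A ⊆ T), R n s A.card ≤ r) :
    1 - r * (1 - th F s T) ≤ sl F s T := by
  have h1 : ∑ A ∈ (Lf F s).filter (fun A => A ⊆ T),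
      ((n.choose A.card : ℝ) / (n.choose s : ℝ)) / (s.choose A.card : ℝ) ≤
      r * ∑ A ∈ (Lf F s).filter (fun A => A ⊆ T), 1 / (s.choose A.card : ℝ) := by
    rw [mul_sum]
    refine sum_le_sum fun A hA => ?_
    rw [div_eq_mul_one_div]
    refine mul_le_mul_of_nonneg_right (h A hA) ?_
    positivity
  unfold sl th
  linarith

theorem gain_nonneg (hF : Nrm F s k) {T : Finset (Fin n)} (hT : T ∈ Mf F s) :
    th F s T / 2 ≤ sl F s T := by
  have hc : T.card = s := (mem_powersetCard.1 (mem_filter.1 hT).1).2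
  have h0 := th_nonneg hF T hc
  have hn := hF.hn
  have h1 : 1 - 1 * (1 - th F s T) ≤ sl F s T := by
    refine sl_ge_Gain T fun A hA => ?_
    have h2 := (mem_L_Gain hA).2.1
    have h3 : (n.choose A.card : ℝ) ≤ (n.choose s : ℝ) := by
      exact_mod_cast choose_mono_Gain (s := s) (by omega) h2.le (le_refl s)
    have h4 : (0 : ℝ) < (n.choose s : ℝ) := by
      exact_mod_cast Nat.choose_pos (by omega : s ≤ n)
    unfold R
    rw [div_le_one h4]
    exact h3
  linarith

theorem gain_ge (hF : Nrm F s k) {T : Finset (Fin n)} (hT : T ∈ Mf F s) {B : Finset (Fin n)}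
    (hB : B ∈ F) (hB1 : s + 2 ≤ B.card) (hB2 : B.card ≤ n - s) (hBT : Disjoint B T) {x : ℝ}
    (hx : x ≤ 1 / 2) (hx2 : x ≤ 1 - R n s (2 * s + 1 - B.card)) :
    x ≤ sl F s T - th F s T / 2 := by
  have hc : T.card = s := (mem_powersetCard.1 (mem_filter.1 hT).1).2
  have h0 := th_nonneg hF T hc
  have h0' := th_le_one (F := F) (s := s) T
  have hn := hF.hn
  have h4 : (0 : ℝ) < (n.choose s : ℝ) := by
    exact_mod_cast Nat.choose_pos (by omega : s ≤ n)
  have h1 : 1 - R n s (2 * s + 1 - B.card) * (1 - th F s T) ≤ sl F s T := by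
    refine sl_ge_Gain T fun A hA => ?_
    obtain ⟨hA1, hA2, hA3⟩ := mem_L_Gain hA
    have hd : Disjoint A B := (hBT.symm).mono_left hA3
    have h2 := hF.dj A hA1 B hB hd
    have h3 : (n.choose A.card : ℝ) ≤ (n.choose (2 * s + 1 - B.card) : ℝ) := by
      exact_mod_cast choose_mono_Gain (s := s) (by omega) (by omega) (by omega)
    unfold R
    exact div_le_div_of_nonneg_right h3 h4.le
  by_cases hr : 1 / 2 ≤ R n s (2 * s + 1 - B.card)
  · nlinarith [mul_nonneg (sub_nonneg.2 hr) h0]
  · push Not at hr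
    nlinarith [mul_nonneg (sub_nonneg.2 hr.le) (sub_nonneg.2 h0')]

end Pool.Agent.TPP
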