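import Pool.Agent.TPP.Mes

/-! # MP_f155e9_co, TPP: no two complementary sets -/

set_option autoImplicit false

namespace Pool.Agent.TPP

open Finset

variable {n : ℕ} {F : Finset (Finset (Fin n))} {s k : ℕ}

/-- a set and its complement are not both in the up-set -/
private theorem vi_compl_Half (hF : Nrm F s k) (X : Finset (Fin n)) :
    vi F s X + vi F s Xᶜ ≤ 1 := by
  have hc : X.card + Xᶜ.card = n := by
    rw [card_add_card_compl, Fintype.card_fin]
  have hn := hF.hn
  unfold vi
  by_cases h1 : (∃ A ∈ Qf F s, A ⊆ X) ∨ n ≤ X.card + s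
  · have h2 : ¬ ((∃ A ∈ Qf F s, A ⊆ Xᶜ) ∨ n ≤ Xᶜ.card + s) := by
      rintro (⟨B, hB, hBX⟩ | hX')
      · have hB' := mem_filter.1 hB
        rcases h1 with ⟨A, hA, hAX⟩ | hX
        · have hA' := mem_filter.1 hA
          have hd : Disjoint A B :=
            (disjoint_compl_right (a := X)).mono hAX hBX
          have := hF.dj A hA'.1 B hB'.1 hd
          omega
        · have := card_le_card hBX
          omega
      · rcases h1 with ⟨A, hA, hAX⟩ | hX
        · have hA' := mem_filter.1 hA
          have := card_le_card hAX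
          omega
        · omega
    rw [if_pos h1, if_neg h2]
    norm_num
  · rw [if_neg h1]
    split_ifs <;> norm_num

private theorem mw_compl_Half (X : Finset (Fin n)) :
    mw (univ : Finset (Fin n)).card Xᶜ.card = mw (univ : Finset (Fin n)).card X.card := by
  have hc : X.card + Xᶜ.card = n := by
    rw [card_add_card_compl, Fintype.card_fin]
  rw [card_univ, Fintype.card_fin]
  unfold mw
  have h : n.choose Xᶜ.card = n.choose X.card := by
    rw [← Nat.choose_symm (by omega : X.card ≤ n)]
    congr 1
    omega
  rw [h]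

theorem half (hF : Nrm F s k) : mE univ (vi F s) ≤ 1 / 2 := by
  have h1 : mE univ (fun X => vi F s Xᶜ) = mE (univ : Finset (Fin n)) (vi F s) := by
    unfold mE
    rw [powerset_univ]
    rw [← Equiv.sum_comp (compl_involutive (α := Finset (Fin n))).toPerm
      (fun X => mw (univ : Finset (Fin n)).card X.card * vi F s X)]
    refine sum_congr rfl fun X _ => ?_
    change _ = mw (univ : Finset (Fin n)).card Xᶜ.card * vi F s Xᶜ
    rw [mw_compl_Half]
  have h2 : mE (univ : Finset (Fin n)) (fun X => vi F s X + vi F s Xᶜ) ≤ 1 := by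
    rw [← mE_one (univ : Finset (Fin n))]
    exact mE_mono fun X _ => vi_compl_Half hF X
  have h3 : mE (univ : Finset (Fin n)) (fun X => vi F s X + vi F s Xᶜ) =
      mE univ (vi F s) + mE univ (fun X => vi F s Xᶜ) := by
    unfold mE
    rw [← sum_add_distrib]
    refine sum_congr rfl fun X _ => ?_
    ring
  rw [h3, h1] at h2
  linarith

end Pool.Agent.TPP
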