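import Pool.Agent.TPP.Mes
import Pool.Agent.TPP.Half

/-! # MP_f155e9_co, TPP: weighted isoperimetry -/

set_option autoImplicit false

namespace Pool.Agent.TPP

open Finset

variable {n : ℕ} {F : Finset (Finset (Fin n))} {s k : ℕ}

private theorem vi_nonneg_Iso (F : Finset (Finset (Fin n))) (s : ℕ) (X : Finset (Fin n)) :
    0 ≤ vi F s X := by
  unfold vi
  split_ifs <;> norm_num

private theorem vi_mono_Iso (F : Finset (Finset (Fin n))) (s : ℕ) (X Y : Finset (Fin n))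
    (hXY : X ⊆ Y) : vi F s X ≤ vi F s Y := by
  by_cases h : (∃ A ∈ Qf F s, A ⊆ X) ∨ n ≤ X.card + s
  · have h' : (∃ A ∈ Qf F s, A ⊆ Y) ∨ n ≤ Y.card + s := by
      rcases h with ⟨A, hA, hAX⟩ | h
      · exact Or.inl ⟨A, hA, hAX.trans hXY⟩
      · exact Or.inr (h.trans (Nat.add_le_add_right (card_le_card hXY) s))
    unfold vi
    rw [if_pos h, if_pos h']
  · have h0 : vi F s X = 0 := by
      unfold vi
      rw [if_neg h]
    rw [h0]
    exact vi_nonneg_Iso F s Y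

theorem iso (hF : Nrm F s k) (φ ψ : Finset (Fin n) → ℝ)
    (hφ : ∀ D ∈ powersetCard (s + 1) (univ : Finset (Fin n)), 0 ≤ φ D)
    (hψ : ∀ T ∈ powersetCard s (univ : Finset (Fin n)), 0 ≤ ψ T)
    (h : ∀ T ∈ powersetCard s (univ : Finset (Fin n)), ∀ y ∉ T, φ (insert y T) ≤ ψ T) :
    ∑ D ∈ powersetCard (s + 1) (univ : Finset (Fin n)), φ D * (1 - 2 * eD F s D) ≤
      ∑ T ∈ powersetCard s (univ : Finset (Fin n)), ψ T := by
  have h1 := tpp (univ : Finset (Fin n)) s (vi F s) (vi_nonneg_Iso F s) (vi_mono_Iso F s) φ ψ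
    hφ hψ (fun T hT y hy => h T hT y (mem_sdiff.1 hy).2)
  have h2 := half hF
  have hs1 : 0 ≤ ∑ D ∈ powersetCard (s + 1) (univ : Finset (Fin n)), φ D := sum_nonneg hφ
  have hs2 : 0 ≤ ∑ T ∈ powersetCard s (univ : Finset (Fin n)), ψ T := sum_nonneg hψ
  have h3 : ∑ D ∈ powersetCard (s + 1) (univ : Finset (Fin n)), φ D * (1 - 2 * eD F s D) =
      2 * (∑ D ∈ powersetCard (s + 1) (univ : Finset (Fin n)),
        φ D * mE (univ \ D) (fun Z => vi F s (D ∪ Z))) -
      ∑ D ∈ powersetCard (s + 1) (univ : Finset (Fin n)), φ D := by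
    rw [mul_sum, ← sum_sub_distrib]
    refine sum_congr rfl fun D _ => ?_
    rw [← compl_eq_univ_sdiff]
    unfold eD
    ring
  rw [h3]
  nlinarith [mul_le_mul_of_nonneg_left h2 (add_nonneg hs1 hs2)]

end Pool.Agent.TPP
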