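import Pool.Agent.TPP.Defs

/-! # MP_f155e9_co, TPP: the small members -/

set_option autoImplicit false

namespace Pool.Agent.TPP

open Finset

variable {n : ℕ} {F : Finset (Finset (Fin n))} {s k : ℕ}

/-- the number of `s`-sets above a set -/
private theorem card_above_Low (A : Finset (Fin n)) (s : ℕ) (h : A.card ≤ s) :
    ((powersetCard s (univ : Finset (Fin n))).filter (fun T => A ⊆ T)).card =
      (n - A.card).choose (s - A.card) := by
  have h1 : ((powersetCard s (univ : Finset (Fin n))).filter (fun T => A ⊆ T)).card =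
      (powersetCard (s - A.card) Aᶜ).card := by
    refine Finset.card_bij' (fun T _ => T \ A) (fun U _ => U ∪ A) ?_ ?_ ?_ ?_
    · intro T hT
      rw [mem_filter, mem_powersetCard] at hT
      rw [mem_powersetCard]
      refine ⟨fun x hx => ?_, ?_⟩
      · rw [mem_compl]
        exact (mem_sdiff.1 hx).2
      · rw [card_sdiff_of_subset hT.2, hT.1.2]
    · intro U hU
      rw [mem_powersetCard] at hU
      rw [mem_filter, mem_powersetCard]
      have hd : Disjoint U A := by
        rw [Finset.disjoint_left]
        intro x hx hxA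
        exact (mem_compl.1 (hU.1 hx)) hxA
      refine ⟨⟨subset_univ _, ?_⟩, subset_union_right⟩
      rw [card_union_of_disjoint hd, hU.2]
      omega
    · intro T hT
      rw [mem_filter] at hT
      exact sdiff_union_of_subset hT.2
    · intro U hU
      rw [mem_powersetCard] at hU
      have hd : Disjoint U A := by
        rw [Finset.disjoint_left]
        intro x hx hxA
        exact (mem_compl.1 (hU.1 hx)) hxA
      show (U ∪ A) \ A = U
      rw [union_sdiff_right]
      exact sdiff_eq_self_of_disjoint hd
  rw [h1, card_powersetCard, card_compl, Fintype.card_fin]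

theorem card_L (hF : Nrm F s k) : ((Lf F s).card : ℝ) = ∑ T ∈ Mf F s, (1 - sl F s T) := by
  have hsn : s ≤ n := by have := hF.hn; omega
  have h1 : ∀ T ∈ Mf F s, (1 - sl F s T) = ∑ A ∈ Lf F s,
      if A ⊆ T then ((n.choose A.card : ℝ) / (n.choose s : ℝ)) / (s.choose A.card : ℝ) else 0 := by
    intro T _
    unfold sl
    rw [sub_sub_cancel, Finset.sum_filter]
  rw [Finset.sum_congr rfl h1, Finset.sum_comm]
  have h2 : ∀ A ∈ Lf F s, (∑ T ∈ Mf F s,
      if A ⊆ T then ((n.choose A.card : ℝ) / (n.choose s : ℝ)) / (s.choose A.card : ℝ) else 0) =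
      1 := by
    intro A hA
    have hAs : A.card < s := (mem_filter.1 hA).2
    have h3 : (Mf F s).filter (fun T => A ⊆ T) =
        (powersetCard s (univ : Finset (Fin n))).filter (fun T => A ⊆ T) := by
      ext T
      unfold Mf
      simp only [mem_filter]
      constructor
      · rintro ⟨⟨h4, _⟩, h5⟩
        exact ⟨h4, h5⟩
      · rintro ⟨h4, h5⟩
        exact ⟨⟨h4, A, hA, h5⟩, h5⟩
    rw [← Finset.sum_filter, h3, Finset.sum_const, card_above_Low A s hAs.le, nsmul_eq_mul]
    have h6 : n.choose s * s.choose A.card = n.choose A.card * (n - A.card).choose (s - A.card) :=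
      Nat.choose_mul hAs.le
    have h7 : (n.choose s : ℝ) * (s.choose A.card : ℝ) =
        (n.choose A.card : ℝ) * ((n - A.card).choose (s - A.card) : ℝ) := by exact_mod_cast h6
    have h8 : (n.choose s : ℝ) ≠ 0 := by
      exact_mod_cast (Nat.choose_pos hsn).ne'
    have h9 : (s.choose A.card : ℝ) ≠ 0 := by
      exact_mod_cast (Nat.choose_pos hAs.le).ne'
    field_simp
    linarith
  rw [Finset.sum_congr rfl h2, Finset.sum_const, nsmul_eq_mul, mul_one]

end Pool.Agent.TPP
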