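import Pool.Agent.TPP.Defs

/-! # MP_f155e9_co, TPP: T++ and the measure -/

set_option autoImplicit false

namespace Pool.Agent.TPP

open Finset

variable {α : Type*} [DecidableEq α]

theorem mw_nonneg (m a : ℕ) : 0 ≤ mw m a := by
  unfold mw; positivity

theorem mE_mono {S : Finset α} {f g : Finset α → ℝ} (h : ∀ X ⊆ S, f X ≤ g X) :
    mE S f ≤ mE S g := by
  unfold mE
  exact Finset.sum_le_sum fun X hX =>
    mul_le_mul_of_nonneg_left (h X (mem_powerset.1 hX)) (mw_nonneg _ _)

theorem mE_nonneg {S : Finset α} {f : Finset α → ℝ} (h : ∀ X ⊆ S, 0 ≤ f X) : 0 ≤ mE S f := by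
  unfold mE
  exact Finset.sum_nonneg fun X hX => mul_nonneg (mw_nonneg _ _) (h X (mem_powerset.1 hX))

theorem mE_congr {S : Finset α} {f g : Finset α → ℝ} (h : ∀ X ⊆ S, f X = g X) :
    mE S f = mE S g := by
  unfold mE
  exact Finset.sum_congr rfl fun X hX => by rw [h X (mem_powerset.1 hX)]

theorem mE_add (S : Finset α) (f g : Finset α → ℝ) :
    mE S (fun X => f X + g X) = mE S f + mE S g := by
  unfold mE
  rw [← Finset.sum_add_distrib]
  exact Finset.sum_congr rfl fun X _ => by ring

theorem mE_mul (S : Finset α) (c : ℝ) (f : Finset α → ℝ) :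
    mE S (fun X => c * f X) = c * mE S f := by
  unfold mE
  rw [Finset.mul_sum]
  exact Finset.sum_congr rfl fun X _ => by ring

private lemma mw_one {m a : ℕ} (h : a ≤ m) :
    mw (m + 1) (a + 1) = mw m a * (((a : ℝ) + 1) / ((m : ℝ) + 2)) := by
  unfold mw
  have h1 : ((m : ℝ) + 1) * (m.choose a : ℝ) = ((m + 1).choose (a + 1) : ℝ) * ((a : ℝ) + 1) := by
    exact_mod_cast Nat.add_one_mul_choose_eq m a
  have h2 : (0 : ℝ) < (m.choose a : ℝ) := by exact_mod_cast Nat.choose_pos h
  have h3 : (0 : ℝ) < ((m + 1).choose (a + 1) : ℝ) := by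
    exact_mod_cast Nat.choose_pos (by omega)
  have h4 : (0 : ℝ) < (a : ℝ) + 1 := by positivity
  rw [h1]
  push_cast
  field_simp
  ring

private lemma mw_zero {m a : ℕ} (h : a ≤ m) :
    mw (m + 1) a = mw m a * (((m : ℝ) + 1 - a) / ((m : ℝ) + 2)) := by
  unfold mw
  have h1 : (m.choose a : ℝ) * ((m : ℝ) + 1) = ((m + 1).choose a : ℝ) * ((m : ℝ) + 1 - a) := by
    have := Nat.choose_mul_succ_eq m a
    have h' : (((m.choose a) * (m + 1) : ℕ) : ℝ) = (((m + 1).choose a * (m + 1 - a) : ℕ) : ℝ) := by
      exact_mod_cast this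
    rw [Nat.cast_mul, Nat.cast_mul, Nat.cast_sub (by omega)] at h'
    push_cast at h'
    exact h'
  have h2 : (0 : ℝ) < (m.choose a : ℝ) := by exact_mod_cast Nat.choose_pos h
  have h3 : (0 : ℝ) < ((m + 1).choose a : ℝ) := by
    exact_mod_cast Nat.choose_pos (by omega)
  have h4 : (0 : ℝ) < (m : ℝ) + 1 - a := by
    have : (a : ℝ) ≤ m := by exact_mod_cast h
    linarith
  rw [mul_comm ((m : ℝ) + 1) (m.choose a : ℝ), h1]
  push_cast
  field_simp
  ring

/-- adding a point (Polya urn) -/
theorem mE_step {S : Finset α} {x : α} (hx : x ∈ S) (f : Finset α → ℝ) :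
    mE S f = mE (S.erase x) (fun X => (((X.card : ℝ) + 1) * f (insert x X) +
      ((S.card : ℝ) - X.card) * f X) / ((S.card : ℝ) + 1)) := by
  have hS : S.card = (S.erase x).card + 1 := (card_erase_add_one hx).symm
  have hxe : x ∉ S.erase x := notMem_erase x S
  unfold mE
  have hp : S.powerset = (insert x (S.erase x)).powerset := by rw [insert_erase hx]
  rw [hS, hp, Finset.sum_powerset_insert hxe, ← Finset.sum_add_distrib]
  refine Finset.sum_congr rfl fun X hX => ?_
  have hX' := mem_powerset.1 hX
  have hxX : x ∉ X := fun h => hxe (hX' h)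
  rw [card_insert_of_notMem hxX, mw_one (card_le_card hX'), mw_zero (card_le_card hX')]
  push_cast
  have : ((S.erase x).card : ℝ) + 2 ≠ 0 := by positivity
  have h2 : ((S.erase x).card : ℝ) + 1 + 1 = (S.erase x).card + 2 := by ring
  rw [h2]
  field_simp
  ring

theorem mE_one (S : Finset α) : mE S (fun _ => 1) = 1 := by
  induction S using Finset.induction_on with
  | empty => simp [mE, mw]
  | insert x S hx ih =>
    rw [mE_step (mem_insert_self x S), erase_insert hx]
    conv_rhs => rw [← ih]
    refine mE_congr fun X hX => ?_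
    have : (((insert x S).card : ℝ) + 1) ≠ 0 := by positivity
    field_simp
    ring

private lemma sum_powersetCard_insert {S : Finset α} {x : α} (hx : x ∉ S) (r : ℕ)
    (g : Finset α → ℝ) :
    ∑ D ∈ powersetCard (r + 1) (insert x S), g D =
      ∑ D ∈ powersetCard (r + 1) S, g D + ∑ D ∈ powersetCard r S, g (insert x D) := by
  rw [powersetCard_succ_insert hx, sum_union, sum_image]
  · intro D hD E hE h
    have h1 : x ∉ D := fun h => hx ((mem_powersetCard.1 hD).1 h)
    have h2 : x ∉ E := fun h => hx ((mem_powersetCard.1 hE).1 h)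
    rw [← erase_insert h1, ← erase_insert h2, h]
  · rw [Finset.disjoint_left]
    intro D hD hD'
    obtain ⟨E, _, rfl⟩ := mem_image.1 hD'
    exact hx ((mem_powersetCard.1 hD).1 (mem_insert_self x E))

/-- weighted local LYM -/
private lemma local_lym {S : Finset α} {r : ℕ} {φ ψ : Finset α → ℝ}
    (h : ∀ T ∈ powersetCard r S, ∀ y ∈ S \ T, φ (insert y T) ≤ ψ T) (hr : r ≤ S.card) :
    ((r : ℝ) + 1) * ∑ D ∈ powersetCard (r + 1) S, φ D ≤
      ((S.card : ℝ) - r) * ∑ T ∈ powersetCard r S, ψ T := by
  have h1 : ∑ T ∈ powersetCard r S, ∑ y ∈ S \ T, φ (insert y T) =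
      ∑ D ∈ powersetCard (r + 1) S, ∑ y ∈ D, φ D := by
    rw [sum_sigma', sum_sigma']
    refine sum_bij' (fun p _ => ⟨insert p.2 p.1, p.2⟩) (fun p _ => ⟨p.1.erase p.2, p.2⟩)
      ?_ ?_ ?_ ?_ ?_
    · rintro ⟨T, y⟩ hp
      simp only [mem_sigma, mem_powersetCard, mem_sdiff] at hp ⊢
      exact ⟨⟨insert_subset hp.2.1 hp.1.1, by rw [card_insert_of_notMem hp.2.2, hp.1.2]⟩,
        mem_insert_self _ _⟩
    · rintro ⟨D, y⟩ hp
      simp only [mem_sigma, mem_powersetCard, mem_sdiff] at hp ⊢
      exact ⟨⟨(erase_subset _ _).trans hp.1.1, by rw [card_erase_of_mem hp.2, hp.1.2]; rfl⟩,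
        hp.1.1 hp.2, notMem_erase _ _⟩
    · rintro ⟨T, y⟩ hp
      simp only [mem_sigma, mem_powersetCard, mem_sdiff] at hp
      simp only [erase_insert hp.2.2]
    · rintro ⟨D, y⟩ hp
      simp only [mem_sigma, mem_powersetCard, mem_sdiff] at hp
      simp only [insert_erase hp.2]
    · rintro ⟨T, y⟩ _
      rfl
  have h2 : ∑ D ∈ powersetCard (r + 1) S, ∑ y ∈ D, φ D =
      ((r : ℝ) + 1) * ∑ D ∈ powersetCard (r + 1) S, φ D := by
    rw [mul_sum]
    refine sum_congr rfl fun D hD => ?_
    rw [sum_const, (mem_powersetCard.1 hD).2, nsmul_eq_mul]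
    push_cast
    ring
  rw [← h2, ← h1, mul_sum]
  refine sum_le_sum fun T hT => ?_
  calc ∑ y ∈ S \ T, φ (insert y T) ≤ ∑ y ∈ S \ T, ψ T := sum_le_sum fun y hy => h T hT y hy
    _ = ((S.card : ℝ) - r) * ψ T := by
        rw [sum_const, card_sdiff_of_subset (mem_powersetCard.1 hT).1, (mem_powersetCard.1 hT).2,
          nsmul_eq_mul, Nat.cast_sub hr]

/-- the degree sum -/
private lemma deg_sum {S : Finset α} (r : ℕ) (g : Finset α → ℝ) :
    ∑ x ∈ S, ∑ D ∈ (powersetCard r S).filter (fun D => x ∈ D), g D =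
      (r : ℝ) * ∑ D ∈ powersetCard r S, g D := by
  simp_rw [sum_filter]
  rw [sum_comm, mul_sum]
  refine sum_congr rfl fun D hD => ?_
  rw [← sum_filter]
  have : S.filter (fun x => x ∈ D) = D := by
    ext x
    simp only [mem_filter]
    exact ⟨fun h => h.2, fun h => ⟨(mem_powersetCard.1 hD).1 h, h⟩⟩
  rw [this, sum_const, (mem_powersetCard.1 hD).2, nsmul_eq_mul]

private lemma exists_x {m : ℕ} {S : Finset α} (hS : S.card = m + 1) {r : ℕ} (hr : r ≤ m)
    {φ ψ : Finset α → ℝ}
    (h : ∀ T ∈ powersetCard r S, ∀ y ∈ S \ T, φ (insert y T) ≤ ψ T) :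
    ∃ x ∈ S, ((m : ℝ) + 2) * (∑ D ∈ (powersetCard (r + 1) S).filter (fun D => x ∈ D), φ D +
      ∑ T ∈ (powersetCard r S).filter (fun T => x ∈ T), ψ T) ≤
      ((r : ℝ) + 1) * (∑ D ∈ powersetCard (r + 1) S, φ D + ∑ T ∈ powersetCard r S, ψ T) := by
  have hne : S.Nonempty := by rw [← card_pos]; omega
  refine exists_le_of_sum_le hne ?_
  rw [← mul_sum, sum_add_distrib, deg_sum, deg_sum, sum_const, hS, nsmul_eq_mul]
  have h1 := local_lym h (by omega)
  rw [hS] at h1
  push_cast at h1 ⊢
  nlinarith

private lemma filt_one {S : Finset α} {x : α} (hx : x ∈ S) (r : ℕ) (g : Finset α → ℝ) :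
    ∑ D ∈ (powersetCard (r + 1) S).filter (fun D => x ∈ D), g D =
      ∑ D ∈ powersetCard r (S.erase x), g (insert x D) := by
  rw [sum_filter]
  conv_lhs => rw [← insert_erase hx]
  rw [sum_powersetCard_insert (notMem_erase x S)]
  have h1 : ∑ D ∈ powersetCard (r + 1) (S.erase x), (if x ∈ D then g D else 0) = 0 := by
    refine sum_eq_zero fun D hD => ?_
    have : x ∉ D := fun h => notMem_erase x S ((mem_powersetCard.1 hD).1 h)
    rw [if_neg this]
  rw [h1, zero_add]
  refine sum_congr rfl fun D _ => ?_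
  rw [if_pos (mem_insert_self x D)]

private lemma link_zero {S D : Finset α} {x : α} {m r : ℕ} (hS : S.card = m + 1) (hx : x ∈ S)
    (hD : D ∈ powersetCard (r + 1) (S.erase x)) (f : Finset α → ℝ) :
    mE (S \ D) (fun Z => f (D ∪ Z)) =
      mE ((S.erase x) \ D) (fun Z => (fun X : Finset α => if r + 1 ≤ X.card then
        (((X.card : ℝ) - r) * f (insert x X) + ((m : ℝ) + 1 - X.card) * f X) /
          ((m : ℝ) + 1 - r) else 0) (D ∪ Z)) := by
  obtain ⟨hD1, hD2⟩ := mem_powersetCard.1 hD
  have hxD : x ∉ D := fun h => notMem_erase x S (hD1 h)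
  have hxS : x ∈ S \ D := mem_sdiff.2 ⟨hx, hxD⟩
  have hDS : D ⊆ S := hD1.trans (erase_subset _ _)
  have hc : (S \ D).card = m + 1 - (r + 1) := by rw [card_sdiff_of_subset hDS, hS, hD2]
  have hrm : r + 1 ≤ m := by
    have := card_le_card hD1
    rw [hD2, card_erase_of_mem hx, hS] at this
    omega
  rw [mE_step hxS]
  have he : (S \ D).erase x = S.erase x \ D := by
    ext y; simp only [mem_erase, mem_sdiff]; tauto
  rw [he]
  refine mE_congr fun Z hZ => ?_
  have hdis : Disjoint D Z := by
    rw [Finset.disjoint_left]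
    intro y hy hyZ
    exact (mem_sdiff.1 (hZ hyZ)).2 hy
  have hcu : (D ∪ Z).card = r + 1 + Z.card := by rw [card_union_of_disjoint hdis, hD2]
  have hle : r + 1 ≤ (D ∪ Z).card := by omega
  simp only [if_pos hle]
  have h1 : D ∪ insert x Z = insert x (D ∪ Z) := by
    ext y; simp only [mem_union, mem_insert]; tauto
  rw [h1, hcu, hc, Nat.cast_sub (by omega)]
  push_cast
  congr 1
  · ring
  · ring

private lemma aux (m : ℕ) : ∀ (S : Finset α), S.card = m → ∀ (r : ℕ) (f : Finset α → ℝ),
    (∀ X ⊆ S, 0 ≤ f X) → (∀ X Y, X ⊆ Y → Y ⊆ S → f X ≤ f Y) →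
    (∀ X, X.card < r + 1 → f X = 0) → ∀ (φ ψ : Finset α → ℝ),
    (∀ D ∈ powersetCard (r + 1) S, 0 ≤ φ D) → (∀ T ∈ powersetCard r S, 0 ≤ ψ T) →
    (∀ T ∈ powersetCard r S, ∀ y ∈ S \ T, φ (insert y T) ≤ ψ T) →
    ∑ D ∈ powersetCard (r + 1) S, φ D * mE (S \ D) (fun Z => f (D ∪ Z)) ≤
      (∑ D ∈ powersetCard (r + 1) S, φ D + ∑ T ∈ powersetCard r S, ψ T) * mE S f := by
  induction m with
  | zero =>
    intro S hS r f hf0 hfm hfr φ ψ hφ hψ h
    have : powersetCard (r + 1) S = ∅ := powersetCard_eq_empty.2 (by omega)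
    rw [this, sum_empty, sum_empty, zero_add]
    exact mul_nonneg (sum_nonneg hψ) (mE_nonneg hf0)
  | succ m ih =>
    intro S hS r f hf0 hfm hfr φ ψ hφ hψ h
    rcases Nat.lt_or_ge m r with hr | hr
    · have : powersetCard (r + 1) S = ∅ := powersetCard_eq_empty.2 (by omega)
      rw [this, sum_empty, sum_empty, zero_add]
      exact mul_nonneg (sum_nonneg hψ) (mE_nonneg hf0)
    obtain ⟨x, hx, hxN⟩ := exists_x hS hr h
    have hxe : x ∉ S.erase x := notMem_erase x S
    have hS' : (S.erase x).card = m := by rw [card_erase_of_mem hx, hS]; rfl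
    have hsub : S.erase x ⊆ S := erase_subset _ _
    set f0 : Finset α → ℝ := fun X => if r + 1 ≤ X.card then
        (((X.card : ℝ) - r) * f (insert x X) + ((m : ℝ) + 1 - X.card) * f X) /
          ((m : ℝ) + 1 - r) else 0 with hf0def
    set f1 : Finset α → ℝ := fun X => f (insert x X) with hf1def
    have hmr : (0 : ℝ) < (m : ℝ) + 1 - r := by
      have : (r : ℝ) ≤ m := by exact_mod_cast hr
      linarith
    have hins : ∀ {X : Finset α}, X ⊆ S.erase x → insert x X ⊆ S := fun hX =>
      insert_subset hx (hX.trans hsub)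
    have hcardX : ∀ {X : Finset α}, X ⊆ S.erase x → (X.card : ℝ) ≤ m := fun hX => by
      have := card_le_card hX
      rw [hS'] at this
      exact_mod_cast this
    -- the numbers
    set N0 : ℝ := ∑ D ∈ powersetCard (r + 1) (S.erase x), φ D +
      ∑ T ∈ powersetCard r (S.erase x), ψ T with hN0
    set N1 : ℝ := ∑ D ∈ (powersetCard (r + 1) S).filter (fun D => x ∈ D), φ D +
      ∑ T ∈ (powersetCard r S).filter (fun T => x ∈ T), ψ T with hN1
    have hN : ∑ D ∈ powersetCard (r + 1) S, φ D + ∑ T ∈ powersetCard r S, ψ T = N0 + N1 := by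
      have e1 : ∀ (j : ℕ) (g : Finset α → ℝ), ∑ D ∈ powersetCard j S, g D =
          ∑ D ∈ powersetCard j (S.erase x), g D +
            ∑ D ∈ (powersetCard j S).filter (fun D => x ∈ D), g D := by
        intro j g
        rw [← sum_filter_add_sum_filter_not (powersetCard j S) (fun D => x ∈ D), add_comm]
        congr 1
        refine sum_congr ?_ fun _ _ => rfl
        ext D
        simp only [mem_filter, mem_powersetCard, subset_erase]
        tauto
      rw [e1 (r + 1) φ, e1 r ψ, hN0, hN1]
      ring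
    have hN0' : 0 ≤ N0 := add_nonneg
      (sum_nonneg fun D hD => hφ D (powersetCard_mono hsub hD))
      (sum_nonneg fun D hD => hψ D (powersetCard_mono hsub hD))
    have hN1' : 0 ≤ N1 := add_nonneg
      (sum_nonneg fun D hD => hφ D (mem_filter.1 hD).1)
      (sum_nonneg fun D hD => hψ D (mem_filter.1 hD).1)
    rw [hN] at hxN ⊢
    -- sections
    have hsplit : ∑ D ∈ powersetCard (r + 1) S, φ D * mE (S \ D) (fun Z => f (D ∪ Z)) =
        ∑ D ∈ powersetCard (r + 1) (S.erase x),
          φ D * mE ((S.erase x) \ D) (fun Z => f0 (D ∪ Z)) +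
        ∑ D ∈ powersetCard r (S.erase x),
          φ (insert x D) * mE ((S.erase x) \ D) (fun Z => f1 (D ∪ Z)) := by
      conv_lhs => rw [← insert_erase hx]
      rw [sum_powersetCard_insert hxe]
      congr 1
      · refine sum_congr rfl fun D hD => ?_
        rw [insert_erase hx, link_zero hS hx hD]
      · refine sum_congr rfl fun D hD => ?_
        have hxD : x ∉ D := fun h => hxe ((mem_powersetCard.1 hD).1 h)
        have : insert x (S.erase x) \ insert x D = S.erase x \ D := by
          ext y
          simp only [mem_sdiff, mem_insert, mem_erase]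
          constructor
          · rintro ⟨h1, h2⟩
            tauto
          · rintro ⟨h1, h2⟩
            refine ⟨Or.inr h1, ?_⟩
            tauto
        rw [this]
        congr 1
        refine mE_congr fun Z _ => ?_
        simp only [hf1def, insert_union]
    -- induction hypotheses
    have h0 : ∑ D ∈ powersetCard (r + 1) (S.erase x),
          φ D * mE ((S.erase x) \ D) (fun Z => f0 (D ∪ Z)) ≤ N0 * mE (S.erase x) f0 := by
      refine ih (S.erase x) hS' r f0 ?_ ?_ ?_ φ ψ
        (fun D hD => hφ D (powersetCard_mono hsub hD))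
        (fun D hD => hψ D (powersetCard_mono hsub hD))
        (fun T hT y hy => h T (powersetCard_mono hsub hT) y (sdiff_subset_sdiff hsub
          (Subset.refl T) hy))
      · intro X hX
        simp only [hf0def]
        split_ifs with hc
        · have h1 := hcardX hX
          have h2 : (r : ℝ) ≤ X.card := by exact_mod_cast (by omega : r ≤ X.card)
          exact div_nonneg (add_nonneg (mul_nonneg (by linarith) (hf0 _ (hins hX)))
            (mul_nonneg (by linarith) (hf0 _ (hX.trans hsub)))) hmr.le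
        · exact le_rfl
      · intro X Y hXY hY
        have hX := hXY.trans hY
        have hb := hcardX hY
        have hab : (X.card : ℝ) ≤ Y.card := by exact_mod_cast card_le_card hXY
        have hFX : f (insert x X) ≤ f (insert x Y) :=
          hfm _ _ (insert_subset_insert x hXY) (hins hY)
        have hGX : f X ≤ f Y := hfm _ _ hXY (hY.trans hsub)
        have hGF : f Y ≤ f (insert x Y) := hfm _ _ (subset_insert x Y) (hins hY)
        have hF0 := hf0 _ (hins hX)
        have hG0 := hf0 _ (hX.trans hsub)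
        simp only [hf0def]
        by_cases hc : r + 1 ≤ X.card
        · have hc' : r + 1 ≤ Y.card := hc.trans (card_le_card hXY)
          rw [if_pos hc, if_pos hc']
          have h2 : (r : ℝ) ≤ X.card := by exact_mod_cast (by omega : r ≤ X.card)
          apply div_le_div_of_nonneg_right _ hmr.le
          have t1 : ((X.card : ℝ) - r) * f (insert x X) ≤ ((X.card : ℝ) - r) * f (insert x Y) :=
            mul_le_mul_of_nonneg_left hFX (by linarith)
          have t2 : ((m : ℝ) + 1 - X.card) * f X ≤ ((m : ℝ) + 1 - X.card) * f Y :=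
            mul_le_mul_of_nonneg_left hGX (by linarith)
          have t3 : 0 ≤ ((Y.card : ℝ) - X.card) * (f (insert x Y) - f Y) :=
            mul_nonneg (by linarith) (by linarith)
          nlinarith
        · rw [if_neg hc]
          split_ifs with hc'
          · have h2 : (r : ℝ) ≤ Y.card := by exact_mod_cast (by omega : r ≤ Y.card)
            exact div_nonneg (add_nonneg (mul_nonneg (by linarith) (by linarith))
              (mul_nonneg (by linarith) (by linarith))) hmr.le
          · exact le_rfl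
      · intro X hX
        simp only [hf0def]
        rw [if_neg (by omega)]
    have h1 : ∑ D ∈ powersetCard r (S.erase x),
          φ (insert x D) * mE ((S.erase x) \ D) (fun Z => f1 (D ∪ Z)) ≤
          N1 * mE (S.erase x) f1 := by
      rw [hN1, filt_one hx]
      cases r with
      | zero =>
        have e1 : (powersetCard 0 S).filter (fun T => x ∈ T) = ∅ := by
          rw [powersetCard_zero]
          ext T
          simp only [mem_filter, mem_singleton]
          constructor
          · rintro ⟨rfl, h⟩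
            exact absurd h (notMem_empty x)
          · intro h
            exact absurd h (notMem_empty T)
        rw [e1, powersetCard_zero, sum_singleton, sum_singleton, sum_empty, add_zero,
          sdiff_empty]
        refine le_of_eq ?_
        congr 1
        refine mE_congr fun Z _ => ?_
        rw [empty_union]
      | succ r =>
        rw [filt_one hx]
        refine ih (S.erase x) hS' r f1 (fun X hX => hf0 _ (hins hX))
          (fun X Y hXY hY => hfm _ _ (insert_subset_insert x hXY) (hins hY)) ?_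
          (fun D => φ (insert x D)) (fun T => ψ (insert x T)) ?_ ?_ ?_
        · intro X hX
          refine hfr _ ?_
          exact (card_insert_le x X).trans_lt (by omega)
        · intro D hD
          refine hφ _ (mem_powersetCard.2 ⟨hins (mem_powersetCard.1 hD).1, ?_⟩)
          rw [card_insert_of_notMem fun h => hxe ((mem_powersetCard.1 hD).1 h),
            (mem_powersetCard.1 hD).2]
        · intro D hD
          refine hψ _ (mem_powersetCard.2 ⟨hins (mem_powersetCard.1 hD).1, ?_⟩)
          rw [card_insert_of_notMem fun h => hxe ((mem_powersetCard.1 hD).1 h),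
            (mem_powersetCard.1 hD).2]
        · intro T hT y hy
          have hyx : y ≠ x := fun h' => hxe (h' ▸ (mem_sdiff.1 hy).1)
          have := h (insert x T) (mem_powersetCard.2 ⟨hins (mem_powersetCard.1 hT).1, by
            rw [card_insert_of_notMem fun h => hxe ((mem_powersetCard.1 hT).1 h),
            (mem_powersetCard.1 hT).2]⟩) y (mem_sdiff.2 ⟨hsub (mem_sdiff.1 hy).1, by
              rw [mem_insert]
              rintro (h' | h')
              · exact hyx h'
              · exact (mem_sdiff.1 hy).2 h'⟩)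
          rw [insert_comm] at this
          exact this
    rw [hsplit]
    refine (add_le_add h0 h1).trans ?_
    rw [← mE_mul, ← mE_mul, ← mE_add, ← mE_mul, mE_step hx]
    refine mE_mono fun X hX => ?_
    have hxX : x ∉ X := fun h => hxe (hX h)
    have hc := hcardX hX
    have hF0 := hf0 _ (hins hX)
    have hG0 := hf0 _ (hX.trans hsub)
    have hGF : f X ≤ f (insert x X) := hfm _ _ (subset_insert x X) (hins hX)
    have hm2 : (0 : ℝ) < (m : ℝ) + 2 := by positivity
    simp only [hf1def, hf0def]
    rw [hS]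
    push_cast
    have e2 : (m : ℝ) + 1 + 1 = m + 2 := by ring
    rw [e2]
    set G := f X with hG
    set Fx := f (insert x X) with hFx
    rcases lt_trichotomy X.card r with hlt | heq | hgt
    · have hF : Fx = 0 := hfr _ (by rw [card_insert_of_notMem hxX]; omega)
      have hG' : G = 0 := hfr _ (by omega)
      rw [if_neg (by omega), hF, hG']
      simp
    · have hG' : G = 0 := hfr _ (by omega)
      rw [if_neg (by omega), hG', heq]
      rw [mul_zero, mul_zero, mul_zero, add_zero, zero_add]
      rw [le_div_iff₀ hm2]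
      nlinarith
    · rw [if_pos (by omega)]
      have key : (m : ℝ) + 1 - r ≠ 0 := hmr.ne'
      rw [← mul_div_assoc, ← sub_nonneg]
      have hexp : (((X.card : ℝ) + 1) * ((N0 + N1) * Fx) +
          ((m : ℝ) + 1 - X.card) * ((N0 + N1) * G)) /
          ((m : ℝ) + 2) - (N0 * (((X.card : ℝ) - r) * Fx + ((m : ℝ) + 1 - X.card) * G) /
            ((m : ℝ) + 1 - r) + N1 * Fx) =
          ((((r : ℝ) + 1) * (N0 + N1) - ((m : ℝ) + 2) * N1) * (((m : ℝ) + 1 - X.card) *
            (Fx - G))) / (((m : ℝ) + 2) * ((m : ℝ) + 1 - r)) := by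
        field_simp
        ring
      rw [hexp]
      exact div_nonneg (mul_nonneg (by linarith) (mul_nonneg (by linarith) (by linarith)))
        (by positivity)

/-- Theorem T++ -/
theorem tpp (S : Finset α) (r : ℕ) (f : Finset α → ℝ) (hf0 : ∀ X, 0 ≤ f X)
    (hfm : ∀ X Y, X ⊆ Y → f X ≤ f Y) (φ ψ : Finset α → ℝ)
    (hφ : ∀ D ∈ powersetCard (r + 1) S, 0 ≤ φ D) (hψ : ∀ T ∈ powersetCard r S, 0 ≤ ψ T)
    (h : ∀ T ∈ powersetCard r S, ∀ y ∈ S \ T, φ (insert y T) ≤ ψ T) :
    ∑ D ∈ powersetCard (r + 1) S, φ D * mE (S \ D) (fun Z => f (D ∪ Z)) ≤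
      (∑ D ∈ powersetCard (r + 1) S, φ D + ∑ T ∈ powersetCard r S, ψ T) * mE S f := by
  set g : Finset α → ℝ := fun X => if r + 1 ≤ X.card then f X else 0 with hg
  have h1 : ∑ D ∈ powersetCard (r + 1) S, φ D * mE (S \ D) (fun Z => f (D ∪ Z)) =
      ∑ D ∈ powersetCard (r + 1) S, φ D * mE (S \ D) (fun Z => g (D ∪ Z)) := by
    refine sum_congr rfl fun D hD => ?_
    congr 1
    refine mE_congr fun Z _ => ?_
    simp only [hg]
    rw [if_pos]
    rw [← (mem_powersetCard.1 hD).2]
    exact card_le_card subset_union_left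
  rw [h1]
  refine (aux S.card S rfl r g ?_ ?_ ?_ φ ψ hφ hψ h).trans ?_
  · intro X _
    simp only [hg]
    split_ifs
    · exact hf0 X
    · exact le_rfl
  · intro X Y hXY _
    simp only [hg]
    have := card_le_card hXY
    split_ifs with h1 h2
    · exact hfm X Y hXY
    · omega
    · exact hf0 Y
    · exact le_rfl
  · intro X hX
    simp only [hg]
    rw [if_neg (by omega)]
  · refine mul_le_mul_of_nonneg_left (mE_mono fun X _ => ?_)
      (add_nonneg (sum_nonneg hφ) (sum_nonneg hψ))
    simp only [hg]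
    split_ifs
    · exact le_rfl
    · exact hf0 X

end Pool.Agent.TPP
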